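import Pool.Agent.H36.TB.Defs

/-!
# TB Cur: a curve in a chart

`exists_coef`: for a curve `F` in the surface, near the centre of the chart, `F = c • σ (τ F)` and `F' = c • dσ ((τ F)') + a • σ (τ F)`.
-/

set_option autoImplicit false

open Topology Filter Metric

noncomputable section

namespace Pool.Agent.H36.TB

open Pool.Agent.H17BP (Surface IsForm IsChart)

variable {V : Type} [NormedAddCommGroup V] [NormedSpace ℂ V] {X : Set V}

/-- the derivative of a curve in the surface in terms of a chart -/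
theorem exists_coef [FiniteDimensional ℂ V] {σ : ℂ × ℂ → V} {τ : V → ℂ × ℂ} (h : IsChart X σ τ) :
    ∀ᶠ y in 𝓝 (σ 0), ∀ (F : ℂ → V) (z : ℂ), AnalyticAt ℂ F z → (∀ᶠ w in 𝓝 z, F w ∈ X) → F z = y →
      ∃ c a : ℂ, c ≠ 0 ∧ F z = c • σ (τ y) ∧ deriv F z = c • fderiv ℂ σ (τ y) (deriv (fun w => τ (F w)) z) + a • σ (τ y) := by
  haveI : CompleteSpace V := FiniteDimensional.complete ℂ V
  have hτ0 : τ (σ 0) = 0 := h.left.self_of_nhds
  have hτt : Tendsto τ (𝓝 (σ 0)) (𝓝 0) := by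
    have := h.τ_an.continuousAt.tendsto
    rwa [hτ0] at this
  have hσne : ∀ᶠ p in 𝓝 (0 : ℂ × ℂ), σ p ≠ 0 := h.σ_an.continuousAt.eventually_ne h.ne
  filter_upwards [eventually_eventually_nhds.2 h.right, h.τ_an.eventually_analyticAt, hτt.eventually h.σ_an.eventually_analyticAt,
    hτt.eventually hσne] with y h1 h2 h3 h4 F z hF hFX hFz
  subst hFz
  obtain ⟨e, he⟩ : ∃ e : V →L[ℂ] ℂ, e (σ (τ (F z))) ≠ 0 := by
    obtain ⟨e, -, he⟩ := exists_dual_vector ℂ (σ (τ (F z))) (norm_ne_zero_iff.mpr h4)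
    refine ⟨e, ?_⟩
    rw [he]
    exact Complex.ofReal_ne_zero.mpr (norm_ne_zero_iff.mpr h4)
  have hτF : AnalyticAt ℂ (fun w => τ (F w)) z := AnalyticAt.comp h2 hF
  have hστF : AnalyticAt ℂ (fun w => σ (τ (F w))) z := AnalyticAt.comp h3 hτF
  have he1 : AnalyticAt ℂ (fun w => e (F w)) z := AnalyticAt.comp (e.analyticAt _) hF
  have he2 : AnalyticAt ℂ (fun w => e (σ (τ (F w)))) z := AnalyticAt.comp (e.analyticAt _) hστF
  have hc : AnalyticAt ℂ (fun w => e (F w) / e (σ (τ (F w)))) z := he1.div he2 he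
  have hne : ∀ᶠ w in 𝓝 z, e (σ (τ (F w))) ≠ 0 := he2.continuousAt.eventually_ne he
  have hex : ∀ᶠ w in 𝓝 z, ∃ c : ℂ, c ≠ 0 ∧ F w = c • σ (τ (F w)) := by
    filter_upwards [hF.continuousAt.eventually h1, hFX] with w k1 k2
    exact k1 k2
  have hval : ∀ᶠ w in 𝓝 z, F w = (e (F w) / e (σ (τ (F w)))) • σ (τ (F w)) := by
    filter_upwards [hex, hne] with w k1 k2
    obtain ⟨c, -, hc'⟩ := k1
    have k3 : e (F w) = c * e (σ (τ (F w))) := by
      conv_lhs => rw [hc']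
      rw [map_smul, smul_eq_mul]
    rw [k3, mul_div_cancel_right₀ _ k2]
    exact hc'
  obtain ⟨c₁, hc₁, hc₁'⟩ := hex.self_of_nhds
  have hc0 : e (F z) / e (σ (τ (F z))) = c₁ := by
    have k3 : e (F z) = c₁ * e (σ (τ (F z))) := by
      conv_lhs => rw [hc₁']
      rw [map_smul, smul_eq_mul]
    rw [k3, mul_div_cancel_right₀ _ he]
  have hd1 : HasDerivAt (fun w => τ (F w)) (deriv (fun w => τ (F w)) z) z := hτF.differentiableAt.hasDerivAt
  have hd2 : HasDerivAt (fun w => σ (τ (F w))) (fderiv ℂ σ (τ (F z)) (deriv (fun w => τ (F w)) z)) z :=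
    HasFDerivAt.comp_hasDerivAt z (l := σ) (l' := fderiv ℂ σ (τ (F z))) h3.differentiableAt.hasFDerivAt hd1
  have hd3 := hc.differentiableAt.hasDerivAt.smul hd2
  have hd4 : deriv F z = deriv (fun w => (e (F w) / e (σ (τ (F w)))) • σ (τ (F w))) z := Filter.EventuallyEq.deriv_eq hval
  refine ⟨c₁, deriv (fun w => e (F w) / e (σ (τ (F w)))) z, hc₁, hc₁', ?_⟩
  rw [hd4]
  have hd5 : deriv (fun w => (e (F w) / e (σ (τ (F w)))) • σ (τ (F w))) z =
      (e (F z) / e (σ (τ (F z)))) • fderiv ℂ σ (τ (F z)) (deriv (fun w => τ (F w)) z) +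
      deriv (fun w => e (F w) / e (σ (τ (F w)))) z • σ (τ (F z)) := hd3.deriv
  rw [hd5, hc0]

end Pool.Agent.H36.TB
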