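import Pool.Agent.H36.TB.Defs
import Pool.Agent.H14.PP.Metric

/-!
# TB Cmp: comparison of the model metrics under a change of the coordinates

`sm κ` is the model at a smooth point of the curve `{s = 0}`, `sn κ` at a node `{s t = 0}`.  Both are quasi-invariant under the changes of the
coordinates which preserve the curve, with constants independent of `κ ∈ [0, 1/4]`.
-/

set_option autoImplicit false

open Topology Filter Metric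

namespace Pool.Agent.H36.TB

open Pool.Agent.H36.BP
open Pool.Agent.H14.PP

/-- the model of the metric at a node of the curve -/
noncomputable def sn (κ : ℝ) (p w : ℂ × ℂ) : ℝ := max (‖p.2‖ ^ (1 - κ) * ‖w.1‖) (‖p.1‖ ^ (1 - κ) * ‖w.2‖)

/-- both models: `sg false = sm`, `sg true = sn` -/
noncomputable def sg (nd : Bool) (κ : ℝ) (p w : ℂ × ℂ) : ℝ :=
  max ((if nd = true then ‖p.2‖ ^ (1 - κ) else 1) * ‖w.1‖) (‖p.1‖ ^ (1 - κ) * ‖w.2‖)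

theorem sg_false (κ : ℝ) (p w : ℂ × ℂ) : sg false κ p w = sm κ p w := by
  unfold sg sm
  simp

theorem sg_true (κ : ℝ) (p w : ℂ × ℂ) : sg true κ p w = sn κ p w := by
  unfold sg sn
  simp

theorem sm_nonneg (κ : ℝ) (p w : ℂ × ℂ) : 0 ≤ sm κ p w := le_max_of_le_left (norm_nonneg _)

theorem sn_nonneg (κ : ℝ) (p w : ℂ × ℂ) : 0 ≤ sn κ p w :=
  le_max_of_le_left (mul_nonneg (Real.rpow_nonneg (norm_nonneg _) _) (norm_nonneg _))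

theorem sg_nonneg (nd : Bool) (κ : ℝ) (p w : ℂ × ℂ) : 0 ≤ sg nd κ p w :=
  le_max_of_le_right (mul_nonneg (Real.rpow_nonneg (norm_nonneg _) _) (norm_nonneg _))

theorem sn_swap (κ : ℝ) (p w : ℂ × ℂ) : sn κ p.swap w.swap = sn κ p w := by
  unfold sn
  exact max_comm _ _

/-! ## the pieces and the models -/

private theorem Cmp_base {P : Par} (hP : ConvPar P) {s : ℂ} (hs : ‖s‖ ≤ 1) :
    1 ≤ (1 + P.M * ‖s‖ ^ (2 * P.κ)) ^ P.e ∧ (1 + P.M * ‖s‖ ^ (2 * P.κ)) ^ P.e ≤ 2 := by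
  have hM : 0 ≤ P.M := by linarith [hP.M_ge]
  have h0 : 0 ≤ ‖s‖ ^ (2 * P.κ) := Real.rpow_nonneg (norm_nonneg _) _
  have h1 : 1 ≤ 1 + P.M * ‖s‖ ^ (2 * P.κ) := by nlinarith
  refine ⟨Real.one_le_rpow h1 hP.e_pos.le, ?_⟩
  have h2 : ‖s‖ ^ (2 * P.κ) ≤ 1 := Real.rpow_le_one (norm_nonneg _) hs (by linarith [hP.κ_pos])
  have h3 : 1 + P.M * ‖s‖ ^ (2 * P.κ) ≤ 1 + P.M := by nlinarith
  have h4 : (1 + P.M * ‖s‖ ^ (2 * P.κ)) ^ P.e ≤ (1 + P.M) ^ P.e :=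
    Real.rpow_le_rpow (by linarith) h3 hP.e_pos.le
  refine h4.trans ?_
  rw [Real.rpow_def_of_pos (by linarith)]
  have h5 : Real.log (1 + P.M) * P.e ≤ 1 / 16 := by
    have := hP.e_log
    have := hP.ε_le
    nlinarith
  have h6 : Real.exp (Real.log (1 + P.M) * P.e) ≤ Real.exp (1 / 16) := Real.exp_le_exp.2 h5
  have h7 : Real.exp (1 / 16) ≤ 2 := by
    have h8 := Real.exp_bound_div_one_sub_of_interval (x := 1 / 16) (by norm_num) (by norm_num)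
    refine h8.trans (by norm_num)
  exact h6.trans h7

private theorem Cmp_exp_le {a x : ℝ} (ha : 0 ≤ a) : Real.exp (-a * x ^ 2) ≤ 1 := by
  rw [Real.exp_le_one_iff]
  nlinarith [sq_nonneg x]

private theorem Cmp_le_exp {a x : ℝ} (ha : 0 ≤ a) (hx0 : 0 ≤ x) (hx : x ≤ 1) :
    Real.exp (-a) ≤ Real.exp (-a * x ^ 2) := by
  rw [Real.exp_le_exp]
  have : x ^ 2 ≤ 1 := pow_le_one₀ hx0 hx
  nlinarith

private theorem Cmp_pN {P : Par} (hP : ConvPar P) (nd : Bool) {s t : ℂ} (hs : ‖s‖ ≤ 1) (ht : ‖t‖ ≤ 1) (s' : ℂ) :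
    Real.exp (-P.K - 1) * ((if nd = true then ‖t‖ ^ (1 - P.κ) else 1) * ‖s'‖) ≤ pN nd P s t s' ∧
    pN nd P s t s' ≤ 2 * ((if nd = true then ‖t‖ ^ (1 - P.κ) else 1) * ‖s'‖) := by
  obtain ⟨h1, h1'⟩ := Cmp_base hP hs
  have h2 : Real.exp (-P.K * ‖t‖ ^ 2) ≤ 1 := Cmp_exp_le hP.K_pos.le
  have h2' : Real.exp (-P.K) ≤ Real.exp (-P.K * ‖t‖ ^ 2) := Cmp_le_exp hP.K_pos.le (norm_nonneg _) ht
  have h3 : Real.exp (-P.ε * ‖s‖ ^ 2) ≤ 1 := Cmp_exp_le hP.ε_pos.le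
  have h3' : Real.exp (-1) ≤ Real.exp (-P.ε * ‖s‖ ^ 2) := by
    refine le_trans (Real.exp_le_exp.2 ?_) (Cmp_le_exp hP.ε_pos.le (norm_nonneg _) hs)
    linarith [hP.ε_le]
  have h4 : Real.exp (-P.K - 1) = Real.exp (-1) * Real.exp (-P.K) := by
    rw [← Real.exp_add]
    congr 1
    ring
  have e1 : 0 < Real.exp (-1 : ℝ) := Real.exp_pos _
  have e1' : Real.exp (-1 : ℝ) ≤ 1 := Real.exp_le_one_iff.2 (by norm_num)
  have e2 : 0 < Real.exp (-P.K) := Real.exp_pos _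
  have e3 : 0 < Real.exp (-P.K * ‖t‖ ^ 2) := Real.exp_pos _
  have e4 : 0 < Real.exp (-P.ε * ‖s‖ ^ 2) := Real.exp_pos _
  have n1 := norm_nonneg s'
  set a : ℝ := (if nd = true then ‖t‖ ^ (1 - P.κ) else 1) with ha
  have ha0 : 0 ≤ a := by
    rw [ha]
    split_ifs
    · exact Real.rpow_nonneg (norm_nonneg _) _
    · exact zero_le_one
  have key : ∃ b : ℝ, Real.exp (-1) ≤ b ∧ b ≤ 1 ∧
      pN nd P s t s' = a * b * ‖s'‖ * (1 + P.M * ‖s‖ ^ (2 * P.κ)) ^ P.e * Real.exp (-P.K * ‖t‖ ^ 2) := by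
    cases nd
    · refine ⟨1, e1', le_rfl, ?_⟩
      unfold pN
      simp [ha]
    · refine ⟨Real.exp (-P.ε * ‖s‖ ^ 2), h3', h3, ?_⟩
      unfold pN
      simp [ha]
  obtain ⟨b, hb1, hb2, hb3⟩ := key
  rw [hb3, h4]
  have hb0 : 0 < b := e1.trans_le hb1
  set B : ℝ := (1 + P.M * ‖s‖ ^ (2 * P.κ)) ^ P.e with hB
  constructor
  · calc Real.exp (-1) * Real.exp (-P.K) * (a * ‖s'‖) = a * Real.exp (-1) * ‖s'‖ * 1 * Real.exp (-P.K) := by ring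
      _ ≤ a * b * ‖s'‖ * B * Real.exp (-P.K * ‖t‖ ^ 2) := by gcongr
  · calc a * b * ‖s'‖ * B * Real.exp (-P.K * ‖t‖ ^ 2) ≤ a * 1 * ‖s'‖ * 2 * 1 := by gcongr
      _ = 2 * (a * ‖s'‖) := by ring

/-- the pieces are comparable to the models -/
theorem pM_sg {P : Par} (hP : ConvPar P) (nd : Bool) {p : ℂ × ℂ} (hp : ‖p‖ ≤ 1) (w : ℂ × ℂ) :
    Real.exp (-P.K - 1) * sg nd P.κ p w ≤ pM nd P p w ∧ pM nd P p w ≤ 2 * sg nd P.κ p w := by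
  have h1 : ‖p.1‖ ≤ 1 := (norm_fst_le p).trans hp
  have h2 : ‖p.2‖ ≤ 1 := (norm_snd_le p).trans hp
  have e0 : 0 < Real.exp (-P.K - 1) := Real.exp_pos _
  obtain ⟨a1, a2⟩ := Cmp_pN hP nd h1 h2 w.1
  have hT : Real.exp (-P.K - 1) * (‖p.1‖ ^ (1 - P.κ) * ‖w.2‖) ≤ pT nd P p.1 p.2 w.2 ∧
      pT nd P p.1 p.2 w.2 ≤ 2 * (‖p.1‖ ^ (1 - P.κ) * ‖w.2‖) := by
    unfold pT
    cases nd
    · rw [if_neg (by decide)]
      have h3 : Real.exp (-P.ε * ‖p.2‖ ^ 2) ≤ 1 := Cmp_exp_le hP.ε_pos.le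
      have h3' : Real.exp (-P.K - 1) ≤ Real.exp (-P.ε * ‖p.2‖ ^ 2) := by
        refine le_trans (Real.exp_le_exp.2 ?_) (Cmp_le_exp hP.ε_pos.le (norm_nonneg _) h2)
        linarith [hP.ε_le, hP.K_pos]
      have h4 : 0 ≤ ‖p.1‖ ^ (1 - P.κ) * ‖w.2‖ := mul_nonneg (Real.rpow_nonneg (norm_nonneg _) _) (norm_nonneg _)
      constructor
      · rw [mul_comm]
        exact mul_le_mul_of_nonneg_left h3' h4
      · have := mul_le_mul_of_nonneg_left h3 h4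
        linarith
    · rw [if_pos rfl]
      have := Cmp_pN hP true h2 h1 w.2
      simpa using this
  unfold sg pM
  constructor
  · rw [mul_max_of_nonneg _ _ e0.le]
    exact max_le_max a1 hT.1
  · rw [mul_max_of_nonneg _ _ (by norm_num : (0 : ℝ) ≤ 2)]
    exact max_le_max a2 hT.2

/-- away from the second axis the two models are comparable -/
theorem sg_sm {nd : Bool} {κ b : ℝ} (hκ0 : 0 ≤ κ) (hκ : κ ≤ 1 / 4) {p w : ℂ × ℂ} (hp : ‖p.2‖ ≤ 1) (hb0 : 0 < b) (hb1 : b ≤ 1)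
    (hb : nd = true → b ≤ ‖p.2‖) : b * sm κ p w ≤ sg nd κ p w ∧ sg nd κ p w ≤ sm κ p w := by
  have hx : 0 ≤ ‖p.1‖ ^ (1 - κ) * ‖w.2‖ := mul_nonneg (Real.rpow_nonneg (norm_nonneg _) _) (norm_nonneg _)
  have n1 := norm_nonneg w.1
  unfold sg sm
  cases nd
  · simp only [Bool.false_eq_true, if_false, one_mul]
    refine ⟨?_, le_rfl⟩
    exact mul_le_of_le_one_left (le_max_of_le_left n1) hb1
  · simp only [if_true]
    have h1 : ‖p.2‖ ^ (1 - κ) ≤ 1 := Real.rpow_le_one (norm_nonneg _) hp (by linarith)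
    have h2 : b ≤ ‖p.2‖ ^ (1 - κ) := by
      have h3 : 0 < ‖p.2‖ := hb0.trans_le (hb rfl)
      have h4 := Real.rpow_le_rpow_of_exponent_ge h3 hp (show 1 - κ ≤ 1 by linarith)
      rw [Real.rpow_one] at h4
      exact (hb rfl).trans h4
    constructor
    · rw [mul_max_of_nonneg _ _ hb0.le]
      exact max_le_max (mul_le_mul_of_nonneg_right h2 n1) (mul_le_of_le_one_left hx hb1)
    · exact max_le_max (mul_le_of_le_one_left n1 h1) le_rfl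

/-! ## changes of the coordinates -/

private theorem Cmp_rpow {κ x C : ℝ} (hκ0 : 0 ≤ κ) (hκ : κ ≤ 1 / 4) (hx : 0 ≤ x) (hC : 1 ≤ C) : (C * x) ^ (1 - κ) ≤ C * x ^ (1 - κ) := by
  rw [Real.mul_rpow (by linarith) hx]
  refine mul_le_mul_of_nonneg_right ?_ (Real.rpow_nonneg hx _)
  have := Real.rpow_le_rpow_of_exponent_le hC (show 1 - κ ≤ 1 by linarith)
  rwa [Real.rpow_one] at this

private theorem Cmp_le_rpow {κ x : ℝ} (hκ0 : 0 ≤ κ) (hκ : κ ≤ 1 / 4) (hx : 0 ≤ x) (hx1 : x ≤ 1) : x ≤ x ^ (1 - κ) := by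
  rcases hx.eq_or_lt with h | h
  · rw [← h, Real.zero_rpow (by linarith)]
  · have := Real.rpow_le_rpow_of_exponent_ge h hx1 (show 1 - κ ≤ 1 by linarith)
    rwa [Real.rpow_one] at this

private theorem Cmp_pair (L : (ℂ × ℂ) →L[ℂ] (ℂ × ℂ)) (w : ℂ × ℂ) :
    (L w).1 = w.1 * (L (1, 0)).1 + w.2 * (L (0, 1)).1 ∧ (L w).2 = w.1 * (L (1, 0)).2 + w.2 * (L (0, 1)).2 := by
  have h : L w = w.1 • L (1, 0) + w.2 • L (0, 1) := by
    rw [← map_smul, ← map_smul, ← map_add]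
    congr 1
    ext
    · simp
    · simp
  rw [h]
  exact ⟨rfl, rfl⟩

/-- at a smooth point -/
theorem sm_change {C κ : ℝ} (hC : 1 ≤ C) (hκ0 : 0 ≤ κ) (hκ : κ ≤ 1 / 4) {τ : ℂ × ℂ → ℂ × ℂ} {p : ℂ × ℂ} (h : TEmap C τ p)
    (hp : ‖p.1‖ ≤ 1) (w : ℂ × ℂ) : sm κ (τ p) (fderiv ℂ τ p w) ≤ 4 * C ^ 2 * sm κ p w := by
  obtain ⟨h1, h2, h3, h4, h5, h6, h7⟩ := h
  obtain ⟨e1, e2⟩ := Cmp_pair (fderiv ℂ τ p) w
  set l := (fderiv ℂ τ p (1, 0)).1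
  set b := (fderiv ℂ τ p (0, 1)).1
  set c := (fderiv ℂ τ p (1, 0)).2
  set m := (fderiv ℂ τ p (0, 1)).2
  have hC0 : 0 < C := by linarith
  have hs0 := norm_nonneg p.1
  have hw1 := norm_nonneg w.1
  have hw2 := norm_nonneg w.2
  set S : ℝ := ‖p.1‖ ^ (1 - κ) with hS
  have hS0 : 0 ≤ S := Real.rpow_nonneg hs0 _
  have hsS : ‖p.1‖ ≤ S := Cmp_le_rpow hκ0 hκ hs0 hp
  have hS1 : S ≤ 1 := Real.rpow_le_one hs0 hp (by linarith)
  have m1 : ‖w.1‖ ≤ sm κ p w := le_max_left _ _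
  have m2 : S * ‖w.2‖ ≤ sm κ p w := le_max_right _ _
  have m0 := sm_nonneg κ p w
  have hu : ‖(τ p).1‖ ≤ 2 * C * ‖p.1‖ := by
    have h8 := (abs_le.1 h3).2
    have h9 : ‖l‖ * ‖p.1‖ ≤ C * ‖p.1‖ := mul_le_mul_of_nonneg_right h5 hs0
    have h10 : C * ‖p.1‖ ^ 2 ≤ C * ‖p.1‖ := by
      have : ‖p.1‖ ^ 2 ≤ ‖p.1‖ := by nlinarith
      exact mul_le_mul_of_nonneg_left this hC0.le
    linarith
  have hu2 : ‖(τ p).1‖ ^ (1 - κ) ≤ 2 * C * S := by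
    refine (Real.rpow_le_rpow (norm_nonneg _) hu (by linarith)).trans ?_
    exact Cmp_rpow hκ0 hκ hs0 (by linarith)
  refine max_le ?_ ?_
  · rw [e1]
    calc ‖w.1 * l + w.2 * b‖ ≤ ‖w.1‖ * ‖l‖ + ‖w.2‖ * ‖b‖ := by
          refine (norm_add_le _ _).trans ?_
          rw [norm_mul, norm_mul]
      _ ≤ sm κ p w * C + C * (S * ‖w.2‖) := by
          have h8 : ‖w.2‖ * ‖b‖ ≤ ‖w.2‖ * (C * S) := by
            refine mul_le_mul_of_nonneg_left (h1.trans ?_) hw2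
            exact mul_le_mul_of_nonneg_left hsS hC0.le
          have h9 : ‖w.1‖ * ‖l‖ ≤ sm κ p w * C := mul_le_mul m1 h5 (norm_nonneg _) m0
          linarith
      _ ≤ sm κ p w * C + C * sm κ p w := by gcongr
      _ ≤ 4 * C ^ 2 * sm κ p w := by
          have h8 : C ≤ C ^ 2 := by nlinarith
          nlinarith [mul_le_mul_of_nonneg_right h8 m0, mul_nonneg hC0.le m0, mul_nonneg (sq_nonneg C) m0]
  · rw [e2]
    have h8 : ‖w.1 * c + w.2 * m‖ ≤ ‖w.1‖ * C + ‖w.2‖ * C := by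
      refine (norm_add_le _ _).trans ?_
      rw [norm_mul, norm_mul]
      exact add_le_add (mul_le_mul_of_nonneg_left h2 hw1) (mul_le_mul_of_nonneg_left h7 hw2)
    calc ‖(τ p).1‖ ^ (1 - κ) * ‖w.1 * c + w.2 * m‖ ≤ (2 * C * S) * (‖w.1‖ * C + ‖w.2‖ * C) :=
          mul_le_mul hu2 h8 (norm_nonneg _) (by positivity)
      _ = 2 * C ^ 2 * (S * ‖w.1‖) + 2 * C ^ 2 * (S * ‖w.2‖) := by ring
      _ ≤ 2 * C ^ 2 * sm κ p w + 2 * C ^ 2 * sm κ p w := by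
          have h9 : S * ‖w.1‖ ≤ sm κ p w := (mul_le_of_le_one_left hw1 hS1).trans m1
          gcongr
      _ = 4 * C ^ 2 * sm κ p w := by ring

/-- at a node -/
theorem sn_change {C κ : ℝ} (hC : 1 ≤ C) (hκ0 : 0 ≤ κ) (hκ : κ ≤ 1 / 4) {τ : ℂ × ℂ → ℂ × ℂ} {p : ℂ × ℂ}
    (hp1 : ‖p.1‖ ≤ 1) (hp2 : ‖p.2‖ ≤ 1) (hu : ‖(τ p).1‖ ≤ C * ‖p.1‖) (hv : ‖(τ p).2‖ ≤ C * ‖p.2‖)
    (hl : ‖(fderiv ℂ τ p (1, 0)).1‖ ≤ C) (hm : ‖(fderiv ℂ τ p (0, 1)).2‖ ≤ C)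
    (hb : ‖(fderiv ℂ τ p (0, 1)).1‖ ≤ C * ‖p.1‖) (hc : ‖(fderiv ℂ τ p (1, 0)).2‖ ≤ C * ‖p.2‖) (w : ℂ × ℂ) :
    sn κ (τ p) (fderiv ℂ τ p w) ≤ 2 * C ^ 2 * sn κ p w := by
  obtain ⟨e1, e2⟩ := Cmp_pair (fderiv ℂ τ p) w
  set l := (fderiv ℂ τ p (1, 0)).1
  set b := (fderiv ℂ τ p (0, 1)).1
  set c := (fderiv ℂ τ p (1, 0)).2
  set m := (fderiv ℂ τ p (0, 1)).2
  have hC0 : 0 < C := by linarith
  have hs0 := norm_nonneg p.1
  have ht0 := norm_nonneg p.2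
  have hw1 := norm_nonneg w.1
  have hw2 := norm_nonneg w.2
  set S : ℝ := ‖p.1‖ ^ (1 - κ) with hS
  set R : ℝ := ‖p.2‖ ^ (1 - κ) with hR
  have hS0 : 0 ≤ S := Real.rpow_nonneg hs0 _
  have hR0 : 0 ≤ R := Real.rpow_nonneg ht0 _
  have hsS : ‖p.1‖ ≤ S := Cmp_le_rpow hκ0 hκ hs0 hp1
  have htR : ‖p.2‖ ≤ R := Cmp_le_rpow hκ0 hκ ht0 hp2
  have hS1 : S ≤ 1 := Real.rpow_le_one hs0 hp1 (by linarith)
  have hR1 : R ≤ 1 := Real.rpow_le_one ht0 hp2 (by linarith)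
  have m1 : R * ‖w.1‖ ≤ sn κ p w := le_max_left _ _
  have m2 : S * ‖w.2‖ ≤ sn κ p w := le_max_right _ _
  have hu2 : ‖(τ p).1‖ ^ (1 - κ) ≤ C * S :=
    (Real.rpow_le_rpow (norm_nonneg _) hu (by linarith)).trans (Cmp_rpow hκ0 hκ hs0 hC)
  have hv2 : ‖(τ p).2‖ ^ (1 - κ) ≤ C * R :=
    (Real.rpow_le_rpow (norm_nonneg _) hv (by linarith)).trans (Cmp_rpow hκ0 hκ ht0 hC)
  refine max_le ?_ ?_
  · rw [e1]
    have h8 : ‖w.1 * l + w.2 * b‖ ≤ ‖w.1‖ * C + ‖w.2‖ * (C * S) := by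
      refine (norm_add_le _ _).trans ?_
      rw [norm_mul, norm_mul]
      exact add_le_add (mul_le_mul_of_nonneg_left hl hw1)
        (mul_le_mul_of_nonneg_left (hb.trans (mul_le_mul_of_nonneg_left hsS hC0.le)) hw2)
    calc ‖(τ p).2‖ ^ (1 - κ) * ‖w.1 * l + w.2 * b‖ ≤ (C * R) * (‖w.1‖ * C + ‖w.2‖ * (C * S)) :=
          mul_le_mul hv2 h8 (norm_nonneg _) (by positivity)
      _ = C ^ 2 * (R * ‖w.1‖) + C ^ 2 * (R * (S * ‖w.2‖)) := by ring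
      _ ≤ C ^ 2 * sn κ p w + C ^ 2 * sn κ p w := by
          have h9 : R * (S * ‖w.2‖) ≤ sn κ p w := (mul_le_of_le_one_left (by positivity) hR1).trans m2
          gcongr
      _ = 2 * C ^ 2 * sn κ p w := by ring
  · rw [e2]
    have h8 : ‖w.1 * c + w.2 * m‖ ≤ ‖w.1‖ * (C * R) + ‖w.2‖ * C := by
      refine (norm_add_le _ _).trans ?_
      rw [norm_mul, norm_mul]
      exact add_le_add (mul_le_mul_of_nonneg_left (hc.trans (mul_le_mul_of_nonneg_left htR hC0.le)) hw1)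
        (mul_le_mul_of_nonneg_left hm hw2)
    calc ‖(τ p).1‖ ^ (1 - κ) * ‖w.1 * c + w.2 * m‖ ≤ (C * S) * (‖w.1‖ * (C * R) + ‖w.2‖ * C) :=
          mul_le_mul hu2 h8 (norm_nonneg _) (by positivity)
      _ = C ^ 2 * (S * (R * ‖w.1‖)) + C ^ 2 * (S * ‖w.2‖) := by ring
      _ ≤ C ^ 2 * sn κ p w + C ^ 2 * sn κ p w := by
          have h9 : S * (R * ‖w.1‖) ≤ sn κ p w := (mul_le_of_le_one_left (by positivity) hS1).trans m1
          gcongr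
      _ = 2 * C ^ 2 * sn κ p w := by ring

end Pool.Agent.H36.TB
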