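import Pool.Agent.H36.TB.Cmp

/-!
# TB CmpCh: comparison of the model metrics of two charts
-/

set_option autoImplicit false

open Topology Filter Metric

namespace Pool.Agent.H36.TB

open Pool.Agent.H36.BP
open Pool.Agent.H14.PP

variable {N : ℕ} {X K T : Set (EN N)} {m j : ℕ}

/-! ## two charts -/

theorem ch_pt (χ χ' : Chart X) {y : ℂ × ℂ} (hy : y ∈ ball (0 : ℂ × ℂ) 2) (hU : χ.σ y ∈ χ'.U) :
    χ'.q (χ.σ y) ∈ ball (0 : ℂ × ℂ) 2 ∧ χ'.σ (χ'.q (χ.σ y)) ∈ χ.U ∧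
      χ.q (χ'.σ (χ'.q (χ.σ y))) = y ∧ ∃ c : ℂ, c ≠ 0 ∧ χ'.σ (χ'.q (χ.σ y)) = c • χ.σ y := by
  obtain ⟨h1, h2, h3⟩ := χ.σ_mem y hy
  obtain ⟨h4, c, hc, h5⟩ := χ'.surj _ h1 hU
  have h6 : χ'.σ (χ'.q (χ.σ y)) = c⁻¹ • χ.σ y := by
    conv_rhs => rw [h5]
    rw [smul_smul, inv_mul_cancel₀ hc, one_smul]
  have hc' : c⁻¹ ≠ 0 := inv_ne_zero hc
  refine ⟨h4, ?_, ?_, c⁻¹, hc', h6⟩
  · rw [h6]
    exact χ.smul_U _ h2 _ hc'
  · rw [h6, χ.q_smul _ h2 _ hc', h3]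

theorem ch_an (χ χ' : Chart X) {y : ℂ × ℂ} (hy : y ∈ ball (0 : ℂ × ℂ) 2)
    (hU : χ.σ y ∈ χ'.U) : AnalyticAt ℂ (fun y => χ'.q (χ.σ y)) y :=
  AnalyticAt.comp (g := χ'.q) (f := χ.σ) (χ'.q_an _ hU) (χ.σ_an y hy)

theorem ch_near (χ χ' : Chart X) {y : ℂ × ℂ} (hy : y ∈ ball (0 : ℂ × ℂ) 2)
    (hU : χ.σ y ∈ χ'.U) : ∀ᶠ z in 𝓝 y, z ∈ ball (0 : ℂ × ℂ) 2 ∧ χ.σ z ∈ χ'.U := by
  have h1 : ∀ᶠ z in 𝓝 y, z ∈ ball (0 : ℂ × ℂ) 2 := isOpen_ball.mem_nhds hy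
  have h2 : ∀ᶠ x in 𝓝 (χ.σ y), x ∈ χ'.U := χ'.isOpen_U.mem_nhds hU
  exact h1.and ((χ.σ_an y hy).continuousAt.tendsto.eventually h2)

/-- the two changes of charts are inverse to each other -/
theorem ch_inv (χ χ' : Chart X) {y : ℂ × ℂ} (hy : y ∈ ball (0 : ℂ × ℂ) 2) (hU : χ.σ y ∈ χ'.U) (w : ℂ × ℂ) :
    fderiv ℂ (fun y => χ.q (χ'.σ y)) (χ'.q (χ.σ y)) (fderiv ℂ (fun y => χ'.q (χ.σ y)) y w) = w := by
  obtain ⟨a1, a2, a3, -⟩ := ch_pt χ χ' hy hU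
  have hτ := ch_an χ χ' hy hU
  have hη := ch_an χ' χ a1 a2
  have hid : ∀ᶠ z in 𝓝 y, χ.q (χ'.σ (χ'.q (χ.σ z))) = z := by
    filter_upwards [ch_near χ χ' hy hU] with z hz
    exact (ch_pt χ χ' hz.1 hz.2).2.2.1
  have h1 : HasFDerivAt ((fun y => χ.q (χ'.σ y)) ∘ fun y => χ'.q (χ.σ y))
      ((fderiv ℂ (fun y => χ.q (χ'.σ y)) (χ'.q (χ.σ y))).comp (fderiv ℂ (fun y => χ'.q (χ.σ y)) y)) y :=
    HasFDerivAt.comp (f := fun y => χ'.q (χ.σ y)) y hη.differentiableAt.hasFDerivAt hτ.differentiableAt.hasFDerivAt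
  have h2 : HasFDerivAt ((fun y => χ.q (χ'.σ y)) ∘ fun y => χ'.q (χ.σ y)) (ContinuousLinearMap.id ℂ (ℂ × ℂ)) y :=
    (hasFDerivAt_id y).congr_of_eventuallyEq hid
  have h3 := h1.unique h2
  have h4 := congrArg (fun L : (ℂ × ℂ) →L[ℂ] (ℂ × ℂ) => L w) h3
  simpa using h4

/-! ## the coefficients -/

theorem ACoef_cmp (hX : IsCone X) (hK : IsOpenPart X K) (hm : 1 ≤ m) (Ω : Form K m j) (χ χ' : Chart X) {p : ℂ × ℂ}
    (hp : p ∈ ball (0 : ℂ × ℂ) 2) (hU : χ.σ p ∈ χ'.U) :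
    ∃ B : ℝ, 1 ≤ B ∧ ∀ᶠ y in 𝓝 p, χ.σ y ∈ K → ACoef Ω χ y ≤ B * ACoef Ω χ' (χ'.q (χ.σ y)) ∧
      ACoef Ω χ' (χ'.q (χ.σ y)) ≤ B * ACoef Ω χ y := by
  set τ : ℂ × ℂ → ℂ × ℂ := fun y => χ'.q (χ.σ y) with hτ
  have hJ : jac τ p ≠ 0 := jac_ne_zero hX χ χ' hp hU
  have hτa : AnalyticAt ℂ τ p := ch_an χ χ' hp hU
  have hJc : ContinuousAt (fun y => ‖jac τ y‖) p := by
    have h1 : ContinuousAt (fderiv ℂ τ) p := hτa.fderiv.continuousAt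
    have h2 : ∀ w : ℂ × ℂ, ContinuousAt (fun y => fderiv ℂ τ y w) p := fun w => h1.clm_apply continuousAt_const
    unfold jac
    exact ((((h2 (1, 0)).fst.mul (h2 (0, 1)).snd).sub ((h2 (0, 1)).fst.mul (h2 (1, 0)).snd))).norm
  set a : ℝ := ‖jac τ p‖ with ha
  have ha0 : 0 < a := norm_pos_iff.2 hJ
  refine ⟨1 + (a + 1) + 2 / a, by have : 0 < 2 / a := by positivity
                                  linarith, ?_⟩
  have e1 : ∀ᶠ y in 𝓝 p, a / 2 < ‖jac τ y‖ := hJc.eventually (lt_mem_nhds (by linarith))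
  have e2 : ∀ᶠ y in 𝓝 p, ‖jac τ y‖ < a + 1 := hJc.eventually (gt_mem_nhds (by linarith))
  filter_upwards [e1, e2, ch_near χ χ' hp hU] with y h1 h2 h3 hyK
  have h4 := ACoef_trans hX hK hm Ω χ χ' h3.1 hyK h3.2
  have h5 : 0 ≤ ACoef Ω χ' (χ'.q (χ.σ y)) := ACoef_nonneg Ω χ' _
  have h6 : 0 ≤ ACoef Ω χ y := ACoef_nonneg Ω χ _
  have h7 : 0 < 2 / a := by positivity
  constructor
  · rw [h4]
    refine mul_le_mul_of_nonneg_right ?_ h5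
    have : ‖jac (fun y => χ'.q (χ.σ y)) y‖ < a + 1 := h2
    linarith
  · have h8 : a / 2 * ACoef Ω χ' (χ'.q (χ.σ y)) ≤ ACoef Ω χ y := by
      rw [h4]
      exact mul_le_mul_of_nonneg_right h1.le h5
    calc ACoef Ω χ' (χ'.q (χ.σ y)) = 2 / a * (a / 2 * ACoef Ω χ' (χ'.q (χ.σ y))) := by field_simp
      _ ≤ 2 / a * ACoef Ω χ y := mul_le_mul_of_nonneg_left h8 h7.le
      _ ≤ (1 + (a + 1) + 2 / a) * ACoef Ω χ y := mul_le_mul_of_nonneg_right (by linarith) h6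

/-! ## smooth points -/

/-- one direction -/
theorem sm_chart (hX : IsCone X) (χ χ' : Chart X) {t₀ : ℂ} (ht₀ : ‖t₀‖ < 2) (hU : χ.σ (0, t₀) ∈ χ'.U)
    (h0 : ∀ᶠ t in 𝓝 t₀, (χ'.q (χ.σ (0, t))).1 = 0) :
    ∃ B : ℝ, 1 ≤ B ∧ ∀ᶠ y in 𝓝 ((0 : ℂ), t₀), ∀ κ : ℝ, 0 ≤ κ → κ ≤ 1 / 4 → ∀ w,
      sm κ (χ'.q (χ.σ y)) (fderiv ℂ (fun y => χ'.q (χ.σ y)) y w) ≤ B * sm κ y w := by
  have hp : ((0 : ℂ), t₀) ∈ ball (0 : ℂ × ℂ) 2 := by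
    rw [mem_ball_zero_iff, Prod.norm_def]
    simpa using ht₀
  obtain ⟨C, hC, hev⟩ := TE_local (ch_an χ χ' hp hU) (jac_ne_zero hX χ χ' hp hU) h0
  refine ⟨4 * C ^ 2, by nlinarith, ?_⟩
  have e1 : ∀ᶠ y : ℂ × ℂ in 𝓝 ((0 : ℂ), t₀), ‖y.1‖ < 1 := by
    have h1 : ContinuousAt (fun y : ℂ × ℂ => ‖y.1‖) ((0 : ℂ), t₀) := continuous_fst.norm.continuousAt
    exact h1.eventually (gt_mem_nhds (by simp))
  filter_upwards [hev, e1] with y h1 h2 κ hκ0 hκ w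
  exact sm_change hC hκ0 hκ h1 h2.le w

/-- the axis of a chart in another chart -/
theorem axis_chart (hX : IsCone X) (hT : ∀ x ∈ T, ∀ c : ℂ, c ≠ 0 → c • x ∈ T) (χ χ' : Chart X) {nd nd' : Bool}
    (h : HasType T χ nd) (h' : HasType T χ' nd') {t₀ : ℂ} (ht₀ : ‖t₀‖ < 2) (hnd : nd = true → t₀ ≠ 0)
    (hU : χ.σ (0, t₀) ∈ χ'.U) :
    ∃ b : Bool, (b = true → nd' = true) ∧ (∀ᶠ t in 𝓝 t₀, ((χ'.orient b).q (χ.σ (0, t))).1 = 0) ∧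
      (nd' = true → ((χ'.orient b).q (χ.σ (0, t₀))).2 ≠ 0) := by
  have hp : ((0 : ℂ), t₀) ∈ ball (0 : ℂ × ℂ) 2 := by
    rw [mem_ball_zero_iff, Prod.norm_def]
    simpa using ht₀
  have hτc : ContinuousAt (fun y => χ'.q (χ.σ y)) (0, t₀) := (ch_an χ χ' hp hU).continuousAt
  have hpt : Tendsto (fun t : ℂ => ((0 : ℂ), t)) (𝓝 t₀) (𝓝 ((0 : ℂ), t₀)) := by
    have hc : Continuous fun t : ℂ => ((0 : ℂ), t) := by fun_prop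
    exact hc.tendsto t₀
  have hkey : ∀ᶠ t in 𝓝 t₀, (χ'.q (χ.σ (0, t))).1 = 0 ∨
      (nd' = true ∧ (χ'.q (χ.σ (0, t))).2 = 0) := by
    filter_upwards [hpt.eventually (ch_near χ χ' hp hU)] with t ht
    have hxX := (χ.σ_mem _ ht.1).1
    have hxT : χ.σ (0, t) ∈ T := (h _ ht.1).2 (Or.inl rfl)
    have h3 := (χ'.sigma_mem_iff hxX ht.2 hT).2 hxT
    exact (h' _ (χ'.surj _ hxX ht.2).1).1 h3
  have eF : χ'.orient false = χ' := by simp [Chart.orient]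
  have eT : χ'.orient true = χ'.swap := by simp [Chart.orient]
  by_cases hn : nd' = true
  · by_cases h2 : (χ'.q (χ.σ (0, t₀))).2 = 0
    · have h1 : (χ'.q (χ.σ (0, t₀))).1 ≠ 0 := by
        intro h1
        exact not_node hX hT χ χ' h (hn ▸ h') (t₀ := t₀) ht₀ hnd hU (Prod.ext h1 h2)
      have hne : ∀ᶠ t in 𝓝 t₀, (χ'.q (χ.σ (0, t))).1 ≠ 0 :=
        hpt.eventually (hτc.fst.eventually_ne h1)
      refine ⟨true, fun _ => hn, ?_, fun _ => ?_⟩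
      · rw [eT]
        filter_upwards [hkey, hne] with t ht1 ht2
        rcases ht1 with ht1 | ht1
        · exact absurd ht1 ht2
        · exact ht1.2
      · rw [eT]
        exact h1
    · have hne : ∀ᶠ t in 𝓝 t₀, (χ'.q (χ.σ (0, t))).2 ≠ 0 :=
        hpt.eventually (hτc.snd.eventually_ne h2)
      refine ⟨false, fun h => absurd h (by decide), ?_, fun _ => ?_⟩
      · rw [eF]
        filter_upwards [hkey, hne] with t ht1 ht2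
        rcases ht1 with ht1 | ht1
        · exact ht1
        · exact absurd ht1.2 ht2
      · rw [eF]
        exact h2
  · refine ⟨false, fun h => absurd h (by decide), ?_, fun h => absurd h hn⟩
    rw [eF]
    filter_upwards [hkey] with t ht1
    rcases ht1 with ht1 | ht1
    · exact ht1
    · exact absurd ht1.1 hn

theorem orient_q (b : Bool) (χ : Chart X) (x : EN N) : (χ.orient b).q x = ori b (χ.q x) := by
  cases b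
  · rfl
  · rfl

theorem orient_U (b : Bool) (χ : Chart X) : (χ.orient b).U = χ.U := by
  cases b
  · rfl
  · rfl

theorem norm_ori (b : Bool) (p : ℂ × ℂ) : ‖ori b p‖ = ‖p‖ := by
  cases b
  · simp [ori]
  · simp only [ori, if_true, Prod.norm_def, Prod.fst_swap, Prod.snd_swap]
    exact max_comm _ _

theorem sg_ori {b nd : Bool} (hb : b = true → nd = true) (κ : ℝ) (p w : ℂ × ℂ) : sg nd κ (ori b p) (ori b w) = sg nd κ p w := by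
  cases b
  · rfl
  · have h := hb rfl
    subst h
    rw [sg_true, sg_true]
    exact sn_swap κ p w

theorem fderiv_ori (b : Bool) {f : ℂ × ℂ → ℂ × ℂ} {y : ℂ × ℂ} (hf : DifferentiableAt ℂ f y) (w : ℂ × ℂ) :
    fderiv ℂ (fun y => ori b (f y)) y w = ori b (fderiv ℂ f y w) := by
  cases b
  · rfl
  · have h1 : HasFDerivAt (fun y => ori true (f y))
        (((ContinuousLinearMap.snd ℂ ℂ ℂ).prod (ContinuousLinearMap.fst ℂ ℂ ℂ)).comp (fderiv ℂ f y)) y := by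
      have h2 : HasFDerivAt (fun p : ℂ × ℂ => ori true p)
          ((ContinuousLinearMap.snd ℂ ℂ ℂ).prod (ContinuousLinearMap.fst ℂ ℂ ℂ)) (f y) :=
        ((ContinuousLinearMap.snd ℂ ℂ ℂ).prod (ContinuousLinearMap.fst ℂ ℂ ℂ)).hasFDerivAt
      exact HasFDerivAt.comp (g := fun p : ℂ × ℂ => ori true p) (f := f) y h2 hf.hasFDerivAt
    rw [h1.fderiv]
    rfl

/-- **Comparison at a smooth point of the curve.** -/
theorem cmp_smooth (hX : IsCone X) (hT : ∀ x ∈ T, ∀ c : ℂ, c ≠ 0 → c • x ∈ T) (χ χ' : Chart X) {nd nd' : Bool}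
    (h : HasType T χ nd) (h' : HasType T χ' nd') {t₀ : ℂ} (ht₀ : ‖t₀‖ < 2) (hnd : nd = true → t₀ ≠ 0)
    (hU : χ.σ (0, t₀) ∈ χ'.U) :
    ∃ B : ℝ, 1 ≤ B ∧ ∀ᶠ y in 𝓝 ((0 : ℂ), t₀), ‖χ'.q (χ.σ y)‖ ≤ 1 → ∀ κ : ℝ, 0 ≤ κ → κ ≤ 1 / 4 → ∀ w,
      sm κ y w ≤ B * sg nd' κ (χ'.q (χ.σ y)) (fderiv ℂ (fun y => χ'.q (χ.σ y)) y w) ∧
      sg nd' κ (χ'.q (χ.σ y)) (fderiv ℂ (fun y => χ'.q (χ.σ y)) y w) ≤ B * sm κ y w := by
  have hp : ((0 : ℂ), t₀) ∈ ball (0 : ℂ × ℂ) 2 := by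
    rw [mem_ball_zero_iff, Prod.norm_def]
    simpa using ht₀
  obtain ⟨b, hb, h0, h2⟩ := axis_chart hX hT χ χ' h h' ht₀ hnd hU
  set χ₂ := χ'.orient b with hχ₂
  have hU₂ : χ.σ (0, t₀) ∈ χ₂.U := by rw [hχ₂, orient_U]; exact hU
  have h'₂ : HasType T χ₂ nd' := hasType_orient h' hb
  obtain ⟨B₁, hB₁, hev₁⟩ := sm_chart hX χ χ₂ ht₀ hU₂ h0
  -- the inverse change
  obtain ⟨a1, a2, a3, -⟩ := ch_pt χ χ₂ hp hU₂
  set t₁ : ℂ := (χ₂.q (χ.σ (0, t₀))).2 with ht₁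
  have hp₁ : χ₂.q (χ.σ (0, t₀)) = ((0 : ℂ), t₁) := Prod.ext h0.self_of_nhds rfl
  rw [hp₁] at a1 a2 a3
  have ht₁' : ‖t₁‖ < 2 := by
    rw [mem_ball_zero_iff, Prod.norm_def] at a1
    exact (le_max_right _ _).trans_lt a1
  have h0' : ∀ᶠ t in 𝓝 t₁, (χ.q (χ₂.σ (0, t))).1 = 0 := by
    have hpt : Tendsto (fun t : ℂ => ((0 : ℂ), t)) (𝓝 t₁) (𝓝 ((0 : ℂ), t₁)) := by
      have hc : Continuous fun t : ℂ => ((0 : ℂ), t) := by fun_prop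
      exact hc.tendsto t₁
    have hηc : ContinuousAt (fun y => χ.q (χ₂.σ y)) (0, t₁) := (ch_an χ₂ χ a1 a2).continuousAt
    have hne : ∀ᶠ t in 𝓝 t₁, nd = true → (χ.q (χ₂.σ (0, t))).2 ≠ 0 := by
      by_cases hn : nd = true
      · have h3 : (χ.q (χ₂.σ (0, t₁))).2 ≠ 0 := by
          rw [a3]
          exact hnd hn
        exact (hpt.eventually (hηc.snd.eventually_ne h3)).mono fun t ht _ => ht
      · exact Eventually.of_forall fun t hq => absurd hq hn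
    filter_upwards [hpt.eventually (ch_near χ₂ χ a1 a2), hne] with t ht ht2
    have hxX := (χ₂.σ_mem _ ht.1).1
    have hxT : χ₂.σ (0, t) ∈ T := (h'₂ _ ht.1).2 (Or.inl rfl)
    have h3 := (χ.sigma_mem_iff hxX ht.2 hT).2 hxT
    rcases (h _ (χ.surj _ hxX ht.2).1).1 h3 with h4 | h4
    · exact h4
    · exact absurd h4.2 (ht2 h4.1)
  obtain ⟨B₂, hB₂, hev₂⟩ := sm_chart hX χ₂ χ ht₁' a2 h0'
  have hτc : ContinuousAt (fun y => χ₂.q (χ.σ y)) ((0 : ℂ), t₀) := (ch_an χ χ₂ hp hU₂).continuousAt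
  have hev₂' : ∀ᶠ y in 𝓝 ((0 : ℂ), t₀), ∀ κ : ℝ, 0 ≤ κ → κ ≤ 1 / 4 → ∀ w,
      sm κ (χ.q (χ₂.σ (χ₂.q (χ.σ y)))) (fderiv ℂ (fun y => χ.q (χ₂.σ y)) (χ₂.q (χ.σ y)) w) ≤ B₂ * sm κ (χ₂.q (χ.σ y)) w := by
    have h3 : Tendsto (fun y => χ₂.q (χ.σ y)) (𝓝 ((0 : ℂ), t₀)) (𝓝 ((0 : ℂ), t₁)) := by
      have := hτc.tendsto
      rwa [hp₁] at this
    exact h3.eventually hev₂
  -- the lower bound of the second coordinate
  obtain ⟨β, hβ0, hβ1, hβ⟩ : ∃ β : ℝ, 0 < β ∧ β ≤ 1 ∧ ∀ᶠ y in 𝓝 ((0 : ℂ), t₀), nd' = true → β ≤ ‖(χ₂.q (χ.σ y)).2‖ := by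
    by_cases hn : nd' = true
    · have h3 : 0 < ‖t₁‖ := norm_pos_iff.2 (h2 hn)
      refine ⟨min 1 (‖t₁‖ / 2), lt_min one_pos (by linarith), min_le_left _ _, ?_⟩
      have h4 : ∀ᶠ y in 𝓝 ((0 : ℂ), t₀), ‖t₁‖ / 2 < ‖(χ₂.q (χ.σ y)).2‖ :=
        hτc.snd.norm.eventually (lt_mem_nhds (by
          show ‖t₁‖ / 2 < ‖(χ₂.q (χ.σ (0, t₀))).2‖
          rw [← ht₁]
          linarith))
      exact h4.mono fun y hy _ => (min_le_right _ _).trans hy.le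
    · exact ⟨1, one_pos, le_rfl, Eventually.of_forall fun y hy => absurd hy hn⟩
  refine ⟨max (B₂ / β) B₁, le_max_of_le_right hB₁, ?_⟩
  filter_upwards [hev₁, hev₂', hβ, ch_near χ χ₂ hp hU₂] with y e1 e2 e3 e4 hy1 κ hκ0 hκ w
  obtain ⟨b1, b2, b3, -⟩ := ch_pt χ χ₂ e4.1 e4.2
  have f1 := e1 κ hκ0 hκ w
  have f2 := e2 κ hκ0 hκ (fderiv ℂ (fun y => χ₂.q (χ.σ y)) y w)
  rw [b3, ch_inv χ χ₂ e4.1 e4.2] at f2
  have g1 : (fun y => χ₂.q (χ.σ y)) = fun y => ori b (χ'.q (χ.σ y)) := by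
    funext y
    rw [hχ₂, orient_q]
  have hU' : χ.σ y ∈ χ'.U := by
    have := e4.2
    rwa [hχ₂, orient_U] at this
  have g2 : fderiv ℂ (fun y => χ₂.q (χ.σ y)) y w = ori b (fderiv ℂ (fun y => χ'.q (χ.σ y)) y w) := by
    rw [g1]
    exact fderiv_ori b (ch_an χ χ' e4.1 hU').differentiableAt w
  have g3 : χ₂.q (χ.σ y) = ori b (χ'.q (χ.σ y)) := by rw [hχ₂, orient_q]
  have hn1 : ‖(χ₂.q (χ.σ y)).2‖ ≤ 1 := (norm_snd_le _).trans (by rw [g3, norm_ori]; exact hy1)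
  obtain ⟨g4, g5⟩ := sg_sm (w := fderiv ℂ (fun y => χ₂.q (χ.σ y)) y w) hκ0 hκ hn1 hβ0 hβ1 e3
  rw [g3, g2, sg_ori hb] at g4 g5
  rw [g3, g2] at f1 f2
  have s0 := sm_nonneg κ y w
  have s1 := sg_nonneg nd' κ (χ'.q (χ.σ y)) (fderiv ℂ (fun y => χ'.q (χ.σ y)) y w)
  constructor
  · calc sm κ y w ≤ B₂ * sm κ (ori b (χ'.q (χ.σ y))) (ori b (fderiv ℂ (fun y => χ'.q (χ.σ y)) y w)) := f2
      _ = B₂ / β * (β * sm κ (ori b (χ'.q (χ.σ y))) (ori b (fderiv ℂ (fun y => χ'.q (χ.σ y)) y w))) := by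
          field_simp
      _ ≤ B₂ / β * sg nd' κ (χ'.q (χ.σ y)) (fderiv ℂ (fun y => χ'.q (χ.σ y)) y w) :=
          mul_le_mul_of_nonneg_left g4 (by positivity)
      _ ≤ _ := mul_le_mul_of_nonneg_right (le_max_left _ _) s1
  · exact (g5.trans f1).trans (mul_le_mul_of_nonneg_right (le_max_right _ _) s0)

end Pool.Agent.H36.TB
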