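import Pool.Agent.H36.TB.CmpCh

/-!
# TB CmpNo: comparison of the model metrics of two charts at a node
-/

set_option autoImplicit false

open Topology Filter Metric

namespace Pool.Agent.H36.TB

open Pool.Agent.H36.BP
open Pool.Agent.H14.PP

variable {N : ℕ} {X K T : Set (EN N)} {m j : ℕ}

private theorem CmpNo_zero_mem : (0 : ℂ × ℂ) ∈ ball (0 : ℂ × ℂ) 2 := mem_ball_self (by norm_num)

/-- a node is a node in every chart -/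
theorem node_chart (hX : IsCone X) (hT : ∀ x ∈ T, ∀ c : ℂ, c ≠ 0 → c • x ∈ T) (χ χ' : Chart X) {nd' : Bool}
    (h : HasType T χ true) (h' : HasType T χ' nd') (hU : χ.σ 0 ∈ χ'.U) : nd' = true ∧ χ'.q (χ.σ 0) = 0 := by
  obtain ⟨a1, a2, a3, c, hc, a4⟩ := ch_pt χ χ' CmpNo_zero_mem hU
  have hT0 : χ.σ 0 ∈ T := (h 0 CmpNo_zero_mem).2 (Or.inl rfl)
  have hT1 : χ'.σ (χ'.q (χ.σ 0)) ∈ T := by
    rw [a4]
    exact hT _ hT0 c hc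
  set p' := χ'.q (χ.σ 0) with hp'
  -- it is enough to show that the point is a node
  by_contra hcon
  have hall : ∃ b : Bool, (b = true → nd' = true) ∧ (ori b p').1 = 0 ∧ (nd' = true → (ori b p').2 ≠ 0) := by
    rcases (h' _ a1).1 hT1 with h1 | h1
    · refine ⟨false, fun h => absurd h (by decide), h1, fun hn => ?_⟩
      intro h2
      exact hcon ⟨hn, Prod.ext h1 h2⟩
    · refine ⟨true, fun _ => h1.1, h1.2, fun hn => ?_⟩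
      intro h2
      exact hcon ⟨hn, Prod.ext h2 h1.2⟩
  obtain ⟨b, hb, h1, h2⟩ := hall
  set χ₂ := χ'.orient b with hχ₂
  have h'₂ : HasType T χ₂ nd' := hasType_orient h' hb
  set t₁ : ℂ := (ori b p').2 with ht₁
  have hp₁ : ori b p' = ((0 : ℂ), t₁) := Prod.ext h1 rfl
  have hσ : χ₂.σ (0, t₁) = χ'.σ p' := by
    rw [← hp₁, hχ₂]
    cases b
    · rfl
    · show χ'.σ (ori true p').swap = χ'.σ p'
      rfl
  have ht₁' : ‖t₁‖ < 2 := by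
    have h3 : ‖ori b p'‖ < 2 := by
      rw [norm_ori]
      exact mem_ball_zero_iff.1 a1
    rw [hp₁, Prod.norm_def] at h3
    exact (le_max_right _ _).trans_lt h3
  refine not_node hX hT χ₂ χ h'₂ h ht₁' h2 (by rw [hσ]; exact a2) ?_
  rw [hσ]
  exact a3

private theorem CmpNo_TE {τ : ℂ × ℂ → ℂ × ℂ} (hτ : AnalyticAt ℂ τ 0) (hJ : jac τ 0 ≠ 0)
    (h1 : ∀ᶠ t in 𝓝 (0 : ℂ), (τ (0, t)).1 = 0) :
    ∃ C : ℝ, 1 ≤ C ∧ ∀ᶠ p in 𝓝 (0 : ℂ × ℂ), ‖(τ p).1‖ ≤ 2 * C * ‖p.1‖ ∧ ‖(fderiv ℂ τ p (1, 0)).1‖ ≤ C ∧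
      ‖(fderiv ℂ τ p (0, 1)).1‖ ≤ C * ‖p.1‖ ∧ ‖(fderiv ℂ τ p (0, 1)).2‖ ≤ C := by
  obtain ⟨C, hC, hev⟩ := TE_local (t₀ := 0) hτ hJ h1
  refine ⟨C, hC, ?_⟩
  have e1 : ∀ᶠ y : ℂ × ℂ in 𝓝 ((0 : ℂ × ℂ)), ‖y.1‖ < 1 := by
    have h1 : ContinuousAt (fun y : ℂ × ℂ => ‖y.1‖) (0 : ℂ × ℂ) := continuous_fst.norm.continuousAt
    exact h1.eventually (gt_mem_nhds (by simp))
  have hev' : ∀ᶠ p in 𝓝 (0 : ℂ × ℂ), TEmap C τ p := hev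
  filter_upwards [hev', e1] with p h h2
  obtain ⟨a1, a2, a3, a4, a5, a6, a7⟩ := h
  have hs0 := norm_nonneg p.1
  refine ⟨?_, a5, a1, a7⟩
  have h8 := (abs_le.1 a3).2
  have h9 : ‖(fderiv ℂ τ p (1, 0)).1‖ * ‖p.1‖ ≤ C * ‖p.1‖ := mul_le_mul_of_nonneg_right a5 hs0
  have h10 : C * ‖p.1‖ ^ 2 ≤ C * ‖p.1‖ := by
    have : ‖p.1‖ ^ 2 ≤ ‖p.1‖ := by nlinarith
    exact mul_le_mul_of_nonneg_left this (by linarith)
  linarith

private theorem CmpNo_fderiv_swap {τ : ℂ × ℂ → ℂ × ℂ} {p : ℂ × ℂ} (hτ : DifferentiableAt ℂ τ p.swap) (w : ℂ × ℂ) :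
    fderiv ℂ (fun y : ℂ × ℂ => (τ y.swap).swap) p w = (fderiv ℂ τ p.swap w.swap).swap := by
  let S : (ℂ × ℂ) →L[ℂ] (ℂ × ℂ) := (ContinuousLinearMap.snd ℂ ℂ ℂ).prod (ContinuousLinearMap.fst ℂ ℂ ℂ)
  have hS : ∀ y : ℂ × ℂ, S y = y.swap := fun y => rfl
  have h1 : HasFDerivAt (fun y : ℂ × ℂ => S (τ (S y))) (S.comp ((fderiv ℂ τ (S p)).comp S)) p := by
    have h2 : HasFDerivAt (fun y : ℂ × ℂ => τ (S y)) ((fderiv ℂ τ (S p)).comp S) p :=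
      HasFDerivAt.comp (g := τ) (f := fun y : ℂ × ℂ => S y) p hτ.hasFDerivAt S.hasFDerivAt
    exact HasFDerivAt.comp (g := fun y => S y) (f := fun y : ℂ × ℂ => τ (S y)) p S.hasFDerivAt h2
  have h3 : fderiv ℂ (fun y : ℂ × ℂ => (τ y.swap).swap) p = S.comp ((fderiv ℂ τ (S p)).comp S) := h1.fderiv
  rw [h3]
  rfl

/-- one direction, at a node, for the charts where the axes correspond -/
private theorem CmpNo_one {τ : ℂ × ℂ → ℂ × ℂ} (hτ : AnalyticAt ℂ τ 0) (hJ : jac τ 0 ≠ 0)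
    (h1 : ∀ᶠ t in 𝓝 (0 : ℂ), (τ (0, t)).1 = 0) (h2 : ∀ᶠ s in 𝓝 (0 : ℂ), (τ (s, 0)).2 = 0) :
    ∃ B : ℝ, 1 ≤ B ∧ ∀ᶠ y in 𝓝 (0 : ℂ × ℂ), ∀ κ : ℝ, 0 ≤ κ → κ ≤ 1 / 4 → ∀ w,
      sn κ (τ y) (fderiv ℂ τ y w) ≤ B * sn κ y w := by
  obtain ⟨C₁, hC₁, hev₁⟩ := CmpNo_TE hτ hJ h1
  -- the exchanged map
  set τ' : ℂ × ℂ → ℂ × ℂ := fun y => (τ y.swap).swap with hτ'
  have hsw : AnalyticAt ℂ (fun p : ℂ × ℂ => p.swap) 0 := by
    have : (fun p : ℂ × ℂ => p.swap) = fun p => (p.2, p.1) := rfl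
    rw [this]
    exact AnalyticAt.prod analyticAt_snd analyticAt_fst
  have hsw' : ∀ q : ℂ × ℂ, AnalyticAt ℂ (fun p : ℂ × ℂ => p.swap) q := fun q => by
    have : (fun p : ℂ × ℂ => p.swap) = fun p => (p.2, p.1) := rfl
    rw [this]
    exact AnalyticAt.prod analyticAt_snd analyticAt_fst
  have hτ'a : AnalyticAt ℂ τ' 0 := by
    have h3 : AnalyticAt ℂ (fun y : ℂ × ℂ => τ y.swap) 0 :=
      AnalyticAt.comp (g := τ) (f := fun p : ℂ × ℂ => p.swap) (by exact hτ) hsw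
    exact AnalyticAt.comp (g := fun p : ℂ × ℂ => p.swap) (f := fun y : ℂ × ℂ => τ y.swap) (hsw' _) h3
  have hJ' : jac τ' 0 ≠ 0 := by
    have e : ∀ w : ℂ × ℂ, fderiv ℂ τ' 0 w = (fderiv ℂ τ 0 w.swap).swap := fun w => CmpNo_fderiv_swap (p := 0) hτ.differentiableAt w
    unfold jac
    rw [e, e]
    show (fderiv ℂ τ 0 (0, 1)).2 * (fderiv ℂ τ 0 (1, 0)).1 - (fderiv ℂ τ 0 (1, 0)).2 * (fderiv ℂ τ 0 (0, 1)).1 ≠ 0
    unfold jac at hJ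
    intro h0
    apply hJ
    linear_combination h0
  obtain ⟨C₂, hC₂, hev₂⟩ := CmpNo_TE hτ'a hJ' h2
  have hev₂' : ∀ᶠ p in 𝓝 (0 : ℂ × ℂ), ‖(τ' p.swap).1‖ ≤ 2 * C₂ * ‖p.swap.1‖ ∧ ‖(fderiv ℂ τ' p.swap (1, 0)).1‖ ≤ C₂ ∧
      ‖(fderiv ℂ τ' p.swap (0, 1)).1‖ ≤ C₂ * ‖p.swap.1‖ ∧ ‖(fderiv ℂ τ' p.swap (0, 1)).2‖ ≤ C₂ := by
    have h3 : Tendsto (fun p : ℂ × ℂ => p.swap) (𝓝 0) (𝓝 0) := hsw.continuousAt.tendsto
    exact h3.eventually hev₂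
  have hdiff : ∀ᶠ p in 𝓝 (0 : ℂ × ℂ), DifferentiableAt ℂ τ p := hτ.eventually_analyticAt.mono fun p hp => hp.differentiableAt
  have hb : ∀ᶠ p in 𝓝 (0 : ℂ × ℂ), ‖p‖ < 1 := by
    have h3 : ContinuousAt (fun y : ℂ × ℂ => ‖y‖) (0 : ℂ × ℂ) := continuous_norm.continuousAt
    exact h3.eventually (gt_mem_nhds (by simp))
  set C : ℝ := 2 * max C₁ C₂ with hC
  have hm1 : C₁ ≤ max C₁ C₂ := le_max_left _ _
  have hm2 : C₂ ≤ max C₁ C₂ := le_max_right _ _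
  have hC1 : 1 ≤ C := by linarith
  refine ⟨2 * C ^ 2, by nlinarith, ?_⟩
  filter_upwards [hev₁, hev₂', hdiff, hb] with p a b hd hp κ hκ0 hκ w
  obtain ⟨a1, a2, a3, a4⟩ := a
  obtain ⟨b1, b2, b3, b4⟩ := b
  have e : ∀ w : ℂ × ℂ, fderiv ℂ τ' p.swap w = (fderiv ℂ τ p w.swap).swap := fun w => by
    have h3 := CmpNo_fderiv_swap (τ := τ) (p := p.swap) (by rw [Prod.swap_swap]; exact hd) w
    rw [Prod.swap_swap] at h3
    exact h3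
  rw [e] at b2 b3 b4
  have hp1 : ‖p.1‖ ≤ 1 := (norm_fst_le p).trans hp.le
  have hp2 : ‖p.2‖ ≤ 1 := (norm_snd_le p).trans hp.le
  have n1 := norm_nonneg p.1
  have n2 := norm_nonneg p.2
  refine sn_change hC1 hκ0 hκ hp1 hp2 ?_ ?_ ?_ ?_ ?_ ?_ w
  · refine a1.trans (mul_le_mul_of_nonneg_right ?_ n1)
    linarith
  · have b1' : ‖(τ p).2‖ ≤ 2 * C₂ * ‖p.2‖ := by
      have h4 : (τ' p.swap).1 = (τ p).2 := by
        show (τ p.swap.swap).swap.1 = _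
        rw [Prod.swap_swap]
        rfl
      rw [h4] at b1
      exact b1
    refine b1'.trans (mul_le_mul_of_nonneg_right ?_ n2)
    linarith
  · linarith
  · linarith
  · refine a3.trans (mul_le_mul_of_nonneg_right ?_ n1)
    linarith
  · have b3' : ‖(fderiv ℂ τ p (1, 0)).2‖ ≤ C₂ * ‖p.2‖ := b3
    refine b3'.trans (mul_le_mul_of_nonneg_right ?_ n2)
    linarith

/-- the axes correspond after an exchange of the coordinates -/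
private theorem CmpNo_axes {τ : ℂ × ℂ → ℂ × ℂ} (hτ : AnalyticAt ℂ τ 0) (hJ : jac τ 0 ≠ 0)
    (hax : ∀ᶠ p in 𝓝 (0 : ℂ × ℂ), (p.1 = 0 ∨ p.2 = 0) → ((τ p).1 = 0 ∨ (τ p).2 = 0)) :
    ∃ b : Bool, (∀ᶠ t in 𝓝 (0 : ℂ), (ori b (τ (0, t))).1 = 0) ∧ ∀ᶠ s in 𝓝 (0 : ℂ), (ori b (τ (s, 0))).2 = 0 := by
  have hv : Tendsto (fun t : ℂ => ((0 : ℂ), t)) (𝓝 0) (𝓝 (0 : ℂ × ℂ)) := by
    have hc : Continuous fun t : ℂ => ((0 : ℂ), t) := by fun_prop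
    exact hc.tendsto 0
  have hh : Tendsto (fun s : ℂ => (s, (0 : ℂ))) (𝓝 0) (𝓝 (0 : ℂ × ℂ)) := by
    have hc : Continuous fun s : ℂ => (s, (0 : ℂ)) := by fun_prop
    exact hc.tendsto 0
  have av : AnalyticAt ℂ (fun t : ℂ => τ (0, t)) 0 :=
    AnalyticAt.comp (g := τ) (f := fun t : ℂ => ((0 : ℂ), t)) (by exact hτ) (analyticAt_const.prod analyticAt_id)
  have ah : AnalyticAt ℂ (fun s : ℂ => τ (s, 0)) 0 :=
    AnalyticAt.comp (g := τ) (f := fun s : ℂ => (s, (0 : ℂ))) (by exact hτ) (analyticAt_id.prod analyticAt_const)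
  have av1 : AnalyticAt ℂ (fun t : ℂ => (τ (0, t)).1) 0 :=
    AnalyticAt.comp (g := fun x : ℂ × ℂ => x.1) (f := fun t : ℂ => τ (0, t)) analyticAt_fst av
  have av2 : AnalyticAt ℂ (fun t : ℂ => (τ (0, t)).2) 0 :=
    AnalyticAt.comp (g := fun x : ℂ × ℂ => x.2) (f := fun t : ℂ => τ (0, t)) analyticAt_snd av
  have ah1 : AnalyticAt ℂ (fun s : ℂ => (τ (s, 0)).1) 0 :=
    AnalyticAt.comp (g := fun x : ℂ × ℂ => x.1) (f := fun s : ℂ => τ (s, 0)) analyticAt_fst ah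
  have ah2 : AnalyticAt ℂ (fun s : ℂ => (τ (s, 0)).2) 0 :=
    AnalyticAt.comp (g := fun x : ℂ × ℂ => x.2) (f := fun s : ℂ => τ (s, 0)) analyticAt_snd ah
  have hbot : ¬ ∀ᶠ t in 𝓝[≠] (0 : ℂ), False := by
    intro h
    rw [eventually_false_iff_eq_bot] at h
    exact (inferInstance : (𝓝[≠] (0 : ℂ)).NeBot).ne h
  have hv12 : (∀ᶠ t in 𝓝 (0 : ℂ), (τ (0, t)).1 = 0) ∨ ∀ᶠ t in 𝓝 (0 : ℂ), (τ (0, t)).2 = 0 := by
    rcases av1.eventually_eq_zero_or_eventually_ne_zero with h1 | h1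
    · exact Or.inl h1
    rcases av2.eventually_eq_zero_or_eventually_ne_zero with h2 | h2
    · exact Or.inr h2
    exfalso
    refine hbot ?_
    filter_upwards [h1, h2, (hv.eventually hax).filter_mono nhdsWithin_le_nhds] with t b1 b2 b3
    rcases b3 (Or.inl rfl) with b4 | b4
    · exact b1 b4
    · exact b2 b4
  have hh12 : (∀ᶠ s in 𝓝 (0 : ℂ), (τ (s, 0)).1 = 0) ∨ ∀ᶠ s in 𝓝 (0 : ℂ), (τ (s, 0)).2 = 0 := by
    rcases ah1.eventually_eq_zero_or_eventually_ne_zero with h1 | h1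
    · exact Or.inl h1
    rcases ah2.eventually_eq_zero_or_eventually_ne_zero with h2 | h2
    · exact Or.inr h2
    exfalso
    refine hbot ?_
    filter_upwards [h1, h2, (hh.eventually hax).filter_mono nhdsWithin_le_nhds] with t b1 b2 b3
    rcases b3 (Or.inr rfl) with b4 | b4
    · exact b1 b4
    · exact b2 b4
  -- the derivatives along the axes
  have dv : HasDerivAt (fun t : ℂ => τ (0, t)) (fderiv ℂ τ 0 (0, 1)) 0 := by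
    have h1 : HasDerivAt (fun t : ℂ => ((0 : ℂ), t)) ((0 : ℂ), (1 : ℂ)) 0 := (hasDerivAt_const _ _).prodMk (hasDerivAt_id _)
    have h2 : HasFDerivAt τ (fderiv ℂ τ 0) ((fun t : ℂ => ((0 : ℂ), t)) 0) := hτ.differentiableAt.hasFDerivAt
    exact h2.comp_hasDerivAt 0 h1
  have dh : HasDerivAt (fun s : ℂ => τ (s, 0)) (fderiv ℂ τ 0 (1, 0)) 0 := by
    have h1 : HasDerivAt (fun s : ℂ => (s, (0 : ℂ))) ((1 : ℂ), (0 : ℂ)) 0 := (hasDerivAt_id _).prodMk (hasDerivAt_const _ _)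
    have h2 : HasFDerivAt τ (fderiv ℂ τ 0) ((fun s : ℂ => (s, (0 : ℂ))) 0) := hτ.differentiableAt.hasFDerivAt
    exact HasFDerivAt.comp_hasDerivAt (f := fun s : ℂ => (s, (0 : ℂ))) (0 : ℂ) h2 h1
  have zero_of : ∀ {f : ℂ → ℂ × ℂ} {d : ℂ × ℂ}, HasDerivAt f d 0 → ((∀ᶠ t in 𝓝 (0 : ℂ), (f t).1 = 0) → d.1 = 0) ∧
      ((∀ᶠ t in 𝓝 (0 : ℂ), (f t).2 = 0) → d.2 = 0) := by
    intro f d hd
    have d1 : HasDerivAt (fun t => (f t).1) d.1 0 := by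
      have := (ContinuousLinearMap.fst ℂ ℂ ℂ).hasFDerivAt.comp_hasDerivAt (0 : ℂ) hd
      exact this
    have d2 : HasDerivAt (fun t => (f t).2) d.2 0 := by
      have := (ContinuousLinearMap.snd ℂ ℂ ℂ).hasFDerivAt.comp_hasDerivAt (0 : ℂ) hd
      exact this
    constructor
    · intro h
      exact d1.unique ((hasDerivAt_const (0 : ℂ) (0 : ℂ)).congr_of_eventuallyEq h)
    · intro h
      exact d2.unique ((hasDerivAt_const (0 : ℂ) (0 : ℂ)).congr_of_eventuallyEq h)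
  rcases hv12 with h1 | h1
  · rcases hh12 with h2 | h2
    · exfalso
      apply hJ
      unfold jac
      rw [(zero_of dv).1 h1, (zero_of dh).1 h2]
      ring
    · exact ⟨false, h1, h2⟩
  · rcases hh12 with h2 | h2
    · exact ⟨true, h1, h2⟩
    · exfalso
      apply hJ
      unfold jac
      rw [(zero_of dv).2 h1, (zero_of dh).2 h2]
      ring

/-- one direction, at a node -/
theorem sn_chart (hX : IsCone X) (hT : ∀ x ∈ T, ∀ c : ℂ, c ≠ 0 → c • x ∈ T) (χ χ' : Chart X)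
    (h : HasType T χ true) (h' : HasType T χ' true) (hU : χ.σ 0 ∈ χ'.U) (h0 : χ'.q (χ.σ 0) = 0) :
    ∃ B : ℝ, 1 ≤ B ∧ ∀ᶠ y in 𝓝 (0 : ℂ × ℂ), ∀ κ : ℝ, 0 ≤ κ → κ ≤ 1 / 4 → ∀ w,
      sn κ (χ'.q (χ.σ y)) (fderiv ℂ (fun y => χ'.q (χ.σ y)) y w) ≤ B * sn κ y w := by
  have hτa := ch_an χ χ' CmpNo_zero_mem hU
  have hJ := jac_ne_zero hX χ χ' CmpNo_zero_mem hU
  have hax : ∀ᶠ p in 𝓝 (0 : ℂ × ℂ), (p.1 = 0 ∨ p.2 = 0) → ((χ'.q (χ.σ p)).1 = 0 ∨ (χ'.q (χ.σ p)).2 = 0) := by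
    filter_upwards [ch_near χ χ' CmpNo_zero_mem hU] with p hp hp2
    obtain ⟨b1, b2, b3, c, hc, b4⟩ := ch_pt χ χ' hp.1 hp.2
    have b5 : χ.σ p ∈ T := (h _ hp.1).2 (by
      rcases hp2 with h3 | h3
      · exact Or.inl h3
      · exact Or.inr ⟨rfl, h3⟩)
    have b6 : χ'.σ (χ'.q (χ.σ p)) ∈ T := by
      rw [b4]
      exact hT _ b5 c hc
    rcases (h' _ b1).1 b6 with b7 | b7
    · exact Or.inl b7
    · exact Or.inr b7.2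
  have _ := h0
  obtain ⟨b, e1, e2⟩ := CmpNo_axes hτa hJ hax
  set τ₂ : ℂ × ℂ → ℂ × ℂ := fun y => (χ'.orient b).q (χ.σ y) with hτ₂
  have hτ₂e : τ₂ = fun y => ori b (χ'.q (χ.σ y)) := by
    funext y
    rw [hτ₂]
    exact orient_q b χ' _
  have hU₂ : χ.σ 0 ∈ (χ'.orient b).U := by rw [orient_U]; exact hU
  obtain ⟨B, hB, hev⟩ := CmpNo_one (τ := τ₂) (ch_an χ (χ'.orient b) CmpNo_zero_mem hU₂)
    (jac_ne_zero hX χ (χ'.orient b) CmpNo_zero_mem hU₂) (by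
      rw [hτ₂e]
      exact e1) (by
      rw [hτ₂e]
      exact e2)
  refine ⟨B, hB, ?_⟩
  filter_upwards [hev, ch_near χ χ' CmpNo_zero_mem hU] with y h1 h2 κ hκ0 hκ w
  have h3 := h1 κ hκ0 hκ w
  have h4 : fderiv ℂ τ₂ y w = ori b (fderiv ℂ (fun y => χ'.q (χ.σ y)) y w) := by
    rw [hτ₂e]
    exact fderiv_ori b (ch_an χ χ' h2.1 h2.2).differentiableAt w
  rw [h4, hτ₂e, ← sg_true, ← sg_true, sg_ori (fun _ => rfl)] at h3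
  rwa [sg_true, sg_true] at h3

/-- **Comparison at a node of the curve.** -/
theorem cmp_node (hX : IsCone X) (hT : ∀ x ∈ T, ∀ c : ℂ, c ≠ 0 → c • x ∈ T) (χ χ' : Chart X) {nd' : Bool}
    (h : HasType T χ true) (h' : HasType T χ' nd') (hU : χ.σ 0 ∈ χ'.U) :
    ∃ B : ℝ, 1 ≤ B ∧ ∀ᶠ y in 𝓝 (0 : ℂ × ℂ), ∀ κ : ℝ, 0 ≤ κ → κ ≤ 1 / 4 → ∀ w,
      sn κ y w ≤ B * sg nd' κ (χ'.q (χ.σ y)) (fderiv ℂ (fun y => χ'.q (χ.σ y)) y w) ∧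
      sg nd' κ (χ'.q (χ.σ y)) (fderiv ℂ (fun y => χ'.q (χ.σ y)) y w) ≤ B * sn κ y w := by
  obtain ⟨hn, h0⟩ := node_chart hX hT χ χ' h h' hU
  subst hn
  obtain ⟨a1, a2, a3, -⟩ := ch_pt χ χ' CmpNo_zero_mem hU
  rw [h0] at a1 a2 a3
  obtain ⟨B₁, hB₁, hev₁⟩ := sn_chart hX hT χ χ' h h' hU h0
  obtain ⟨B₂, hB₂, hev₂⟩ := sn_chart hX hT χ' χ h' h a2 a3
  have hτc : Tendsto (fun y => χ'.q (χ.σ y)) (𝓝 (0 : ℂ × ℂ)) (𝓝 0) := by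
    have := (ch_an χ χ' CmpNo_zero_mem hU).continuousAt.tendsto
    rwa [h0] at this
  refine ⟨max B₂ B₁, le_max_of_le_right hB₁, ?_⟩
  filter_upwards [hev₁, hτc.eventually hev₂, ch_near χ χ' CmpNo_zero_mem hU] with y e1 e2 e4 κ hκ0 hκ w
  obtain ⟨b1, b2, b3, -⟩ := ch_pt χ χ' e4.1 e4.2
  have f1 := e1 κ hκ0 hκ w
  have f2 := e2 κ hκ0 hκ (fderiv ℂ (fun y => χ'.q (χ.σ y)) y w)
  rw [b3, ch_inv χ χ' e4.1 e4.2] at f2
  rw [sg_true]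
  have s0 := sn_nonneg κ y w
  have s1 := sn_nonneg κ (χ'.q (χ.σ y)) (fderiv ℂ (fun y => χ'.q (χ.σ y)) y w)
  exact ⟨f2.trans (mul_le_mul_of_nonneg_right (le_max_left _ _) s1), f1.trans (mul_le_mul_of_nonneg_right (le_max_right _ _) s0)⟩

end Pool.Agent.H36.TB
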