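import Pool.Agent.H36.TB.Defs
import Pool.Agent.H17BP.Conv

/-!
# TB Co: transformation of the coefficient of the form

If `ψ p = c p • σ (χ p)` then `c p ^ j * oC Ω ψ p = (det χ') ^ m * oC Ω σ (χ p)`.
-/

set_option autoImplicit false

open Topology Filter Metric

noncomputable section

namespace Pool.Agent.H36.TB

open Pool.Agent.H17BP (Pr Surface IsForm NoZeros Eqs IsChart Tan chart_iff surface_iff isForm_iff)
open Pool.Agent.H62.BU (blow total Ker phi om)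

variable {V : Type} [NormedAddCommGroup V] [NormedSpace ℂ V]

theorem co_pair (L : (ℂ × ℂ) →L[ℂ] V) (w : ℂ × ℂ) : L w = w.1 • L (1, 0) + w.2 • L (0, 1) := by
  rw [← map_smul, ← map_smul, ← map_add]
  congr 1
  ext
  · simp
  · simp

theorem tan_fd {X : Set V} {φ : ℂ × ℂ → V} {p : ℂ × ℂ} (hφ : AnalyticAt ℂ φ p) (h : ∀ᶠ y in 𝓝 p, φ y ∈ X) (w : ℂ × ℂ) :
    fderiv ℂ φ p w ∈ Tan X (φ p) := H62.BU.tan_fderiv hφ h w

theorem tan_sm {X : Set V} (hX : ∀ x ∈ X, ∀ c : ℂ, c ≠ 0 → c • x ∈ X) {x v : V} (hv : v ∈ Tan X x) {c : ℂ} (hc : c ≠ 0) :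
    c • v ∈ Tan X (c • x) := by
  obtain ⟨γ, hγ, hmem, h0, hd⟩ := hv
  refine ⟨fun z => c • γ z, analyticAt_const.smul hγ, ?_, by show c • γ 0 = c • x; rw [h0], ?_⟩
  · filter_upwards [hmem] with z hz
    exact hX _ hz c hc
  · have h1 : HasDerivAt γ v 0 := by
      rw [← hd]; exact hγ.differentiableAt.hasDerivAt
    exact (h1.const_smul c).deriv

/-- the Jacobian -/
def jc (χ : ℂ × ℂ → ℂ × ℂ) (p : ℂ × ℂ) : ℂ :=
  (fderiv ℂ χ p (1, 0)).1 * (fderiv ℂ χ p (0, 1)).2 - (fderiv ℂ χ p (1, 0)).2 * (fderiv ℂ χ p (0, 1)).1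

theorem jc_cont {χ : ℂ × ℂ → ℂ × ℂ} {p : ℂ × ℂ} (hχ : AnalyticAt ℂ χ p) : ContinuousAt (jc χ) p := by
  have h1 : ContinuousAt (fderiv ℂ χ) p := hχ.fderiv.continuousAt
  have h2 : ∀ w, ContinuousAt (fun y => fderiv ℂ χ y w) p := fun w => h1.clm_apply continuousAt_const
  exact ((h2 _).fst.mul (h2 _).snd).sub ((h2 _).snd.mul (h2 _).fst)

/-- transformation of the coefficient -/
theorem oC_comp {X : Set V} (hX : ∀ x ∈ X, ∀ c : ℂ, c ≠ 0 → c • x ∈ X) {m j : ℕ} {Ω : V → V → V → ℂ} (hΩ : IsForm X m j Ω)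
    {σ ψ : ℂ × ℂ → V} {c : ℂ × ℂ → ℂ} {χ : ℂ × ℂ → ℂ × ℂ} {p : ℂ × ℂ} (hc : AnalyticAt ℂ c p) (hχ : AnalyticAt ℂ χ p)
    (hσ : AnalyticAt ℂ σ (χ p)) (hσX : ∀ᶠ y in 𝓝 (χ p), σ y ∈ X) (h0 : c p ≠ 0) (h : ∀ᶠ y in 𝓝 p, ψ y = c y • σ (χ y)) :
    c p ^ j * oC Ω ψ p = jc χ p ^ m * oC Ω σ (χ p) := by
  have hD : ∀ w, fderiv ℂ ψ p w = c p • fderiv ℂ σ (χ p) (fderiv ℂ χ p w) + (fderiv ℂ c p w) • σ (χ p) := by
    intro w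
    have hD1 : HasFDerivAt (fun y => σ (χ y)) ((fderiv ℂ σ (χ p)).comp (fderiv ℂ χ p)) p :=
      HasFDerivAt.comp (g := σ) (f := χ) p hσ.differentiableAt.hasFDerivAt hχ.differentiableAt.hasFDerivAt
    have hD2 : HasFDerivAt (fun y => c y • σ (χ y))
        (c p • ((fderiv ℂ σ (χ p)).comp (fderiv ℂ χ p)) + (fderiv ℂ c p).smulRight (σ (χ p))) p :=
      hc.differentiableAt.hasFDerivAt.smul hD1
    have hD3 := hD2.congr_of_eventuallyEq h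
    rw [hD3.fderiv]
    rfl
  have hx : σ (χ p) ∈ X := hσX.self_of_nhds
  set x : V := σ (χ p) with hxd
  set A : ℂ × ℂ := fderiv ℂ χ p (1, 0) with hA
  set B : ℂ × ℂ := fderiv ℂ χ p (0, 1) with hB
  have ht : ∀ w, fderiv ℂ σ (χ p) w ∈ Tan X x := fun w => tan_fd hσ hσX w
  have hV : fderiv ℂ ψ p (1, 0) = c p • fderiv ℂ σ (χ p) A + (fderiv ℂ c p (1, 0) * (c p)⁻¹) • (c p • x) := by
    rw [hD (1, 0), smul_smul _ (c p) x, mul_assoc, inv_mul_cancel₀ h0, mul_one]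
  have hW : fderiv ℂ ψ p (0, 1) = c p • fderiv ℂ σ (χ p) B + (fderiv ℂ c p (0, 1) * (c p)⁻¹) • (c p • x) := by
    rw [hD (0, 1), smul_smul _ (c p) x, mul_assoc, inv_mul_cancel₀ h0, mul_one]
  have hcx : c p • x ∈ X := hX _ hx _ h0
  have h1 := hΩ.add_smul (c p • x) hcx _ (tan_sm hX (ht A) h0) _ (tan_sm hX (ht B) h0) (fderiv ℂ c p (1, 0) * (c p)⁻¹)
    (fderiv ℂ c p (0, 1) * (c p)⁻¹)
  have h2 := hΩ.scale x hx _ (ht A) _ (ht B) (c p) h0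
  have h3 := hΩ.det x hx _ (ht (1, 0)) _ (ht (0, 1)) A.1 A.2 B.1 B.2
  rw [← co_pair, ← co_pair] at h3
  have h4 : oC Ω ψ p = Ω (c p • x) (c p • fderiv ℂ σ (χ p) A) (c p • fderiv ℂ σ (χ p) B) := by
    unfold oC
    rw [h.self_of_nhds, ← hxd, hV, hW]
    exact h1
  rw [h4, h2, h3]
  rfl

/-- a map into the surface in a chart -/
theorem exists_fac {X : Set V} (hX : ∀ x ∈ X, ∀ c : ℂ, c ≠ 0 → c • x ∈ X) {σ : ℂ × ℂ → V} {τ : V → ℂ × ℂ} (h : IsChart X σ τ)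
    {ψ : ℂ × ℂ → V} {a : ℂ} (ha : a ≠ 0) (hψ : AnalyticAt ℂ ψ 0) (hψX : ∀ᶠ p in 𝓝 (0 : ℂ × ℂ), ψ p ∈ X) (hψ0 : ψ 0 = a • σ 0) :
    ∃ c : ℂ × ℂ → ℂ, AnalyticAt ℂ c 0 ∧ c 0 = a ∧ AnalyticAt ℂ (fun p => τ (a⁻¹ • ψ p)) 0 ∧ τ (a⁻¹ • ψ 0) = 0 ∧
      ∀ᶠ p in 𝓝 (0 : ℂ × ℂ), ψ p = c p • σ (τ (a⁻¹ • ψ p)) := by
  obtain ⟨Λ, -, hΛ⟩ := exists_dual_vector ℂ (σ 0) (norm_ne_zero_iff.mpr h.ne)
  have hΛ0 : Λ (σ 0) ≠ 0 := by
    rw [hΛ]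
    exact Complex.ofReal_ne_zero.mpr (norm_ne_zero_iff.mpr h.ne)
  have e0 : a⁻¹ • ψ 0 = σ 0 := by rw [hψ0, smul_smul, inv_mul_cancel₀ ha, one_smul]
  have eτ : τ (a⁻¹ • ψ 0) = 0 := by rw [e0]; exact h.left.self_of_nhds
  have hψ' : AnalyticAt ℂ (fun p => a⁻¹ • ψ p) 0 := analyticAt_const.smul hψ
  have hτ : AnalyticAt ℂ (fun p => τ (a⁻¹ • ψ p)) 0 := by
    have h1 : AnalyticAt ℂ τ (a⁻¹ • ψ 0) := by rw [e0]; exact h.τ_an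
    exact AnalyticAt.comp (g := τ) (f := fun p => a⁻¹ • ψ p) h1 hψ'
  have hσ : AnalyticAt ℂ (fun p => σ (τ (a⁻¹ • ψ p))) 0 := by
    have h1 : AnalyticAt ℂ σ (τ (a⁻¹ • ψ 0)) := by rw [eτ]; exact h.σ_an
    exact AnalyticAt.comp (g := σ) (f := fun p => τ (a⁻¹ • ψ p)) h1 hτ
  have hden : AnalyticAt ℂ (fun p => Λ (σ (τ (a⁻¹ • ψ p)))) 0 := (Λ.analyticAt _).comp hσ
  have hden0 : Λ (σ (τ (a⁻¹ • ψ 0))) ≠ 0 := by rw [eτ]; exact hΛ0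
  refine ⟨fun p => Λ (ψ p) / Λ (σ (τ (a⁻¹ • ψ p))), ((Λ.analyticAt _).comp hψ).div hden hden0, ?_, hτ, eτ, ?_⟩
  · show Λ (ψ 0) / Λ (σ (τ (a⁻¹ • ψ 0))) = a
    rw [eτ, hψ0, map_smul, smul_eq_mul, mul_div_cancel_right₀ _ hΛ0]
  · have ht : Tendsto (fun p => a⁻¹ • ψ p) (𝓝 0) (𝓝 (σ 0)) := by
      have := hψ'.continuousAt.tendsto
      rwa [e0] at this
    filter_upwards [ht.eventually h.right, hψX, hden.continuousAt.eventually_ne hden0] with p h1 h2 h3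
    obtain ⟨c, -, hc⟩ := h1 (hX _ h2 _ (inv_ne_zero ha))
    have h4 : ψ p = (a * c) • σ (τ (a⁻¹ • ψ p)) := by
      rw [mul_smul, ← hc, smul_smul, mul_inv_cancel₀ ha, one_smul]
    have h5 : Λ (ψ p) / Λ (σ (τ (a⁻¹ • ψ p))) = a * c := by
      rw [div_eq_iff h3]
      conv_lhs => rw [h4]
      rw [map_smul, smul_eq_mul]
    rw [h5]
    exact h4

/-- the coefficient in a map into the surface is at most a constant times the coefficient in the chart -/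
theorem oC_le [FiniteDimensional ℂ V] {X : Set V} (hX : ∀ x ∈ X, ∀ c : ℂ, c ≠ 0 → c • x ∈ X) {m j : ℕ} {Ω : V → V → V → ℂ} (hΩ : IsForm X m j Ω)
    {σ : ℂ × ℂ → V} {τ : V → ℂ × ℂ} (h : IsChart X σ τ) {ψ : ℂ × ℂ → V} {a : ℂ} (ha : a ≠ 0) (hψ : AnalyticAt ℂ ψ 0)
    (hψX : ∀ᶠ p in 𝓝 (0 : ℂ × ℂ), ψ p ∈ X) (hψ0 : ψ 0 = a • σ 0) :
    ∃ B : ℝ, 0 < B ∧ ∀ᶠ p in 𝓝 (0 : ℂ × ℂ), ‖oC Ω ψ p‖ ≤ B * ‖oC Ω σ (τ (a⁻¹ • ψ p))‖ := by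
  have : CompleteSpace V := FiniteDimensional.complete ℂ V
  obtain ⟨c, hc, hc0, hτ, hτ0, hfac⟩ := exists_fac hX h ha hψ hψX hψ0
  set χ : ℂ × ℂ → ℂ × ℂ := fun p => τ (a⁻¹ • ψ p) with hχ
  have hcne : c 0 ≠ 0 := by rw [hc0]; exact ha
  have hq : ContinuousAt (fun p => jc χ p ^ m / c p ^ j) 0 :=
    ((jc_cont hτ).pow m).div (hc.continuousAt.pow j) (pow_ne_zero _ hcne)
  have hχt : Tendsto χ (𝓝 0) (𝓝 0) := by
    have h1 : Tendsto χ (𝓝 0) (𝓝 (χ 0)) := hτ.continuousAt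
    have h2 : χ 0 = 0 := hτ0
    rwa [h2] at h1
  refine ⟨‖jc χ 0 ^ m / c 0 ^ j‖ + 1, by positivity, ?_⟩
  filter_upwards [hq.norm.eventually_lt_const (lt_add_one _), hfac.eventually_nhds, hc.eventually_analyticAt,
    hτ.eventually_analyticAt, hχt.eventually h.σ_an.eventually_analyticAt, hχt.eventually h.σ_mem.eventually_nhds,
    hc.continuousAt.eventually_ne hcne] with p h1 h2 h3 h4 h5 h6 h7
  have h8 := oC_comp hX hΩ h3 h4 h5 h6 h7 h2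
  have h9 : oC Ω ψ p = jc χ p ^ m / c p ^ j * oC Ω σ (χ p) := by
    rw [div_mul_eq_mul_div, ← h8, mul_div_cancel_left₀ _ (pow_ne_zero _ h7)]
  rw [h9, norm_mul]
  exact mul_le_mul_of_nonneg_right h1.le (norm_nonneg _)

variable {ι : Type} [Fintype ι] {l : ι → V →L[ℂ] ℂ} {X : Set V}

/-- the coefficient of the form on the blow-up -/
theorem oC_om (hX : Surface X) {m j : ℕ} {Ω : V → V → V → ℂ} (hΩ : IsForm X m j Ω) {σ₁ : ℂ × ℂ → ι → V} {p : ℂ × ℂ}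
    (hσ : AnalyticAt ℂ σ₁ p) (hmem : ∀ᶠ y in 𝓝 p, σ₁ y ∈ blow l X) {b : ι} (hb : σ₁ p b ≠ 0) :
    oC (om l j Ω) σ₁ p = l b (σ₁ p b) ^ j * oC Ω (fun y => σ₁ y b) p ^ 2 := by
  have h4 : ∀ w : ℂ × ℂ, fderiv ℂ (fun y => σ₁ y b) p w = (fderiv ℂ σ₁ p w) b := by
    intro w
    have h5 := hσ.differentiableAt.hasFDerivAt
    have h6 : HasFDerivAt (fun y => σ₁ y b)
        ((ContinuousLinearMap.proj (R := ℂ) (φ := fun _ : ι => V) b).comp (fderiv ℂ σ₁ p)) p :=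
      ((ContinuousLinearMap.proj (R := ℂ) (φ := fun _ : ι => V) b).hasFDerivAt (x := σ₁ p)).comp p h5
    rw [h6.fderiv]
    rfl
  unfold oC
  rw [h4, h4]
  exact H62.BU.om_eq (surface_iff.2 hX) (isForm_iff.2 hΩ) hmem.self_of_nhds (H62.BU.tan_fderiv hσ hmem (1, 0))
    (H62.BU.tan_fderiv hσ hmem (0, 1)) hb

end Pool.Agent.H36.TB
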