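import Pool.Agent.SY.DefB
import Pool.Agent.H14.KB.Kob

/-!
# TB Defs: two-sided bounds of the metric

`oC Ω σ p` is the coefficient of the form in the parametrisation `σ`, `sm κ p w` the model of the metric near a smooth point of `T = {s = 0}`,
where `p = (s, t)`: the maximum of `‖s'‖` and `‖s‖ ^ (1 - κ) * ‖t'‖`.

`EnergyB`: the energy `g` with
* the unreduced weight `pn`, a continuous function, homogeneous of degree `D₁` (`D₁ = 2 ^ (number of the blow-ups)`), `pn = ‖·‖` in the nodal case,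
  `pn = pn' ∘ phi l` for a blow-up;
* the curvature with respect to this weight, with the exponent `θ * j / (m * D₁)`;
* the upper bound `ub`, along every entire curve, by the coefficient of the form and `pn ^ (j / (m * D₁))`.

`TBAt`: the two-sided bound of the metric at a point `x` where `T` is smooth.
-/

set_option autoImplicit false

open Topology Filter Metric

namespace Pool.Agent.H36.TB

open Pool.Agent.H36.BP (EN fs wd Sub)
open Pool.Agent.H17BP (Pr Surface IsForm NoZeros Eqs IsChart)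
open Pool.Agent.SY (Ent Energy ModelS)

/-- the coefficient of the form in the parametrisation `σ` -/
noncomputable def oC {V : Type} [NormedAddCommGroup V] [NormedSpace ℂ V] (Ω : V → V → V → ℂ) (σ : ℂ × ℂ → V) (p : ℂ × ℂ) : ℂ :=
  Ω (σ p) (fderiv ℂ σ p (1, 0)) (fderiv ℂ σ p (0, 1))

/-- the model of the metric at a smooth point of the curve -/
noncomputable def sm (κ : ℝ) (p w : ℂ × ℂ) : ℝ := max ‖w.1‖ (‖p.1‖ ^ (1 - κ) * ‖w.2‖)

/-- a metric along entire curves, with the unreduced weight -/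
structure EnergyB {V : Type} [NormedAddCommGroup V] [NormedSpace ℂ V] (X T : Set V) (m j : ℕ) (Ω : V → V → V → ℂ) (nu rho : V → ℝ)
    (M : ℕ) (c₀ C : ℝ) (g : (ℂ → V) → ℂ → ℝ) (pn : V → ℝ) (D₁ : ℕ) (θ : ℝ) : Prop extends Energy X T nu rho M c₀ C g where
  one_le : 1 ≤ D₁
  pn_cont : Continuous pn
  pn_nonneg : ∀ x, 0 ≤ pn x
  pn_smul : ∀ (c : ℂ) x, pn (c • x) = ‖c‖ ^ D₁ * pn x
  subP : ∀ F, Ent X T F → ∀ z, 0 < g F z →
    Sub (fun w => g F w * pn (F w) ^ (-(θ * j / (m * D₁)))) z (-(C * g F z ^ 2))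
  ub : ∀ F, Ent X T F → ∀ z₀ σ τ, IsChart X σ τ → σ 0 = F z₀ →
    ∃ B : ℝ, 0 < B ∧ ∀ᶠ z in 𝓝 z₀, g F z ≤ B * ‖oC Ω σ (τ (F z))‖ ^ (1 / (m : ℝ)) * pn (F z) ^ ((j : ℝ) / (m * D₁))

/-- the two-sided bound of the metric at the point `x`, where `T` is smooth -/
def TBAt {V : Type} [NormedAddCommGroup V] [NormedSpace ℂ V] (X T : Set V) (m : ℕ) (Ω : V → V → V → ℂ) (g : (ℂ → V) → ℂ → ℝ)
    (pn : V → ℝ) (κ : ℝ) (x : V) : Prop :=
  ∀ σ τ, IsChart X σ τ → σ 0 = x → (∀ᶠ p in 𝓝 (0 : ℂ × ℂ), (σ p ∈ T ↔ p.1 = 0)) →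
    ∃ B : ℝ, 1 ≤ B ∧ ∀ᶠ y in 𝓝 x, B⁻¹ ≤ pn y ∧ pn y ≤ B ∧ ∀ F, Ent X T F → ∀ z, F z = y →
      ‖oC Ω σ (τ y)‖ ^ (1 / (m : ℝ)) * sm κ (τ y) (deriv (fun w => τ (F w)) z) ≤ B * g F z ∧
      g F z ≤ B * (‖oC Ω σ (τ y)‖ ^ (1 / (m : ℝ)) * sm κ (τ y) (deriv (fun w => τ (F w)) z))

end Pool.Agent.H36.TB
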