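import Pool.Agent.H36.TB.Co
import Pool.Agent.SY.EiI

/-!
# TB EnB: descent of the energy with the weight from a blow-up

* `ub`: the form upstairs is `l b (y b) ^ j * Ω (y b) (..) ^ 2` (`oC_om`), `‖l b (Φ z b)‖ ≤ B ‖h z‖`, `phi l (F z) = h z • Φ z`, and the coefficient of `Ω`
  in the map `p ↦ σ₁ p b` is at most a constant times the coefficient in the chart `σ` (`oC_le`).
* `subP`: where `h z = 0` the energy is `0` (`ub`), elsewhere `pn (phi l (F w)) = ‖h w‖ ^ D₁ * pn (Φ w)` and `log ‖h‖` is harmonic.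
-/

set_option autoImplicit false

open Topology Filter Metric

noncomputable section

namespace Pool.Agent.H36.TB

open Pool.Agent.H36.BP (EN fs wd Sub)
open Pool.Agent.H17BP (Pr Surface IsForm NoZeros Eqs IsChart chart_iff surface_iff isForm_iff)
open Pool.Agent.H14.KB (rhoS)
open Pool.Agent.H62.BU (blow total Ker phi om)
open Pool.Agent.SY (Ent Energy ModelS IsLiftB down down_eq exists_liftB lift_comp energy_blow HasEnergy down_aff down_unit down_sub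
  down_lower down_lim)

variable {V : Type} [NormedAddCommGroup V] [NormedSpace ℂ V] {ι : Type} [Fintype ι] {l : ι → V →L[ℂ] ℂ} {X T : Set V} {q : V}

omit [Fintype ι] in
theorem phi_cont : Continuous (phi l) :=
  continuous_pi fun b => (l b).continuous.smul continuous_id

omit [Fintype ι] in
/-- the power of the weight under the map to the blow-up -/
theorem pn_phi {pn : (ι → V) → ℝ} {D₁ : ℕ} (hs : ∀ (c : ℂ) x, pn (c • x) = ‖c‖ ^ D₁ * pn x) (hn : ∀ x, 0 ≤ pn x) {x : V} {y : ι → V} {c : ℂ}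
    (h : phi l x = c • y) (e : ℝ) : pn (phi l x) ^ e = ‖c‖ ^ (D₁ * e) * pn y ^ e := by
  rw [h, hs, Real.mul_rpow (pow_nonneg (norm_nonneg _) _) (hn _), ← Real.rpow_natCast, ← Real.rpow_mul (norm_nonneg _)]

/-- the upper bound downstairs -/
theorem ub_blow [FiniteDimensional ℂ V] {m j : ℕ} {Ω : V → V → V → ℂ} (hX : Surface X) (hΩ : IsForm X m j Ω) (hm : 1 ≤ m)
    (hl : Ker l q) (hTX : T ⊆ X) (hT : ∀ x ∈ T, ∀ c : ℂ, c ≠ 0 → c • x ∈ T) (hq : q ∈ T) {N : ℕ} (L : V ≃L[ℂ] EN N)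
    {nu rho : (ι → V) → ℝ} {M : ℕ} {c₀ C θ : ℝ} {g : (ℂ → ι → V) → ℂ → ℝ} {pn : (ι → V) → ℝ} {D₁ : ℕ}
    (E : EnergyB (blow l X) (total l X T) (2 * m) j (om l j Ω) nu rho M c₀ C g pn D₁ θ) {F : ℂ → V} (hF : Ent X T F)
    {Φ : ℂ → ι → V} (hΦ : IsLiftB l X T F Φ) (z₀ : ℂ) {σ : ℂ × ℂ → V} {τ : V → ℂ × ℂ} (h : IsChart X σ τ) (hσ : σ 0 = F z₀) :
    ∃ B : ℝ, 0 < B ∧ ∀ᶠ z in 𝓝 z₀, g Φ z ≤ B * ‖oC Ω σ (τ (F z))‖ ^ (1 / (m : ℝ)) *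
      pn (phi l (F z)) ^ ((j : ℝ) / (m * ((2 * D₁ : ℕ) : ℝ))) := by
  have hXs := hX.smul
  have hX1 : Surface (blow l X) := surface_iff.1 (Pool.Agent.H62.BU.surface_blow (surface_iff.2 hX) hl (hTX hq))
  obtain ⟨k, hka, -, hk⟩ := lift_comp L hX hl hT hq hF hΦ z₀
  obtain ⟨hΦE, f, hf, hphi⟩ := hΦ
  have hy : Φ z₀ ∈ blow l X := hΦE.mem z₀
  obtain ⟨b, hb⟩ := H62.BU.exists_ne _ hy
  obtain ⟨σ₁, τ₁, h₁, h10⟩ := hX1.chart _ hy
  obtain ⟨B₁, hB₁, hub⟩ := E.ub Φ hΦE z₀ σ₁ τ₁ h₁ h10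
  have hkb : Φ z₀ b = k b z₀ • F z₀ := hk.self_of_nhds b
  set a : ℂ := k b z₀ with ha
  have ha0 : a ≠ 0 := by
    intro h0
    rw [h0, zero_smul] at hkb
    exact hb hkb
  -- the map `ψ`
  set ψ : ℂ × ℂ → V := fun p => σ₁ p b with hψd
  have hψ : AnalyticAt ℂ ψ 0 :=
    ((ContinuousLinearMap.proj (R := ℂ) (φ := fun _ : ι => V) b).analyticAt _).comp h₁.σ_an
  have hψb : ψ 0 ≠ 0 := by
    show σ₁ 0 b ≠ 0
    rw [h10]
    exact hb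
  have hψne : ∀ᶠ p in 𝓝 (0 : ℂ × ℂ), ψ p ≠ 0 := hψ.continuousAt.eventually_ne hψb
  have hψX : ∀ᶠ p in 𝓝 (0 : ℂ × ℂ), ψ p ∈ X := by
    filter_upwards [h₁.σ_mem, hψne] with p h1 h2
    exact H62.BU.comp_mem (surface_iff.2 hX) _ h1 h2
  have hψ0 : ψ 0 = a • σ 0 := by
    show σ₁ 0 b = a • σ 0
    rw [h10, hσ]
    exact hkb
  obtain ⟨B₂, hB₂, hle⟩ := oC_le hXs hΩ h ha0 hψ hψX hψ0
  have : CompleteSpace V := FiniteDimensional.complete ℂ V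
  have hom : ∀ᶠ p in 𝓝 (0 : ℂ × ℂ), oC (om l j Ω) σ₁ p = l b (ψ p) ^ j * oC Ω ψ p ^ 2 := by
    filter_upwards [h₁.σ_an.eventually_analyticAt, h₁.σ_mem.eventually_nhds, hψne] with p h1 h2 h3
    exact oC_om hX hΩ h1 h2 h3
  -- the curve in the chart
  have hΦc : Tendsto Φ (𝓝 z₀) (𝓝 (σ₁ 0)) := by
    rw [h10]
    exact (hΦE.diff z₀).continuousAt
  have hpt : Tendsto (fun z => τ₁ (Φ z)) (𝓝 z₀) (𝓝 0) := by
    have h1 : Tendsto τ₁ (𝓝 (σ₁ 0)) (𝓝 (τ₁ (σ₁ 0))) := h₁.τ_an.continuousAt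
    rw [h₁.left.self_of_nhds] at h1
    exact h1.comp hΦc
  obtain ⟨Λ, -, hΛ⟩ := exists_dual_vector ℂ (ψ 0) (norm_ne_zero_iff.mpr hψb)
  have hΛ0 : Λ (ψ 0) ≠ 0 := by
    rw [hΛ]
    exact Complex.ofReal_ne_zero.mpr (norm_ne_zero_iff.mpr hψb)
  have hΦb : Tendsto (fun z => Φ z b) (𝓝 z₀) (𝓝 (ψ 0)) := ((continuous_apply b).tendsto (σ₁ 0)).comp hΦc
  have hΛΦ : Tendsto (fun z => Λ (Φ z b)) (𝓝 z₀) (𝓝 (Λ (ψ 0))) := (Λ.continuous.tendsto _).comp hΦb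
  have hΛψ : Tendsto (fun z => Λ (ψ (τ₁ (Φ z)))) (𝓝 z₀) (𝓝 (Λ (ψ 0))) :=
    (Λ.continuous.tendsto _).comp (hψ.continuousAt.tendsto.comp hpt)
  set c : ℂ → ℂ := fun z => Λ (ψ (τ₁ (Φ z))) / Λ (Φ z b) with hc
  have hct : Tendsto c (𝓝 z₀) (𝓝 1) := by
    have h1 := hΛψ.div hΛΦ hΛ0
    rwa [div_self hΛ0] at h1
  have hkt : Tendsto (k b) (𝓝 z₀) (𝓝 a) := (hka b).continuousAt
  have hFt : Tendsto F (𝓝 z₀) (𝓝 (σ 0)) := by
    rw [hσ]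
    exact (hF.diff z₀).continuousAt
  have hψF : ∀ᶠ z in 𝓝 z₀, ψ (τ₁ (Φ z)) = (c z * k b z) • F z := by
    filter_upwards [hΦc.eventually h₁.right, hk, hΛΦ.eventually_ne hΛ0] with z h1 h2 h3
    obtain ⟨c', hc', h4⟩ := h1 (hΦE.mem z)
    have h5 : Φ z b = c' • ψ (τ₁ (Φ z)) := congrFun h4 b
    have h6 : Λ (Φ z b) = c' * Λ (ψ (τ₁ (Φ z))) := by
      conv_lhs => rw [h5]
      rw [map_smul, smul_eq_mul]
    have h7 : c z * c' = 1 := by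
      show Λ (ψ (τ₁ (Φ z))) / Λ (Φ z b) * c' = 1
      rw [div_mul_eq_mul_div, mul_comm, ← h6, div_self h3]
    rw [mul_smul, ← h2 b]
    conv_rhs => rw [h5]
    rw [smul_smul, h7, one_smul]
  -- the bound of `l b`
  have hlb : ∀ᶠ z in 𝓝 z₀, l b (ψ (τ₁ (Φ z))) = (c z * k b z ^ 2) * f z := by
    filter_upwards [hψF, hk] with z h1 h2
    have h3 : l b (F z) • F z = (f z * k b z) • F z := by
      have h4 : l b (F z) • F z = f z • Φ z b := congrFun (hphi z) b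
      rw [h4, h2 b, smul_smul]
    have h5 : l b (F z) = f z * k b z := smul_left_injective ℂ (fun h0 => hX.zero (h0 ▸ hF.mem z)) h3
    rw [h1, map_smul, smul_eq_mul, h5]
    ring
  have hbd : ∀ᶠ z in 𝓝 z₀, ‖c z * k b z ^ 2‖ ≤ ‖a‖ ^ 2 + 1 := by
    have h1 : Tendsto (fun z => ‖c z * k b z ^ 2‖) (𝓝 z₀) (𝓝 (‖a‖ ^ 2)) := by
      have h2 := (hct.mul (hkt.pow 2)).norm
      rwa [one_mul, norm_pow] at h2
    filter_upwards [h1.eventually_lt_const (lt_add_one _)] with z hz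
    exact hz.le
  -- the point in the chart
  have hτF : ∀ᶠ z in 𝓝 z₀, τ (a⁻¹ • ψ (τ₁ (Φ z))) = τ (F z) := by
    have h1 : Tendsto (fun z => (F z, a⁻¹ * (c z * k b z))) (𝓝 z₀) (𝓝 (σ 0, (1 : ℂ))) := by
      refine hFt.prodMk_nhds ?_
      have h2 := (hct.mul hkt).const_mul a⁻¹
      rwa [one_mul, inv_mul_cancel₀ ha0] at h2
    filter_upwards [h1.eventually h.inv, hψF] with z h2 h3
    rw [h3, smul_smul]
    exact h2
  have hm' : (m : ℝ) ≠ 0 := by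
    have : m ≠ 0 := by omega
    exact_mod_cast this
  have hD : (D₁ : ℝ) ≠ 0 := by
    have := E.one_le
    have : D₁ ≠ 0 := by omega
    exact_mod_cast this
  refine ⟨B₁ * (((‖a‖ ^ 2 + 1) ^ j * B₂ ^ 2) ^ (1 / ((2 * m : ℕ) : ℝ))), by positivity, ?_⟩
  filter_upwards [hub, hpt.eventually hom, hpt.eventually hle, hlb, hbd, hτF] with z h1 h2 h3 h4 h5 h6
  rw [h6] at h3
  set A : ℝ := ‖oC Ω σ (τ (F z))‖ with hA
  have hA0 : 0 ≤ A := norm_nonneg _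
  have hE : ‖oC (om l j Ω) σ₁ (τ₁ (Φ z))‖ ≤ ((‖a‖ ^ 2 + 1) ^ j * B₂ ^ 2) * (‖f z‖ ^ j * A ^ 2) := by
    rw [h2, norm_mul, norm_pow, norm_pow, h4, norm_mul]
    calc (‖c z * k b z ^ 2‖ * ‖f z‖) ^ j * ‖oC Ω ψ (τ₁ (Φ z))‖ ^ 2
        ≤ ((‖a‖ ^ 2 + 1) * ‖f z‖) ^ j * (B₂ * A) ^ 2 := by
          gcongr
      _ = ((‖a‖ ^ 2 + 1) ^ j * B₂ ^ 2) * (‖f z‖ ^ j * A ^ 2) := by
          rw [mul_pow, mul_pow]
          ring
  have e1 : (j : ℝ) / (((2 * m : ℕ) : ℝ) * D₁) = (j : ℝ) / (m * ((2 * D₁ : ℕ) : ℝ)) := by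
    push_cast
    congr 1
    ring
  have e2 : pn (phi l (F z)) ^ ((j : ℝ) / (m * ((2 * D₁ : ℕ) : ℝ))) =
      (‖f z‖ ^ j) ^ (1 / ((2 * m : ℕ) : ℝ)) * pn (Φ z) ^ ((j : ℝ) / (((2 * m : ℕ) : ℝ) * D₁)) := by
    rw [pn_phi E.pn_smul E.pn_nonneg (hphi z), e1]
    congr 1
    rw [← Real.rpow_natCast, ← Real.rpow_mul (norm_nonneg _)]
    congr 1
    push_cast
    field_simp
  have e3 : (A ^ 2) ^ (1 / ((2 * m : ℕ) : ℝ)) = A ^ (1 / (m : ℝ)) := by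
    rw [← Real.rpow_natCast, ← Real.rpow_mul hA0]
    congr 1
    push_cast
    field_simp
  have hK0 : 0 ≤ (‖a‖ ^ 2 + 1) ^ j * B₂ ^ 2 := by positivity
  have hK1 : 0 ≤ ‖f z‖ ^ j := by positivity
  have hK2 : 0 ≤ A ^ 2 := by positivity
  calc g Φ z ≤ B₁ * ‖oC (om l j Ω) σ₁ (τ₁ (Φ z))‖ ^ (1 / ((2 * m : ℕ) : ℝ)) * pn (Φ z) ^ ((j : ℝ) / (((2 * m : ℕ) : ℝ) * D₁)) := h1
    _ ≤ B₁ * (((‖a‖ ^ 2 + 1) ^ j * B₂ ^ 2) * (‖f z‖ ^ j * A ^ 2)) ^ (1 / ((2 * m : ℕ) : ℝ)) *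
        pn (Φ z) ^ ((j : ℝ) / (((2 * m : ℕ) : ℝ) * D₁)) := by
        have h7 : ‖oC (om l j Ω) σ₁ (τ₁ (Φ z))‖ ^ (1 / ((2 * m : ℕ) : ℝ)) ≤
            (((‖a‖ ^ 2 + 1) ^ j * B₂ ^ 2) * (‖f z‖ ^ j * A ^ 2)) ^ (1 / ((2 * m : ℕ) : ℝ)) :=
          Real.rpow_le_rpow (norm_nonneg _) hE (by positivity)
        exact mul_le_mul_of_nonneg_right (mul_le_mul_of_nonneg_left h7 hB₁.le) (Real.rpow_nonneg (E.pn_nonneg _) _)
    _ = B₁ * (((‖a‖ ^ 2 + 1) ^ j * B₂ ^ 2) ^ (1 / ((2 * m : ℕ) : ℝ))) * A ^ (1 / (m : ℝ)) *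
        pn (phi l (F z)) ^ ((j : ℝ) / (m * ((2 * D₁ : ℕ) : ℝ))) := by
        rw [e2, Real.mul_rpow hK0 (mul_nonneg hK1 hK2), Real.mul_rpow hK1 hK2, e3]
        ring

/-- MODULE EnB: descent of the energy from a blow-up -/
theorem energyB_blow [FiniteDimensional ℂ V] {r : ℕ} {l : Fin r → V →L[ℂ] ℂ} {m j : ℕ} {Ω : V → V → V → ℂ} {κ : Type} [Fintype κ]
    {Q : κ → V → ℂ} {D : ℕ} (h : ModelS X T m j Ω Q D) (hl : Ker l q) (hq : q ∈ T) {N N' : ℕ} (L : V ≃L[ℂ] EN N)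
    (L' : (Fin r → V) ≃L[ℂ] EN N') (hL : ∀ y, ‖L' y‖ ^ 2 = ∑ b, ‖L (y b)‖ ^ 2) {M : ℕ} {c₀ C θ : ℝ} {g : (ℂ → Fin r → V) → ℂ → ℝ}
    {pn : (Fin r → V) → ℝ} {D₁ : ℕ} (hM : 1 ≤ M)
    (E : EnergyB (blow l X) (total l X T) (2 * m) j (om l j Ω) (fun y => ‖L' y‖)
      (rhoS (fun (p : κ × Fin r) (y : Fin r → V) => Q p.1 (y p.2)) D) M c₀ C g pn D₁ θ) :
    EnergyB X T m j Ω (fun x => ‖L x‖) (rhoS Q D) M c₀ C (down l X T g) (fun x => pn (phi l x)) (2 * D₁) θ := by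
  have hX := h.surf
  have hTX : T ⊆ X := h.eqs.sub
  have hT := h.eqs.cone h.surf.smul
  have hm := h.one_m
  have hj := h.one_j
  have E' := E.toEnergy
  have hub : ∀ F, Ent X T F → ∀ z₀ σ τ, IsChart X σ τ → σ 0 = F z₀ →
      ∃ B : ℝ, 0 < B ∧ ∀ᶠ z in 𝓝 z₀, down l X T g F z ≤ B * ‖oC Ω σ (τ (F z))‖ ^ (1 / (m : ℝ)) *
        pn (phi l (F z)) ^ ((j : ℝ) / (m * ((2 * D₁ : ℕ) : ℝ))) := by
    intro F hF z₀ σ τ hσ hσ0
    obtain ⟨Φ, hΦ⟩ := exists_liftB hX hl hTX hT hq hF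
    rw [down_eq hX hl hTX hT hq E' hF hΦ]
    exact ub_blow hX h.form hm hl hTX hT hq L E hF hΦ z₀ hσ hσ0
  have hD1 := E.one_le
  have hm' : (m : ℝ) ≠ 0 := by
    have : m ≠ 0 := by omega
    exact_mod_cast this
  have hD' : (D₁ : ℝ) ≠ 0 := by
    have : D₁ ≠ 0 := by omega
    exact_mod_cast this
  have hj' : (j : ℝ) ≠ 0 := by
    have : j ≠ 0 := by omega
    exact_mod_cast this
  have hsubP : ∀ F, Ent X T F → ∀ z, 0 < down l X T g F z →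
      Sub (fun w => down l X T g F w * pn (phi l (F w)) ^ (-(θ * j / (m * ((2 * D₁ : ℕ) : ℝ))))) z (-(C * down l X T g F z ^ 2)) := by
    intro F hF z hz
    obtain ⟨Φ, hΦ⟩ := exists_liftB hX hl hTX hT hq hF
    obtain ⟨f, hf, hphi⟩ := hΦ.2
    -- `f z ≠ 0`
    have hfz : f z ≠ 0 := by
      intro h0
      obtain ⟨σ, τ, hσ, hσ0⟩ := hX.chart _ (hF.mem z)
      obtain ⟨B, hB, h1⟩ := hub F hF z σ τ hσ hσ0
      have h2 := h1.self_of_nhds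
      have h3 : pn (phi l (F z)) = 0 := by
        rw [hphi z, h0, E.pn_smul, norm_zero, zero_pow (by omega), zero_mul]
      have h4 : (j : ℝ) / (m * ((2 * D₁ : ℕ) : ℝ)) ≠ 0 := by
        push_cast
        positivity
      rw [h3, Real.zero_rpow h4, mul_zero] at h2
      exact absurd h2 (not_le.mpr hz)
    rw [down_eq hX hl hTX hT hq E' hF hΦ] at hz ⊢
    have e1 : θ * j / (((2 * m : ℕ) : ℝ) * D₁) = θ * j / (m * ((2 * D₁ : ℕ) : ℝ)) := by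
      push_cast
      congr 1
      ring
    have h1 := E.subP Φ hΦ.1 z hz
    rw [e1] at h1
    set e : ℝ := -(θ * j / (m * ((2 * D₁ : ℕ) : ℝ))) with he
    have hfa : AnalyticAt ℂ f z := hf.analyticAt z
    have h2 : Sub (fun w => ‖f w‖ ^ ((D₁ : ℝ) * e)) z 0 := by
      rcases le_total 0 ((D₁ : ℝ) * e) with h3 | h3
      · have h4 := (Pool.Agent.H36.BP.Sub.of_holo hfa hfz).rpow h3
        rwa [mul_zero] at h4
      · have h4 := (Pool.Agent.H36.BP.Sub.of_holo (hfa.inv hfz) (inv_ne_zero hfz)).rpow (neg_nonneg.mpr h3)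
        rw [mul_zero] at h4
        refine h4.congr (Eventually.of_forall fun w => ?_)
        show ‖(f w)⁻¹‖ ^ (-((D₁ : ℝ) * e)) = _
        rw [norm_inv, Real.inv_rpow (norm_nonneg _), Real.rpow_neg (norm_nonneg _), inv_inv]
    have h3 := h1.mul h2
    rw [add_zero] at h3
    refine h3.congr (Eventually.of_forall fun w => ?_)
    show g Φ w * pn (Φ w) ^ e * ‖f w‖ ^ ((D₁ : ℝ) * e) = g Φ w * pn (phi l (F w)) ^ e
    rw [pn_phi E.pn_smul E.pn_nonneg (hphi w)]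
    ring
  exact
  { c₀_pos := E.c₀_pos
    C_pos := E.C_pos
    nonneg := fun F hF z => by
      obtain ⟨Φ, hΦ⟩ := exists_liftB hX hl hTX hT hq hF
      rw [down_eq hX hl hTX hT hq E' hF hΦ]
      exact E.nonneg Φ hΦ.1 z
    usc := fun F hF z a hz => by
      obtain ⟨Φ, hΦ⟩ := exists_liftB hX hl hTX hT hq hF
      rw [down_eq hX hl hTX hT hq E' hF hΦ] at hz ⊢
      exact E.usc Φ hΦ.1 z a hz
    aff := fun F hF a b ha z => down_aff hX hl hTX hT hq E' hF ha z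
    unit := fun F hF u hu h0 z => down_unit hX hl hTX hT hq E' hF hu h0 z
    sub := fun F hF z hz => down_sub hL hX hl hTX hT hq E' hF z hz
    lower := fun F hF z => down_lower hX hl h.eqs hq hM E' hF z
    lim := fun u hu r' A ε hr' hε F K hF hA hB hc hK => down_lim hX hl hTX hT hq E' u hu r' A ε hr' hε F K hF hA hB hc hK
    one_le := by omega
    pn_cont := E.pn_cont.comp phi_cont
    pn_nonneg := fun x => E.pn_nonneg _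
    pn_smul := fun c x => by
      show pn (phi l (c • x)) = ‖c‖ ^ (2 * D₁) * pn (phi l x)
      rw [H62.BU.phi_smul, E.pn_smul, norm_pow, pow_mul]
    subP := hsubP
    ub := hub }

end Pool.Agent.H36.TB
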