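import Pool.Agent.H36.TB.Co
import Pool.Agent.SY.EiI
import Pool.Agent.H62.BU.Off

/-!
# TB EnT: descent of the two-sided bound at the points which are not blown up

Near `x`, `l b x ≠ 0`, the chart upstairs is `σ₁ = phi l ∘ σ`, `τ₁ y = τ ((l b x)⁻¹ • y b)` (`chart_off`); the coefficient upstairs is the square of the
coefficient downstairs (`oC_phi`).  The lift of `F` is normalised so that `Φ z = phi l (F z)`.
-/

set_option autoImplicit false

open Topology Filter Metric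

noncomputable section

namespace Pool.Agent.H36.TB

open Pool.Agent.H36.BP (EN fs wd Sub)
open Pool.Agent.H17BP (Pr Surface IsForm NoZeros Eqs IsChart chart_iff surface_iff isForm_iff)
open Pool.Agent.H14.KB (rhoS)
open Pool.Agent.H62.BU (blow total Ker phi om)
open Pool.Agent.SY (Ent Energy ModelS IsLiftB down down_eq exists_liftB)

variable {V : Type} [NormedAddCommGroup V] [NormedSpace ℂ V] {ι : Type} [Fintype ι] {l : ι → V →L[ℂ] ℂ} {X T : Set V} {q : V}

/-- off the exceptional curve the coefficient of the form upstairs is the square of the coefficient downstairs -/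
theorem oC_phi (hX : Surface X) {m j : ℕ} {Ω : V → V → V → ℂ} (hΩ : IsForm X m j Ω) {σ : ℂ × ℂ → V} {p : ℂ × ℂ}
    (hσ : AnalyticAt ℂ σ p) (hmem : ∀ᶠ y in 𝓝 p, σ y ∈ X) {b : ι} (hb : l b (σ p) ≠ 0) :
    oC (om l j Ω) (fun y => phi l (σ y)) p = oC Ω σ p ^ 2 := by
  have hlb : AnalyticAt ℂ (fun y => l b (σ y)) p := ((l b).analyticAt _).comp hσ
  have h1 : AnalyticAt ℂ (fun y => phi l (σ y)) p := by
    refine AnalyticAt.pi fun b' => ?_
    exact (((l b').analyticAt _).comp hσ).smul hσ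
  have h2 : ∀ᶠ y in 𝓝 p, phi l (σ y) ∈ blow l X := by
    filter_upwards [hmem, hlb.continuousAt.eventually_ne hb] with y h3 h4
    exact H62.BU.dense_sub (H62.BU.phi_mem_dense h3 ⟨b, h4⟩)
  have hne : σ p ≠ 0 := fun h0 => hX.zero (h0 ▸ hmem.self_of_nhds)
  have h3 : phi l (σ p) b ≠ 0 := smul_ne_zero hb hne
  rw [oC_om (σ₁ := fun y => phi l (σ y)) hX hΩ h1 h2 h3]
  have h4 := oC_comp (ψ := fun y => phi l (σ y) b) (σ := σ) (c := fun y => l b (σ y)) (χ := fun y => y) hX.smul hΩ hlb analyticAt_id hσ hmem hb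
    (Eventually.of_forall fun y => rfl)
  have h5 : jc (fun y : ℂ × ℂ => y) p = 1 := by
    unfold jc
    rw [fderiv_fun_id]
    simp
  rw [h5, one_pow, one_mul] at h4
  have h6 : l b (phi l (σ p) b) = l b (σ p) ^ 2 := by
    show l b (l b (σ p) • σ p) = _
    rw [map_smul, smul_eq_mul, sq]
  rw [h6, ← h4, mul_pow, ← pow_mul, ← pow_mul, mul_comm 2 j]

/-- MODULE EnT: descent of the two-sided bound at the points which are not blown up. -/
theorem tbAt_blow [FiniteDimensional ℂ V] {r : ℕ} {l : Fin r → V →L[ℂ] ℂ} {m j : ℕ} {Ω : V → V → V → ℂ} {κ : Type} [Fintype κ]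
    {Q : κ → V → ℂ} {D : ℕ} (h : ModelS X T m j Ω Q D) (hl : Ker l q) (hq : q ∈ T) {N' : ℕ}
    {L' : (Fin r → V) ≃L[ℂ] EN N'} {M : ℕ} {c₀ C θ k : ℝ} {g : (ℂ → Fin r → V) → ℂ → ℝ}
    {pn : (Fin r → V) → ℝ} {D₁ : ℕ}
    (E : EnergyB (blow l X) (total l X T) (2 * m) j (om l j Ω) (fun y => ‖L' y‖)
      (rhoS (fun (p : κ × Fin r) (y : Fin r → V) => Q p.1 (y p.2)) D) M c₀ C g pn D₁ θ) {x : V} (hx : x ∈ X) (hxq : ¬ Pr x q)
    (ht : TBAt (blow l X) (total l X T) (2 * m) (om l j Ω) g pn k (phi l x)) :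
    TBAt X T m Ω (down l X T g) (fun x => pn (phi l x)) k x := by
  intro σ τ hσ hσ0 hT0
  have hX := h.surf
  have hXs := hX.smul
  have hTX : T ⊆ X := h.eqs.sub
  have hT := h.eqs.cone h.surf.smul
  have hm := h.one_m
  have E' := E.toEnergy
  have : CompleteSpace V := FiniteDimensional.complete ℂ V
  have hx0 : x ≠ 0 := fun h0 => hX.zero (h0 ▸ hx)
  -- some `l b x ≠ 0`
  obtain ⟨b, hb⟩ : ∃ b, l b x ≠ 0 := by
    by_contra hcon
    push Not at hcon
    obtain ⟨c, hc⟩ := (hl x).mp hcon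
    refine hxq ⟨c, ?_, hc⟩
    rintro rfl
    rw [zero_smul] at hc
    exact hx0 hc
  have hbσ : l b (σ 0) ≠ 0 := by rw [hσ0]; exact hb
  have h₁ : IsChart (blow l X) (fun p => phi l (σ p)) (fun y => τ ((l b (σ 0))⁻¹ • y b)) :=
    chart_iff.1 (H62.BU.chart_off (surface_iff.2 hX) (chart_iff.2 hσ) hbσ)
  set a : ℂ := l b (σ 0) with ha
  have hlσ : ∀ᶠ p in 𝓝 (0 : ℂ × ℂ), l b (σ p) ≠ 0 := by
    have h1 : ContinuousAt (fun p => l b (σ p)) 0 := (l b).continuous.continuousAt.comp hσ.σ_an.continuousAt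
    exact h1.eventually_ne hbσ
  have hT1 : ∀ᶠ p in 𝓝 (0 : ℂ × ℂ), (phi l (σ p) ∈ total l X T ↔ p.1 = 0) := by
    filter_upwards [hT0, hσ.σ_mem, hlσ] with p h1 h2 h3
    have h4 : phi l (σ p) ∈ blow l X := H62.BU.dense_sub (H62.BU.phi_mem_dense h2 ⟨b, h3⟩)
    have h5 : phi l (σ p) b ≠ 0 := smul_ne_zero h3 fun h0 => hX.zero (h0 ▸ h2)
    rw [← h1, H62.BU.mem_total_iff (surface_iff.2 hX) hT _ h4 h5]
    show l b (σ p) • σ p ∈ T ↔ _
    refine ⟨fun h6 => ?_, fun h6 => hT _ h6 _ h3⟩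
    have h7 := hT _ h6 _ (inv_ne_zero h3)
    rwa [smul_smul, inv_mul_cancel₀ h3, one_smul] at h7
  obtain ⟨B, hB, hev⟩ := ht _ _ h₁ (by show phi l (σ 0) = phi l x; rw [hσ0]) hT1
  refine ⟨B, hB, ?_⟩
  -- the neighbourhood downstairs
  have hphic : Tendsto (phi l) (𝓝 x) (𝓝 (phi l x)) :=
    (continuous_pi fun b => (l b).continuous.smul continuous_id : Continuous (phi l)).tendsto x
  have hpair : Tendsto (fun y => (y, a⁻¹ * l b y)) (𝓝 x) (𝓝 (σ 0, (1 : ℂ))) := by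
    have h1 : Tendsto (fun y => (y, a⁻¹ * l b y)) (𝓝 x) (𝓝 (x, a⁻¹ * l b x)) :=
      (tendsto_id).prodMk_nhds (((l b).continuous.tendsto x).const_mul _)
    have h2 : a⁻¹ * l b x = 1 := by rw [ha, hσ0, inv_mul_cancel₀ hb]
    rw [h2] at h1
    rw [hσ0]
    exact h1
  have hτt : Tendsto τ (𝓝 x) (𝓝 0) := by
    have h1 : Tendsto τ (𝓝 (σ 0)) (𝓝 (τ (σ 0))) := hσ.τ_an.continuousAt
    rwa [hσ.left.self_of_nhds, hσ0] at h1
  filter_upwards [hphic.eventually hev, hpair.eventually hσ.inv.eventually_nhds, (l b).continuous.continuousAt.eventually_ne hb,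
    hτt.eventually hσ.σ_an.eventually_analyticAt, hτt.eventually hσ.σ_mem.eventually_nhds, hτt.eventually hlσ] with y h1 h2 h3 h4 h5 h6
  refine ⟨h1.1, h1.2.1, fun F hF z hFz => ?_⟩
  have hlc := h1.2.2
  -- the lift
  obtain ⟨Φ, hΦ, f, hf, hphi⟩ := exists_liftB hX hl hTX hT hq hF
  have hfz : f z ≠ 0 := by
    intro h0
    have h7 := congrFun (hphi z) b
    rw [h0, zero_smul, hFz] at h7
    have h8 : l b y • y = 0 := h7
    have h9 : y ≠ 0 := by
      rw [← hFz]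
      exact fun h0 => hX.zero (h0 ▸ hF.mem z)
    exact smul_ne_zero h3 h9 h8
  set Ψ : ℂ → Fin r → V := fun w => f z • Φ w with hΨ
  have hΨE : Ent (blow l X) (total l X T) Ψ := by
    refine ⟨fun w => (differentiableAt_const (f z)).smul (hΦ.diff w), fun w => H62.BU.blow_smul _ (hΦ.mem w) _ hfz, ?_⟩
    obtain ⟨w, hw⟩ := hΦ.out
    refine ⟨w, fun hc => hw ?_⟩
    have h7 := (Pool.Agent.H17BP.eqs_blow (l := l) hX h.eqs).cone H62.BU.blow_smul _ hc (f z)⁻¹ (inv_ne_zero hfz)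
    have h8 : (f z)⁻¹ • Ψ w = Φ w := by
      show (f z)⁻¹ • (f z • Φ w) = Φ w
      rw [smul_smul, inv_mul_cancel₀ hfz, one_smul]
    rwa [h8] at h7
  have hΨp : ∀ w, phi l (F w) = (f w / f z) • Ψ w := by
    intro w
    show _ = (f w / f z) • (f z • Φ w)
    rw [smul_smul, div_mul_cancel₀ _ hfz]
    exact hphi w
  have hΨL : IsLiftB l X T F Ψ := ⟨hΨE, fun w => f w / f z, hf.div_const _, hΨp⟩
  rw [down_eq hX hl hTX hT hq E' hF hΨL]
  have hΨz : Ψ z = phi l y := by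
    rw [← hFz, hphi z]
  have hm2 := hlc Ψ hΨE z hΨz
  -- the point
  have e1 : τ (a⁻¹ • phi l y b) = τ y := by
    have h7 := h2.self_of_nhds
    show τ (a⁻¹ • (l b y • y)) = τ y
    rw [smul_smul]
    exact h7
  -- the derivative
  have hFt : Tendsto F (𝓝 z) (𝓝 y) := by
    rw [← hFz]
    exact (hF.diff z).continuousAt
  have hft : Tendsto (fun w => f w / f z) (𝓝 z) (𝓝 1) := by
    have h7 : Tendsto f (𝓝 z) (𝓝 (f z)) := (hf z).continuousAt
    have h8 := h7.div_const (f z)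
    rwa [div_self hfz] at h8
  have e2 : deriv (fun w => τ (a⁻¹ • Ψ w b)) z = deriv (fun w => τ (F w)) z := by
    refine Filter.EventuallyEq.deriv_eq ?_
    have h7 : Tendsto (fun w => (F w, a⁻¹ * (l b (F w) / (f w / f z)))) (𝓝 z) (𝓝 (y, a⁻¹ * l b y)) := by
      refine hFt.prodMk_nhds (Tendsto.const_mul _ ?_)
      have h8 : Tendsto (fun w => l b (F w)) (𝓝 z) (𝓝 (l b y)) := ((l b).continuous.tendsto y).comp hFt
      have h9 := h8.div hft one_ne_zero
      rwa [div_one] at h9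
    filter_upwards [h7.eventually h2, hft.eventually_ne one_ne_zero] with w h8 h9
    have h10 : Ψ w b = (l b (F w) / (f w / f z)) • F w := by
      have h11 : l b (F w) • F w = (f w / f z) • Ψ w b := congrFun (hΨp w) b
      rw [div_eq_inv_mul, mul_smul, h11, smul_smul, inv_mul_cancel₀ h9, one_smul]
    show τ (a⁻¹ • Ψ w b) = τ (F w)
    rw [h10, smul_smul]
    exact h8
  -- the coefficient
  have e3 : ‖oC (om l j Ω) (fun p => phi l (σ p)) (τ y)‖ ^ (1 / ((2 * m : ℕ) : ℝ)) = ‖oC Ω σ (τ y)‖ ^ (1 / (m : ℝ)) := by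
    rw [oC_phi hX h.form h4 h5 h6, norm_pow, ← Real.rpow_natCast, ← Real.rpow_mul (norm_nonneg _)]
    congr 1
    have hm' : (m : ℝ) ≠ 0 := by
      have : m ≠ 0 := by omega
      exact_mod_cast this
    push_cast
    field_simp
  rw [e1, e2, e3] at hm2
  exact hm2

end Pool.Agent.H36.TB
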