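import Pool.Agent.H36.TB.EnN
import Pool.Agent.H36.TB.EnB
import Pool.Agent.H36.TB.EnT
import Pool.Agent.SY.EiI

/-!
# TB EnI: the induction over the blow-ups
-/

set_option autoImplicit false

open Topology Filter Metric

noncomputable section

namespace Pool.Agent.H36.TB

open Pool.Agent.H36.BP (EN fs wd Sub)
open Pool.Agent.H17BP (Pr Surface IsForm NoZeros NodalAt Eqs IsChart ResAt Mono LocalEq eqs_blow thin_blow resAt_blow exists_forms
  exists_finset_of_isolated exists_resAt phi_pr isForm_iff noZeros_iff surface_iff Bihol)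
open Pool.Agent.H14.KB (rhoS)
open Pool.Agent.H62.BU (blow total Ker phi om phi_smul)
open Pool.Agent.SY (Ent Energy ModelS IsLiftB down modelS_blow exists_equiv_sum)

/-- a smooth point of `T` is resolved -/
theorem resAt_of_smooth {V : Type} [NormedAddCommGroup V] [NormedSpace ℂ V] {X T : Set V} {σ : ℂ × ℂ → V} {τ : V → ℂ × ℂ} (hσ : IsChart X σ τ)
    (hT : ∀ᶠ p in 𝓝 (0 : ℂ × ℂ), (σ p ∈ T ↔ p.1 = 0)) : ResAt X T (σ 0) 0 := by
  refine ⟨σ, τ, fun p => p.1, hσ, rfl, ⟨analyticAt_fst, hT⟩, ?_⟩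
  refine ⟨fun p => p.1, fun p => p.2, 1, 0, fun _ => 1, Bihol.id, analyticAt_const, one_ne_zero, Eventually.of_forall fun x => ?_⟩
  simp

/-- descent from the blow-up -/
theorem hasEnergyB_blow {V : Type} [NormedAddCommGroup V] [NormedSpace ℂ V] [FiniteDimensional ℂ V] {r : ℕ} {l : Fin r → V →L[ℂ] ℂ}
    {X T : Set V} {q : V} {m j : ℕ} {Ω : V → V → V → ℂ} {κ : Type} [Fintype κ] {Q : κ → V → ℂ} {D : ℕ} (h : ModelS X T m j Ω Q D)
    (hl : Ker l q) (hq : q ∈ T) (hq0 : ¬ ResAt X T q 0) {θ κ₁ : ℝ}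
    (H : HasEnergyB (blow l X) (total l X T) (2 * m) j (om l j Ω) (fun (p : κ × Fin r) (y : Fin r → V) => Q p.1 (y p.2)) D θ κ₁) :
    HasEnergyB X T m j Ω Q D θ κ₁ := by
  intro N L
  have hX := h.surf
  have hTX : T ⊆ X := h.eqs.sub
  have hT := h.eqs.cone h.surf.smul
  have hr : 0 < r := by
    rcases Nat.eq_zero_or_pos r with h0 | h0
    · exfalso
      subst h0
      obtain ⟨σ, τ, hσ, hσ0⟩ := hX.chart q (hTX hq)
      obtain ⟨p, hp, hp2⟩ := ((h.thin σ τ hσ).and_eventually hσ.σ_mem).exists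
      obtain ⟨c, hc⟩ := (hl (σ p)).1 fun i => i.elim0
      have hc0 : c ≠ 0 := by
        rintro rfl
        rw [zero_smul] at hc
        exact hX.zero (hc ▸ hp2)
      exact hp (hc ▸ hT q hq c hc0)
    · exact h0
  obtain ⟨N', L', hL'⟩ := exists_equiv_sum L r hr
  obtain ⟨M, c₀, C, k, g, pn, D₁, hM, hk, hk1, hk2, E, ht⟩ := H N' L'
  refine ⟨M, c₀, C, k, down l X T g, fun x => pn (phi l x), 2 * D₁, hM, hk, hk1, hk2, energyB_blow h hl hq L L' hL' hM E, fun x hx => ?_⟩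
  by_cases hxq : Pr x q
  · intro σ τ hσ hσ0 hσT
    exfalso
    exact hq0 ((hσ0 ▸ resAt_of_smooth hσ hσT : ResAt X T x 0).pr h.surf.smul hT hxq.symm)
  · refine tbAt_blow h hl hq E hx hxq (ht _ ?_)
    have h1 : ∃ b, l b x ≠ 0 := by
      by_contra hcon
      push Not at hcon
      obtain ⟨c, hc⟩ := (hl x).1 hcon
      apply hxq
      refine ⟨c, ?_, hc⟩
      rintro rfl
      rw [zero_smul] at hc
      exact hX.zero (hc ▸ hx)
    refine ⟨subset_closure ⟨x, hx, h1, 1, one_ne_zero, (one_smul _ _).symm⟩, Pool.Agent.H62.BU.phi_ne h1⟩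

/-- The statement for models which are resolved by `n` blow-ups over every point. -/
def EnBN (n : ℕ) : Prop :=
  ∀ (V : Type) [NormedAddCommGroup V] [NormedSpace ℂ V] [FiniteDimensional ℂ V] (X T : Set V) (m j : ℕ)
    (Ω : V → V → V → ℂ) (κ : Type) [Fintype κ] (Q : κ → V → ℂ) (D : ℕ), ModelS X T m j Ω Q D →
    (∀ x ∈ X, ResAt X T x n) → ∀ θ κ₁ : ℝ, 0 < θ → θ < 1 → 0 < κ₁ → HasEnergyB X T m j Ω Q D θ κ₁

theorem enBN_zero : EnBN 0 := by
  intro V _ _ _ X T m j Ω κ _ Q D h h0 θ κ₁ hθ hθ1 hκ₁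
  exact energyB_nodal h (fun x hx => (h0 x hx).nodal) hθ hθ1 hκ₁

theorem enBN_step {n : ℕ} (ih : EnBN n) : ∀ (k : ℕ) (V : Type) [NormedAddCommGroup V] [NormedSpace ℂ V]
    [FiniteDimensional ℂ V] (X T : Set V) (m j : ℕ) (Ω : V → V → V → ℂ) (κ : Type) [Fintype κ]
    (Q : κ → V → ℂ) (D : ℕ), ModelS X T m j Ω Q D → (∀ x ∈ X, ResAt X T x (n + 1)) →
    (∃ F : Finset V, F.card ≤ k ∧ ∀ x ∈ X, ResAt X T x n ∨ ∃ q ∈ F, Pr x q) →
    ∀ θ κ₁ : ℝ, 0 < θ → θ < 1 → 0 < κ₁ → HasEnergyB X T m j Ω Q D θ κ₁ := by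
  intro k
  induction k with
  | zero =>
    intro V _ _ _ X T m j Ω κ _ Q D h h0 hF
    obtain ⟨F, hF1, hF2⟩ := hF
    have hF0 : F = ∅ := Finset.card_eq_zero.1 (by omega)
    refine ih V X T m j Ω κ Q D h fun x hx => ?_
    rcases hF2 x hx with h1 | ⟨q, hq, -⟩
    · exact h1
    · rw [hF0] at hq
      simp at hq
  | succ k ihk =>
    intro V _ _ _ X T m j Ω κ _ Q D h h0 hF θ κ₁ hθ hθ1 hκ₁
    obtain ⟨F, hF1, hF2⟩ := hF
    have hX := h.surf.smul
    have hB := h.eqs.cone h.surf.smul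
    by_cases hall : ∀ x ∈ X, ResAt X T x n
    · exact ih V X T m j Ω κ Q D h hall θ κ₁ hθ hθ1 hκ₁
    push Not at hall
    obtain ⟨x₀, hx₀, hx₀n⟩ := hall
    rcases hF2 x₀ hx₀ with h1 | ⟨q, hqF, hxq⟩
    · exact absurd h1 hx₀n
    have hqX : q ∈ X := (hxq.mem_iff hX).1 hx₀
    have hqn : ¬ ResAt X T q n := fun h1 => hx₀n (h1.pr hX hB hxq)
    have hq0 : ¬ ResAt X T q 0 := fun h1 => hqn (h1.mono_le (Nat.zero_le n))
    have hqB : q ∈ T := by
      by_contra hqB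
      exact hq0 (ResAt.of_notMem h.surf h.eqs hqX hqB)
    have hqne : q ≠ 0 := fun e => h.surf.zero (e ▸ hqX)
    obtain ⟨r, l, hl⟩ := exists_forms hqne
    classical
    refine hasEnergyB_blow h hl hqB hq0 ?_
    refine ihk (Fin r → V) (blow l X) (total l X T) (2 * m) j (om l j Ω) (κ × Fin r) _ D
      (modelS_blow h hl hqB) ?_ ⟨(F.erase q).image (phi l), ?_, ?_⟩ θ κ₁ hθ hθ1 hκ₁
    · intro y hy
      rcases resAt_blow h.surf h.eqs hl hqB (h0 q hqX) hq0 hy with h1 | ⟨x, hx, -, -, h2⟩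
      · exact h1.mono_le (Nat.le_succ n)
      · exact h2 _ (h0 x hx)
    · have h1 := Finset.card_image_le (s := F.erase q) (f := phi l)
      have h2 := Finset.card_erase_of_mem hqF
      omega
    · intro y hy
      rcases resAt_blow h.surf h.eqs hl hqB (h0 q hqX) hq0 hy with h1 | ⟨x, hx, hxq', hyx, h2⟩
      · exact Or.inl h1
      · rcases hF2 x hx with h3 | ⟨q', hq'F, hxq''⟩
        · exact Or.inl (h2 _ h3)
        · refine Or.inr ⟨phi l q', Finset.mem_image_of_mem _ (Finset.mem_erase.2 ⟨?_, hq'F⟩),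
            hyx.trans (phi_pr hxq'')⟩
          rintro rfl
          exact hxq' hxq''

theorem enBN (n : ℕ) : EnBN n := by
  induction n with
  | zero => exact enBN_zero
  | succ n ih =>
    intro V _ _ _ X T m j Ω κ _ Q D h h0
    obtain ⟨F, -, hF⟩ := h.exists_finset
    refine enBN_step ih F.card V X T m j Ω κ Q D h h0 ⟨F, le_rfl, fun x hx => ?_⟩
    rcases hF x hx with h1 | h1
    · exact Or.inl (h1.mono_le (Nat.zero_le n))
    · exact Or.inr h1

/-- The induction: the energy with the weight, for every model. -/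
theorem energyB_of_model {V : Type} [NormedAddCommGroup V] [NormedSpace ℂ V] {X T : Set V} [FiniteDimensional ℂ V] {m j : ℕ}
    {Ω : V → V → V → ℂ} {κ : Type} [Fintype κ] {Q : κ → V → ℂ} {D : ℕ}
    (h : ModelS X T m j Ω Q D) {θ κ₁ : ℝ} (hθ : 0 < θ) (hθ1 : θ < 1) (hκ₁ : 0 < κ₁) : HasEnergyB X T m j Ω Q D θ κ₁ := by
  classical
  have hX := h.surf.smul
  have hB := h.eqs.cone h.surf.smul
  obtain ⟨F, hFX, hF⟩ := h.exists_finset
  have h1 : ∀ q : V, ∃ n, q ∈ F → ResAt X T q n := by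
    intro q
    by_cases hq : q ∈ F
    · obtain ⟨n, hn⟩ := exists_resAt h.surf h.eqs h.thin (hFX q hq)
      exact ⟨n, fun _ => hn⟩
    · exact ⟨0, fun h2 => absurd h2 hq⟩
  choose n hn using h1
  refine enBN (F.sup n) V X T m j Ω κ Q D h (fun x hx => ?_) θ κ₁ hθ hθ1 hκ₁
  rcases hF x hx with h2 | ⟨q, hq, hxq⟩
  · exact h2.mono_le (Nat.zero_le _)
  · exact ((hn q hq).mono_le (Finset.le_sup (f := n) hq)).pr hX hB hxq

end Pool.Agent.H36.TB
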