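import Pool.Agent.H36.TB.Defs
import Pool.Agent.H36.BP.MaxP
import Pool.Agent.H36.BP.SubB

/-!
# TB EnM: the maximum principle for the weighted energy
-/

set_option autoImplicit false

open Topology Filter Metric

noncomputable section

namespace Pool.Agent.H36.TB

open Pool.Agent.H36.BP (EN fs wd Sub Sub.mul Sub.anti Sub.exp_sq max_principle)
open Pool.Agent.H17BP (Pr Surface IsForm NoZeros NodalAt Eqs IsChart ResAt)
open Pool.Agent.SY (Ent Energy ModelS)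

variable {V : Type} [NormedAddCommGroup V] [NormedSpace ℂ V] {X T : Set V}

/-- the coefficient of the form is continuous -/
theorem oC_continuousAt {m j : ℕ} {Ω : V → V → V → ℂ} (hΩ : IsForm X m j Ω) {σ : ℂ × ℂ → V} {τ : V → ℂ × ℂ} (hσ : IsChart X σ τ) :
    ContinuousAt (oC Ω σ) 0 :=
  (hΩ.analytic σ 0 hσ.σ_an hσ.σ_mem).continuousAt

/-- The weighted energy is upper semicontinuous, with the value `0` at the zeros of the weight. -/
theorem weighted_usc {nu rho : V → ℝ} {m j : ℕ} {Ω : V → V → V → ℂ} {M : ℕ} {c₀ C θ : ℝ} {g : (ℂ → V) → ℂ → ℝ} {pn : V → ℝ} {D₁ : ℕ}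
    (hX : Surface X) (hΩ : IsForm X m j Ω) (hm : 1 ≤ m) (hj : 1 ≤ j) (hθ : 0 < θ) (hθ1 : θ < 1)
    (E : EnergyB X T m j Ω nu rho M c₀ C g pn D₁ θ) {F : ℂ → V} (hF : Ent X T F) :
    UpperSemicontinuous fun z => g F z * pn (F z) ^ (-(θ * j / (m * D₁))) := by
  have hm0 : (0 : ℝ) < m := by exact_mod_cast hm
  have hj0 : (0 : ℝ) < j := by exact_mod_cast hj
  have hD0 : (0 : ℝ) < D₁ := by exact_mod_cast E.one_le
  obtain ⟨γ, hγ⟩ : ∃ γ : ℝ, γ = θ * j / (m * D₁) := ⟨_, rfl⟩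
  have hγ0 : 0 < γ := by rw [hγ]; positivity
  rw [← hγ]
  intro z₀ b hb
  have hpc : ContinuousAt (fun z => pn (F z)) z₀ := E.pn_cont.continuousAt.comp hF.diff.continuous.continuousAt
  rcases (E.pn_nonneg (F z₀)).eq_or_lt with h0 | h0
  · -- a zero of the weight
    have hb0 : 0 < b := by
      have h1 : g F z₀ * pn (F z₀) ^ (-γ) = 0 := by
        rw [← h0, Real.zero_rpow (by linarith), mul_zero]
      have h2 : g F z₀ * pn (F z₀) ^ (-γ) < b := hb
      rwa [h1] at h2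
    obtain ⟨σ, τ, hσ, hσ0⟩ := hX.chart (F z₀) (hF.mem z₀)
    obtain ⟨B, hB, hub⟩ := E.ub F hF z₀ σ τ hσ hσ0
    have hτ : Tendsto (fun z => τ (F z)) (𝓝 z₀) (𝓝 0) := by
      have h1 : ContinuousAt τ (F z₀) := by
        have h2 := hσ.τ_an.continuousAt
        rwa [hσ0] at h2
      have h2 : τ (F z₀) = 0 := by
        rw [← hσ0]
        exact hσ.left.self_of_nhds
      have h3 : ContinuousAt (fun z => τ (F z)) z₀ := ContinuousAt.comp (f := F) (g := τ) h1 hF.diff.continuous.continuousAt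
      have h4 : Tendsto (fun z => τ (F z)) (𝓝 z₀) (𝓝 (τ (F z₀))) := h3
      rwa [h2] at h4
    have hoc : ∀ᶠ z in 𝓝 z₀, ‖oC Ω σ (τ (F z))‖ ≤ ‖oC Ω σ 0‖ + 1 := by
      have h1 := ((oC_continuousAt hΩ hσ).norm.tendsto.comp hτ).eventually (gt_mem_nhds (show ‖oC Ω σ 0‖ < ‖oC Ω σ 0‖ + 1 by linarith))
      exact h1.mono fun z hz => le_of_lt hz
    have he : 0 < (j : ℝ) / (m * D₁) - γ := by
      have h1 : γ = θ * ((j : ℝ) / (m * D₁)) := by rw [hγ]; ring
      have h2 : 0 < (j : ℝ) / (m * D₁) := by positivity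
      rw [h1]
      nlinarith
    have hlim : Tendsto (fun z => B * (‖oC Ω σ 0‖ + 1) ^ (1 / (m : ℝ)) * pn (F z) ^ ((j : ℝ) / (m * D₁) - γ)) (𝓝 z₀) (𝓝 0) := by
      have h1 : Tendsto (fun z => pn (F z) ^ ((j : ℝ) / (m * D₁) - γ)) (𝓝 z₀) (𝓝 ((0 : ℝ) ^ ((j : ℝ) / (m * D₁) - γ))) := by
        have h2 : Tendsto (fun z => pn (F z)) (𝓝 z₀) (𝓝 0) := by
          have h3 := hpc.tendsto
          rwa [← h0] at h3
        exact h2.rpow_const (Or.inr he.le)
      rw [Real.zero_rpow he.ne'] at h1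
      have h2 := h1.const_mul (B * (‖oC Ω σ 0‖ + 1) ^ (1 / (m : ℝ)))
      rwa [mul_zero] at h2
    filter_upwards [hub, hoc, hlim.eventually (gt_mem_nhds hb0)] with z h1 h2 h3
    show g F z * pn (F z) ^ (-γ) < b
    rcases (E.pn_nonneg (F z)).eq_or_lt with h4 | h4
    · rw [← h4, Real.zero_rpow (by linarith), mul_zero]
      exact hb0
    · refine lt_of_le_of_lt ?_ h3
      have h5 : ‖oC Ω σ (τ (F z))‖ ^ (1 / (m : ℝ)) ≤ (‖oC Ω σ 0‖ + 1) ^ (1 / (m : ℝ)) :=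
        Real.rpow_le_rpow (norm_nonneg _) h2 (by positivity)
      have h6 : pn (F z) ^ ((j : ℝ) / (m * D₁)) * pn (F z) ^ (-γ) = pn (F z) ^ ((j : ℝ) / (m * D₁) - γ) := by
        rw [← Real.rpow_add h4, sub_eq_add_neg]
      calc g F z * pn (F z) ^ (-γ) ≤ B * ‖oC Ω σ (τ (F z))‖ ^ (1 / (m : ℝ)) * pn (F z) ^ ((j : ℝ) / (m * D₁)) * pn (F z) ^ (-γ) :=
            mul_le_mul_of_nonneg_right h1 (Real.rpow_nonneg h4.le _)
        _ = B * ‖oC Ω σ (τ (F z))‖ ^ (1 / (m : ℝ)) * pn (F z) ^ ((j : ℝ) / (m * D₁) - γ) := by rw [mul_assoc, h6]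
        _ ≤ B * (‖oC Ω σ 0‖ + 1) ^ (1 / (m : ℝ)) * pn (F z) ^ ((j : ℝ) / (m * D₁) - γ) := by gcongr
  · -- the weight is positive
    have hwc : ContinuousAt (fun z => pn (F z) ^ (-γ)) z₀ := hpc.rpow_const (Or.inl h0.ne')
    have hw0 : 0 < pn (F z₀) ^ (-γ) := Real.rpow_pos_of_pos h0 _
    have hb' : g F z₀ * pn (F z₀) ^ (-γ) < b := hb
    have hg0 := E.nonneg F hF z₀
    -- choose `a > g` and `ω > weight` with `a ω < b`
    obtain ⟨a, ha1, ha2⟩ : ∃ a, g F z₀ < a ∧ a * pn (F z₀) ^ (-γ) < b := by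
      have h1 : g F z₀ < b / pn (F z₀) ^ (-γ) := by rwa [lt_div_iff₀ hw0]
      obtain ⟨a, h2, h3⟩ := exists_between h1
      exact ⟨a, h2, by rwa [lt_div_iff₀ hw0] at h3⟩
    have ha0 : 0 < a := lt_of_le_of_lt hg0 ha1
    have h2 : ∀ᶠ z in 𝓝 z₀, a * pn (F z) ^ (-γ) < b := (hwc.const_mul a |>.tendsto).eventually (gt_mem_nhds ha2)
    filter_upwards [E.usc F hF z₀ a ha1, h2, hpc.eventually (lt_mem_nhds h0)] with z h3 h4 h5
    exact lt_of_le_of_lt (mul_le_mul_of_nonneg_right h3.le (Real.rpow_nonneg h5.le _)) h4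

/-- The maximum principle for the weighted energy.  `A` is a bound of the energy. -/
theorem maxP {nu rho : V → ℝ} {m j : ℕ} {Ω : V → V → V → ℂ} {M : ℕ} {c₀ C θ : ℝ} {g : (ℂ → V) → ℂ → ℝ} {pn : V → ℝ} {D₁ : ℕ}
    (hX : Surface X) (hΩ : IsForm X m j Ω) (hm : 1 ≤ m) (hj : 1 ≤ j) (hθ : 0 < θ) (hθ1 : θ < 1)
    (E : EnergyB X T m j Ω nu rho M c₀ C g pn D₁ θ) {A : ℝ} {F : ℂ → V} (hF : Ent X T F) (hA : ∀ z, g F z ≤ A) {w : ℂ} {R : ℝ} (hR : 0 < R)
    {z : ℂ} (hz : z ∈ ball w R) :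
    ∃ y ∈ sphere w R, g F z * pn (F z) ^ (-(θ * j / (m * D₁))) * Real.exp (C * A ^ 2 * ‖z - w‖ ^ 2) ≤
      g F y * pn (F y) ^ (-(θ * j / (m * D₁))) * Real.exp (C * A ^ 2 * R ^ 2) := by
  have husc := weighted_usc hX hΩ hm hj hθ hθ1 E hF
  have hsub := E.subP F hF
  obtain ⟨v, hv⟩ : ∃ v : ℂ → ℝ, v = fun z => g F z * pn (F z) ^ (-(θ * j / (m * D₁))) := ⟨_, rfl⟩
  have hv' : ∀ z, g F z * pn (F z) ^ (-(θ * j / (m * D₁))) = v z := fun z => by rw [hv]
  rw [← hv] at husc hsub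
  simp only [hv']
  have hv0 : ∀ z, 0 ≤ v z := fun z => by
    rw [hv]
    exact mul_nonneg (E.nonneg F hF z) (Real.rpow_nonneg (E.pn_nonneg _) _)
  have hC := E.C_pos
  have hA0 : 0 ≤ A := (E.nonneg F hF 0).trans (hA 0)
  -- the maximum over the circle
  obtain ⟨y, hy, hmax⟩ := UpperSemicontinuousOn.exists_isMaxOn (NormedSpace.sphere_nonempty.2 hR.le) (isCompact_sphere w R)
    (husc.upperSemicontinuousOn (sphere w R))
  refine ⟨y, hy, ?_⟩
  have key : ∀ ε : ℝ, 0 < ε → v z * Real.exp ((C * A ^ 2 + ε) * ‖z - w‖ ^ 2) ≤ v y * Real.exp ((C * A ^ 2 + ε) * R ^ 2) := by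
    intro ε hε
    have hec : Continuous fun z : ℂ => Real.exp ((C * A ^ 2 + ε) * ‖z - w‖ ^ 2) := by fun_prop
    have h1 : UpperSemicontinuousOn (fun z => v z * Real.exp ((C * A ^ 2 + ε) * ‖z - w‖ ^ 2)) (closedBall w R) := by
      intro x _ b hb
      have hb' : v x * Real.exp ((C * A ^ 2 + ε) * ‖x - w‖ ^ 2) < b := hb
      have hE : 0 < Real.exp ((C * A ^ 2 + ε) * ‖x - w‖ ^ 2) := Real.exp_pos _
      obtain ⟨a, ha1, ha2⟩ : ∃ a, v x < a ∧ a * Real.exp ((C * A ^ 2 + ε) * ‖x - w‖ ^ 2) < b := by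
        have h1 : v x < b / Real.exp ((C * A ^ 2 + ε) * ‖x - w‖ ^ 2) := by rwa [lt_div_iff₀ hE]
        obtain ⟨a, h2, h3⟩ := exists_between h1
        exact ⟨a, h2, by rwa [lt_div_iff₀ hE] at h3⟩
      have h2 : ∀ᶠ z in 𝓝 x, a * Real.exp ((C * A ^ 2 + ε) * ‖z - w‖ ^ 2) < b :=
        ((hec.continuousAt.const_mul a).tendsto).eventually (gt_mem_nhds ha2)
      refine Filter.Eventually.filter_mono nhdsWithin_le_nhds ?_
      filter_upwards [husc x a ha1, h2] with z h3 h4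
      exact lt_of_le_of_lt (mul_le_mul_of_nonneg_right (le_of_lt h3) (Real.exp_pos _).le) h4
    refine max_principle (isCompact_closedBall w R) isOpen_ball ball_subset_closedBall h1 (fun x hx hpos => ?_)
      (mul_nonneg (hv0 y) (Real.exp_pos _).le) (fun x hx => ?_) z (ball_subset_closedBall hz)
    · have hvx : 0 < v x := by
        by_contra hcon
        have h2 : v x = 0 := le_antisymm (not_lt.1 hcon) (hv0 x)
        rw [h2, zero_mul] at hpos
        exact lt_irrefl _ hpos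
      have hgx : 0 < g F x := by
        rcases (E.nonneg F hF x).eq_or_lt with h2 | h2
        · exfalso
          rw [hv] at hvx
          simp only [← h2, zero_mul] at hvx
          exact lt_irrefl _ hvx
        · exact h2
      refine ⟨ε, hε, ?_⟩
      have h2 := (hsub x hgx).mul (Sub.exp_sq (t := fun z : ℂ => z - w) (z₀ := x) (by fun_prop) (C * A ^ 2 + ε))
      refine h2.anti ?_
      have h3 : deriv (fun z : ℂ => z - w) x = 1 := by simp
      rw [h3, norm_one, one_pow, mul_one]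
      have h4 : g F x ^ 2 ≤ A ^ 2 := pow_le_pow_left₀ hgx.le (hA x) 2
      nlinarith
    · have h2 : x ∈ sphere w R := by
        rw [mem_sphere]
        refine le_antisymm (mem_closedBall.1 hx.1) (not_lt.1 fun h => hx.2 (mem_ball.2 h))
      have h3 : v x ≤ v y := hmax h2
      have h4 : ‖x - w‖ = R := by rw [← dist_eq_norm]; exact mem_sphere.1 h2
      rw [h4]
      exact mul_le_mul_of_nonneg_right h3 (Real.exp_pos _).le
  -- the limit
  have hl1 : Tendsto (fun ε : ℝ => v z * Real.exp ((C * A ^ 2 + ε) * ‖z - w‖ ^ 2)) (𝓝[>] 0) (𝓝 (v z * Real.exp (C * A ^ 2 * ‖z - w‖ ^ 2))) := by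
    have h1 : Continuous fun ε : ℝ => v z * Real.exp ((C * A ^ 2 + ε) * ‖z - w‖ ^ 2) := by fun_prop
    have h2 := h1.tendsto 0
    rw [add_zero] at h2
    exact h2.mono_left nhdsWithin_le_nhds
  have hl2 : Tendsto (fun ε : ℝ => v y * Real.exp ((C * A ^ 2 + ε) * R ^ 2)) (𝓝[>] 0) (𝓝 (v y * Real.exp (C * A ^ 2 * R ^ 2))) := by
    have h1 : Continuous fun ε : ℝ => v y * Real.exp ((C * A ^ 2 + ε) * R ^ 2) := by fun_prop
    have h2 := h1.tendsto 0
    rw [add_zero] at h2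
    exact h2.mono_left nhdsWithin_le_nhds
  exact le_of_tendsto_of_tendsto hl1 hl2 (eventually_nhdsWithin_of_forall fun ε hε => key ε hε)

end Pool.Agent.H36.TB
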