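import Pool.Agent.H36.TB.Met
import Pool.Agent.H14.KB.KobNodal

/-!
# TB Nod: the metric of the nodal case with two-sided bounds, for surfaces in `ℙ(V)`
-/

set_option autoImplicit false

open Topology Filter Metric

noncomputable section

namespace Pool.Agent.H36.TB

open Pool.Agent.H36.BP
open Pool.Agent.H14.PP (IsCone IsOpenPart IsEq IsNodal Form HasType DType Chart ACoef aCoef rho)
open Pool.Agent.H17BP (Surface IsForm NoZeros NodalAt IsChart)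

variable {N : ℕ}

/-- the chart of a germ of a chart, with the parametrisation -/
theorem exists_chartP {X : Set (EN N)} (hX : IsCone X) {σ : ℂ × ℂ → EN N} {τ : EN N → ℂ × ℂ} (h : IsGermChart X σ τ)
    {S : ℂ × ℂ → Prop} (hnd : ∀ᶠ p in 𝓝 (0 : ℂ × ℂ), S p) :
    ∃ (χ : Chart X) (r : ℝ) (a : ℂ × ℂ → ℂ), 0 < r ∧ ∀ p ∈ ball (0 : ℂ × ℂ) 2, a p ≠ 0 ∧ AnalyticAt ℂ a p ∧
      χ.σ p = a p • σ ((r : ℂ) • p) ∧ AnalyticAt ℂ σ ((r : ℂ) • p) ∧ S ((r : ℂ) • p) := by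
  have hσ0 : σ 0 ≠ 0 := by
    intro h0
    have h1 := h.σ_mem.self_of_nhds
    rw [h0] at h1
    exact hX.zero_notMem h1
  -- the linear form
  obtain ⟨ℓ, hℓ⟩ : ∃ ℓ : EN N →L[ℂ] ℂ, ℓ (σ 0) = 1 := by
    have hne : inner ℂ (σ 0) (σ 0) ≠ (0 : ℂ) := inner_self_ne_zero.mpr hσ0
    refine ⟨(inner ℂ (σ 0) (σ 0) : ℂ)⁻¹ • innerSL ℂ (σ 0), ?_⟩
    simp only [_root_.smul_apply, innerSL_apply_apply, smul_eq_mul]
    exact inv_mul_cancel₀ hne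
  -- the normalised parametrisation
  have hℓσ : ContinuousAt (fun p => ℓ (σ p)) 0 := ℓ.continuous.continuousAt.comp h.σ_an.continuousAt
  have hℓne : ∀ᶠ p in 𝓝 (0 : ℂ × ℂ), ℓ (σ p) ≠ 0 := hℓσ.eventually_ne (by rw [hℓ]; exact one_ne_zero)
  have hinvσ : ∀ᶠ p in 𝓝 (0 : ℂ × ℂ), τ ((ℓ (σ p))⁻¹ • σ p) = τ (σ p) := by
    have hc : Tendsto (fun p => (σ p, (ℓ (σ p))⁻¹)) (𝓝 (0 : ℂ × ℂ)) (𝓝 (σ 0, (1 : ℂ))) := by
      have h1 : Tendsto (fun p => (ℓ (σ p))⁻¹) (𝓝 (0 : ℂ × ℂ)) (𝓝 (ℓ (σ 0))⁻¹) := hℓσ.inv₀ (by rw [hℓ]; exact one_ne_zero)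
      rw [hℓ, inv_one] at h1
      exact h.σ_an.continuousAt.prodMk_nhds h1
    exact hc.eventually h.inv
  -- the neighbourhood W₀
  have hW : ∀ᶠ y in 𝓝 (σ 0), AnalyticAt ℂ τ y ∧ (y ∈ X → ∃ c : ℂ, c ≠ 0 ∧ y = c • σ (τ y)) := h.τ_an.eventually_analyticAt.and h.right
  obtain ⟨W₀, hW₀s, hW₀o, hW₀m⟩ := _root_.eventually_nhds_iff.mp hW
  have hσ₁ : Tendsto (fun p => (ℓ (σ p))⁻¹ • σ p) (𝓝 (0 : ℂ × ℂ)) (𝓝 (σ 0)) := by
    have h1 : Tendsto (fun p => (ℓ (σ p))⁻¹) (𝓝 (0 : ℂ × ℂ)) (𝓝 (ℓ (σ 0))⁻¹) := hℓσ.inv₀ (by rw [hℓ]; exact one_ne_zero)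
    have h2 := h1.smul h.σ_an.continuousAt
    rwa [hℓ, inv_one, one_smul] at h2
  have hσ₁W : ∀ᶠ p in 𝓝 (0 : ℂ × ℂ), (ℓ (σ p))⁻¹ • σ p ∈ W₀ := hσ₁.eventually (hW₀o.mem_nhds hW₀m)
  obtain ⟨R, hR, hall⟩ := Metric.eventually_nhds_iff_ball.mp
    ((((((h.σ_an.eventually_analyticAt.and h.σ_mem).and h.left).and hℓne).and hinvσ).and hσ₁W).and hnd)
  set r : ℝ := R / 2 with hr
  have hr0 : 0 < r := by rw [hr]; positivity
  have hrC : (r : ℂ) ≠ 0 := by exact_mod_cast hr0.ne'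
  have hball : ∀ p ∈ ball (0 : ℂ × ℂ) 2, (r : ℂ) • p ∈ ball (0 : ℂ × ℂ) R := by
    intro p hp
    rw [mem_ball_zero_iff] at hp ⊢
    rw [norm_smul, Complex.norm_real, Real.norm_of_nonneg hr0.le, hr]
    nlinarith
  have hτσ : ∀ p ∈ ball (0 : ℂ × ℂ) R, τ ((ℓ (σ p))⁻¹ • σ p) = p := by
    intro p hp
    rw [(hall p hp).1.1.2, (hall p hp).1.1.1.1.2]
  set U : Set (EN N) := {x | ℓ x ≠ 0 ∧ (ℓ x)⁻¹ • x ∈ W₀ ∧ ‖τ ((ℓ x)⁻¹ • x)‖ < R} with hU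
  have hmaps : ∀ x : EN N, ℓ x ≠ 0 → ∀ c : ℂ, c ≠ 0 → (ℓ (c • x))⁻¹ • (c • x) = (ℓ x)⁻¹ • x := by
    intro x hx c hc
    rw [map_smul, smul_eq_mul, smul_smul, mul_inv, mul_comm c⁻¹, mul_assoc, inv_mul_cancel₀ hc, mul_one]
  have han1 : ∀ x : EN N, ℓ x ≠ 0 → AnalyticAt ℂ (fun y : EN N => (ℓ y)⁻¹ • y) x := by
    intro x hx
    exact ((ℓ.analyticAt x).inv hx).smul analyticAt_id
  have hanq : ∀ x ∈ U, AnalyticAt ℂ (fun y : EN N => τ ((ℓ y)⁻¹ • y)) x := by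
    intro x hx
    exact AnalyticAt.fun_comp (hW₀s _ hx.2.1).1 (han1 x hx.1)
  have hUopen : IsOpen U := by
    rw [isOpen_iff_mem_nhds]
    intro x hx
    have h1 : ∀ᶠ y in 𝓝 x, ℓ y ≠ 0 := ℓ.continuous.continuousAt.eventually_ne hx.1
    have h2 : ∀ᶠ y in 𝓝 x, (ℓ y)⁻¹ • y ∈ W₀ := (han1 x hx.1).continuousAt.eventually (hW₀o.mem_nhds hx.2.1)
    have h3 : ∀ᶠ y in 𝓝 x, ‖τ ((ℓ y)⁻¹ • y)‖ < R := (hanq x hx).continuousAt.norm.eventually_lt_const hx.2.2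
    filter_upwards [h1, h2, h3] with y h4 h5 h6
    exact ⟨h4, h5, h6⟩
  let χ : Chart X :=
    { σ := fun p => (ℓ (σ ((r : ℂ) • p)))⁻¹ • σ ((r : ℂ) • p)
      U := U
      q := fun x => (r : ℂ)⁻¹ • τ ((ℓ x)⁻¹ • x)
      isOpen_U := hUopen
      smul_U := by
        rintro x ⟨h1, h2, h3⟩ c hc
        refine ⟨?_, ?_, ?_⟩
        · rw [map_smul, smul_eq_mul]
          exact mul_ne_zero hc h1
        · rw [hmaps x h1 c hc]; exact h2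
        · rw [hmaps x h1 c hc]; exact h3
      σ_an := by
        intro p hp
        have h1 := (hall _ (hball p hp)).1.1.1.1.1.1
        have h2 : AnalyticAt ℂ (fun p : ℂ × ℂ => σ ((r : ℂ) • p)) p :=
          AnalyticAt.fun_comp h1 (analyticAt_const.fun_smul analyticAt_id)
        have h3 : AnalyticAt ℂ (fun p : ℂ × ℂ => ℓ (σ ((r : ℂ) • p))) p := (ℓ.analyticAt _).fun_comp h2
        exact (h3.inv (hall _ (hball p hp)).1.1.1.2).smul h2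
      q_an := by
        intro x hx
        exact analyticAt_const.fun_smul (hanq x hx)
      q_smul := by
        rintro x ⟨h1, h2, h3⟩ c hc
        show (r : ℂ)⁻¹ • τ ((ℓ (c • x))⁻¹ • (c • x)) = _
        rw [hmaps x h1 c hc]
      σ_mem := by
        intro p hp
        have hb := hball p hp
        have hh := hall _ hb
        have hne := hh.1.1.1.2
        have h1 : ℓ ((ℓ (σ ((r : ℂ) • p)))⁻¹ • σ ((r : ℂ) • p)) = 1 := by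
          rw [map_smul, smul_eq_mul, inv_mul_cancel₀ hne]
        have h2 : τ ((ℓ (σ ((r : ℂ) • p)))⁻¹ • σ ((r : ℂ) • p)) = (r : ℂ) • p := hτσ _ hb
        refine ⟨hX.smul_mem _ hh.1.1.1.1.1.2 _ (inv_ne_zero hne), ⟨?_, ?_, ?_⟩, ?_⟩
        · rw [h1]; exact one_ne_zero
        · rw [h1, inv_one, one_smul]; exact hh.1.2
        · rw [h1, inv_one, one_smul, h2]
          exact mem_ball_zero_iff.mp hb
        · show (r : ℂ)⁻¹ • τ ((ℓ ((ℓ (σ ((r : ℂ) • p)))⁻¹ • σ ((r : ℂ) • p)))⁻¹ • ((ℓ (σ ((r : ℂ) • p)))⁻¹ • σ ((r : ℂ) • p))) = p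
          rw [h1, inv_one, one_smul, h2, smul_smul, inv_mul_cancel₀ hrC, one_smul]
      surj := by
        rintro x hxX ⟨h1, h2, h3⟩
        have hyX : (ℓ x)⁻¹ • x ∈ X := hX.smul_mem _ hxX _ (inv_ne_zero h1)
        obtain ⟨c, hc0, hc⟩ := (hW₀s _ h2).2 hyX
        have hτb : τ ((ℓ x)⁻¹ • x) ∈ ball (0 : ℂ × ℂ) R := mem_ball_zero_iff.mpr h3
        have hrq : (r : ℂ) • ((r : ℂ)⁻¹ • τ ((ℓ x)⁻¹ • x)) = τ ((ℓ x)⁻¹ • x) := by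
          rw [smul_smul, mul_inv_cancel₀ hrC, one_smul]
        refine ⟨?_, ?_⟩
        · show (r : ℂ)⁻¹ • τ ((ℓ x)⁻¹ • x) ∈ ball (0 : ℂ × ℂ) 2
          rw [mem_ball_zero_iff, norm_smul, norm_inv, Complex.norm_real, Real.norm_of_nonneg hr0.le, inv_mul_lt_iff₀ hr0, hr]
          linarith
        · refine ⟨ℓ x * c * ℓ (σ (τ ((ℓ x)⁻¹ • x))), ?_, ?_⟩
          · exact mul_ne_zero (mul_ne_zero h1 hc0) (hall _ hτb).1.1.1.2
          · show x = (ℓ x * c * ℓ (σ (τ ((ℓ x)⁻¹ • x)))) •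
              ((ℓ (σ ((r : ℂ) • ((r : ℂ)⁻¹ • τ ((ℓ x)⁻¹ • x)))))⁻¹ • σ ((r : ℂ) • ((r : ℂ)⁻¹ • τ ((ℓ x)⁻¹ • x))))
            rw [hrq, smul_smul, mul_assoc, mul_inv_cancel₀ (hall _ hτb).1.1.1.2, mul_one, mul_smul, ← hc, smul_smul, mul_inv_cancel₀ h1, one_smul] }
  refine ⟨χ, r, fun p => (ℓ (σ ((r : ℂ) • p)))⁻¹, hr0, fun p hp => ?_⟩
  have hh := hall _ (hball p hp)
  have hne := hh.1.1.1.2
  have h1 := hh.1.1.1.1.1.1
  have h2 : AnalyticAt ℂ (fun p : ℂ × ℂ => σ ((r : ℂ) • p)) p :=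
    AnalyticAt.fun_comp h1 (analyticAt_const.fun_smul analyticAt_id)
  have h3 : AnalyticAt ℂ (fun p : ℂ × ℂ => ℓ (σ ((r : ℂ) • p))) p := (ℓ.analyticAt _).fun_comp h2
  exact ⟨inv_ne_zero hne, h3.inv hne, rfl, h1, hh.2⟩

/-! ## the transformation of the coefficient of the form and of the metric -/

section transfer

variable {V : Type} [NormedAddCommGroup V] [NormedSpace ℂ V] {X : Set V} {m j : ℕ} {Ω : V → V → V → ℂ}

/-- the coefficient in the chart -/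
theorem ACoef_germ (L : V ≃L[ℂ] EN N) (hX : Surface X) (hm : 1 ≤ m) (hΩ : IsForm X m j Ω) {σ : ℂ × ℂ → V}
    {χ : Chart (L.symm ⁻¹' X : Set (EN N))} {r : ℝ} {a : ℂ × ℂ → ℂ} (hr : 0 < r)
    (h : ∀ p ∈ ball (0 : ℂ × ℂ) 2, a p ≠ 0 ∧ AnalyticAt ℂ a p ∧
      χ.σ p = a p • L (σ ((r : ℂ) • p)) ∧ AnalyticAt ℂ (fun p => L (σ p)) ((r : ℂ) • p) ∧
        (AnalyticAt ℂ σ ((r : ℂ) • p) ∧ ∀ᶠ q in 𝓝 ((r : ℂ) • p), σ q ∈ X)) {p : ℂ × ℂ} (hp : p ∈ ball (0 : ℂ × ℂ) 2) :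
    (∀ w, fderiv ℂ χ.σ p w = a p • ((r : ℂ) • L (fderiv ℂ σ ((r : ℂ) • p) w)) + (fderiv ℂ a p w) • L (σ ((r : ℂ) • p))) ∧
    ACoef (formT L hΩ) χ p = r ^ 2 * (‖oC Ω σ ((r : ℂ) • p)‖ ^ (1 / (m : ℝ)) * ‖L (σ ((r : ℂ) • p))‖ ^ ((j : ℝ) / m)) := by
  obtain ⟨ha0, haa, hσ, -, hσa, hσX⟩ := h p hp
  have hF : IsForm X m j Ω := hΩ
  -- the derivative
  have hd : ∀ w, fderiv ℂ χ.σ p w = a p • ((r : ℂ) • L (fderiv ℂ σ ((r : ℂ) • p) w)) + (fderiv ℂ a p w) • L (σ ((r : ℂ) • p)) := by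
    intro w
    have hev : χ.σ =ᶠ[𝓝 p] fun q => a q • L (σ ((r : ℂ) • q)) := by
      filter_upwards [isOpen_ball.mem_nhds hp] with q hq
      exact (h q hq).2.2.1
    have h1 : HasFDerivAt (fun q : ℂ × ℂ => (r : ℂ) • q) ((r : ℂ) • ContinuousLinearMap.id ℂ (ℂ × ℂ)) p :=
      (hasFDerivAt_id p).const_smul (r : ℂ)
    have h2 : HasFDerivAt (fun q => σ ((r : ℂ) • q)) ((fderiv ℂ σ ((r : ℂ) • p)).comp ((r : ℂ) • ContinuousLinearMap.id ℂ (ℂ × ℂ))) p :=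
      HasFDerivAt.comp (g := σ) (f := fun q : ℂ × ℂ => (r : ℂ) • q) p hσa.differentiableAt.hasFDerivAt h1
    have h3 : HasFDerivAt (fun q => L (σ ((r : ℂ) • q)))
        ((L : V →L[ℂ] EN N).comp ((fderiv ℂ σ ((r : ℂ) • p)).comp ((r : ℂ) • ContinuousLinearMap.id ℂ (ℂ × ℂ)))) p :=
      HasFDerivAt.comp (g := fun y => L y) (f := fun q => σ ((r : ℂ) • q)) p (L : V →L[ℂ] EN N).hasFDerivAt h2
    have h4 := (haa.differentiableAt.hasFDerivAt.smul h3).congr_of_eventuallyEq hev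
    rw [h4.fderiv]
    simp
  refine ⟨hd, ?_⟩
  -- the tangent vectors
  set x : V := σ ((r : ℂ) • p) with hx
  set a₀ := a p with ha₀
  have hrC : (r : ℂ) ≠ 0 := by exact_mod_cast hr.ne'
  set v₁ : V := fderiv ℂ σ ((r : ℂ) • p) (1, 0) with hv₁
  set v₂ : V := fderiv ℂ σ ((r : ℂ) • p) (0, 1) with hv₂
  have hxX : x ∈ X := hσX.self_of_nhds
  have haxX : a₀ • x ∈ X := hX.smul x hxX a₀ ha0
  have htan : ∀ (φ : ℂ × ℂ → V) (q : ℂ × ℂ), AnalyticAt ℂ φ q → (∀ᶠ y in 𝓝 q, φ y ∈ X) → ∀ w,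
      fderiv ℂ φ q w ∈ Pool.Agent.H17BP.Tan X (φ q) := by
    intro φ q hφ hφX w
    have e0 : q + (0 : ℂ) • w = q := by rw [zero_smul, add_zero]
    have hlin : AnalyticAt ℂ (fun z : ℂ => q + z • w) 0 := by fun_prop
    refine ⟨fun z => φ (q + z • w), ?_, ?_, by simp, ?_⟩
    · exact AnalyticAt.comp (g := φ) (f := fun z : ℂ => q + z • w) (by rw [e0]; exact hφ) hlin
    · have ht : Tendsto (fun z : ℂ => q + z • w) (𝓝 0) (𝓝 q) := by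
        have := hlin.continuousAt.tendsto
        rwa [e0] at this
      exact ht.eventually hφX
    · have h1 : HasFDerivAt φ (fderiv ℂ φ q) (q + (0 : ℂ) • w) := by
        rw [e0]
        exact hφ.differentiableAt.hasFDerivAt
      have h2 : HasDerivAt (fun z : ℂ => q + z • w) w 0 := by
        have h3 : HasDerivAt (fun z : ℂ => z • w) ((1 : ℂ) • w) 0 := (hasDerivAt_id (0 : ℂ)).smul_const w
        rw [one_smul] at h3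
        exact h3.const_add q
      exact (h1.comp_hasDerivAt (0 : ℂ) h2).deriv
  have t₁ : ∀ w, fderiv ℂ σ ((r : ℂ) • p) w ∈ Pool.Agent.H17BP.Tan X x := fun w => htan σ _ hσa hσX w
  have t₂ : ∀ w, a₀ • fderiv ℂ σ ((r : ℂ) • p) w ∈ Pool.Agent.H17BP.Tan X (a₀ • x) := by
    intro w
    have h1 := htan (fun y => a₀ • σ y) ((r : ℂ) • p) (analyticAt_const.fun_smul hσa) (by
      filter_upwards [hσX] with y hy
      exact hX.smul _ hy _ ha0) w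
    have h2 : fderiv ℂ (fun y => a₀ • σ y) ((r : ℂ) • p) w = a₀ • fderiv ℂ σ ((r : ℂ) • p) w := by
      have h3 : HasFDerivAt (fun y => a₀ • σ y) (a₀ • fderiv ℂ σ ((r : ℂ) • p)) ((r : ℂ) • p) :=
        hσa.differentiableAt.hasFDerivAt.const_smul a₀
      rw [h3.fderiv]
      rfl
    rwa [h2] at h1
  have t₃ : ∀ w, a₀ • ((r : ℂ) • fderiv ℂ σ ((r : ℂ) • p) w) ∈ Pool.Agent.H17BP.Tan X (a₀ • x) := by
    intro w
    have h1 := t₂ ((r : ℂ) • w)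
    rwa [map_smul] at h1
  -- the coefficient
  have hcoef : a₀ ^ j * aCoef (formT L hΩ) χ p = ((r : ℂ) * r) ^ m * oC Ω σ ((r : ℂ) • p) := by
    have e1 : aCoef (formT L hΩ) χ p = Ω (a₀ • x) (a₀ • ((r : ℂ) • v₁) + (fderiv ℂ a p (1, 0) * a₀⁻¹) • (a₀ • x))
        (a₀ • ((r : ℂ) • v₂) + (fderiv ℂ a p (0, 1) * a₀⁻¹) • (a₀ • x)) := by
      show Ω (L.symm (χ.σ p)) (L.symm (fderiv ℂ χ.σ p (1, 0))) (L.symm (fderiv ℂ χ.σ p (0, 1))) = _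
      rw [hσ, hd, hd]
      simp only [map_add, map_smul, L.symm_apply_apply, smul_smul, mul_assoc, inv_mul_cancel₀ ha0, mul_one]
      rfl
    have e2 := hF.add_smul (a₀ • x) haxX _ (t₃ (1, 0)) _ (t₃ (0, 1)) (fderiv ℂ a p (1, 0) * a₀⁻¹) (fderiv ℂ a p (0, 1) * a₀⁻¹)
    have e3 := hF.det (a₀ • x) haxX _ (t₂ (1, 0)) _ (t₂ (0, 1)) (r : ℂ) 0 0 (r : ℂ)
    have e4 := hF.scale x hxX _ (t₁ (1, 0)) _ (t₁ (0, 1)) a₀ ha0
    rw [zero_smul, add_zero, zero_smul, zero_add] at e3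
    rw [e1, e2, smul_comm a₀ (r : ℂ) v₁, smul_comm a₀ (r : ℂ) v₂, e3]
    have e5 : ((r : ℂ) * r - 0 * 0) = (r : ℂ) * r := by ring
    rw [e5]
    show a₀ ^ j * (((r : ℂ) * r) ^ m * Ω (a₀ • x) (a₀ • v₁) (a₀ • v₂)) = _
    rw [mul_left_comm, e4]
    rfl
  have hn : ‖a₀‖ ^ j * ‖aCoef (formT L hΩ) χ p‖ = (r ^ 2) ^ m * ‖oC Ω σ ((r : ℂ) • p)‖ := by
    have h1 := congrArg norm hcoef
    rw [norm_mul, norm_mul, norm_pow, norm_pow, norm_mul, Complex.norm_real, Real.norm_of_nonneg hr.le] at h1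
    rw [h1]
    ring
  have hmR : (0 : ℝ) < (m : ℝ) := by exact_mod_cast hm
  have han : 0 < ‖a₀‖ := norm_pos_iff.2 ha0
  have hroot : (‖a₀‖ ^ j * ‖aCoef (formT L hΩ) χ p‖) ^ (1 / (m : ℝ)) = ((r ^ 2) ^ m * ‖oC Ω σ ((r : ℂ) • p)‖) ^ (1 / (m : ℝ)) := by
    rw [hn]
  rw [Real.mul_rpow (by positivity) (norm_nonneg _), Real.mul_rpow (by positivity) (norm_nonneg _),
    ← Real.rpow_natCast ‖a₀‖ j, ← Real.rpow_natCast (r ^ 2) m,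
    ← Real.rpow_mul han.le, ← Real.rpow_mul (by positivity)] at hroot
  have h1 : (m : ℝ) * (1 / (m : ℝ)) = 1 := by
    field_simp
  have h2 : (j : ℝ) * (1 / (m : ℝ)) = (j : ℝ) / m := by ring
  rw [h1, h2, Real.rpow_one] at hroot
  unfold ACoef
  rw [hσ, norm_smul, Real.mul_rpow han.le (norm_nonneg _)]
  calc ‖aCoef (formT L hΩ) χ p‖ ^ (1 / (m : ℝ)) * (‖a₀‖ ^ ((j : ℝ) / m) * ‖L x‖ ^ ((j : ℝ) / m))
      = (‖a₀‖ ^ ((j : ℝ) / m) * ‖aCoef (formT L hΩ) χ p‖ ^ (1 / (m : ℝ))) * ‖L x‖ ^ ((j : ℝ) / m) := by ring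
    _ = _ := by rw [hroot]; ring

/-- change of the scale of the parameters -/
theorem rpow_scale {κ x y R : ℝ} (hκ0 : 0 ≤ κ) (hκ : κ ≤ 1 / 4) (hx : 0 ≤ x) (hy : 0 ≤ y) (hR : 1 ≤ R) (h : x ≤ R * y) :
    x ^ (1 - κ) ≤ R * y ^ (1 - κ) := by
  refine (Real.rpow_le_rpow hx h (by linarith)).trans ?_
  rw [Real.mul_rpow (by linarith) hy]
  refine mul_le_mul_of_nonneg_right ?_ (Real.rpow_nonneg hy _)
  have := Real.rpow_le_rpow_of_exponent_le hR (show 1 - κ ≤ 1 by linarith)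
  rwa [Real.rpow_one] at this

theorem sm_scale {κ R : ℝ} (hκ0 : 0 ≤ κ) (hκ : κ ≤ 1 / 4) (hR : 1 ≤ R) {p q : ℂ × ℂ} (h : ‖p.1‖ ≤ R * ‖q.1‖) (w : ℂ × ℂ) :
    sm κ p w ≤ R * sm κ q w := by
  have h1 := rpow_scale hκ0 hκ (norm_nonneg p.1) (norm_nonneg q.1) hR h
  have h2 := norm_nonneg w.2
  unfold sm
  rw [mul_max_of_nonneg _ _ (by linarith : 0 ≤ R)]
  refine max_le_max ?_ ?_
  · exact le_mul_of_one_le_left (norm_nonneg _) hR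
  · rw [← mul_assoc]
    exact mul_le_mul_of_nonneg_right h1 h2

theorem sn_scale {κ R : ℝ} (hκ0 : 0 ≤ κ) (hκ : κ ≤ 1 / 4) (hR : 1 ≤ R) {p q : ℂ × ℂ} (h : ‖p.1‖ ≤ R * ‖q.1‖) (h' : ‖p.2‖ ≤ R * ‖q.2‖)
    (w : ℂ × ℂ) : sn κ p w ≤ R * sn κ q w := by
  have h1 := rpow_scale hκ0 hκ (norm_nonneg p.1) (norm_nonneg q.1) hR h
  have h1' := rpow_scale hκ0 hκ (norm_nonneg p.2) (norm_nonneg q.2) hR h'
  unfold sn
  rw [mul_max_of_nonneg _ _ (by linarith : 0 ≤ R)]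
  refine max_le_max ?_ ?_
  · rw [← mul_assoc]
    exact mul_le_mul_of_nonneg_right h1' (norm_nonneg _)
  · rw [← mul_assoc]
    exact mul_le_mul_of_nonneg_right h1 (norm_nonneg _)

/-- the bounds in terms of the germ `σ` from the bounds in terms of the chart -/
theorem transfer (L : V ≃L[ℂ] EN N) (hX : Surface X) (hm : 1 ≤ m) (hΩ : IsForm X m j Ω) {σ : ℂ × ℂ → V} {τ : V → ℂ × ℂ}
    (hc : IsChart X σ τ) {B : Set (EN N)} {G : EN N → EN N → ℝ} {ρ : EN N → ℝ} {M : ℕ} {c₀ C : ℝ}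
    (hG : MetricData (L.symm ⁻¹' X : Set (EN N)) B G ρ M c₀ C) {S : ℂ × ℂ → Prop} (hS : ∀ᶠ p in 𝓝 (0 : ℂ × ℂ), S p) :
    ∃ (χ : Chart (L.symm ⁻¹' X : Set (EN N))) (r : ℝ) (a : ℂ × ℂ → ℂ), 0 < r ∧
      (∀ p ∈ ball (0 : ℂ × ℂ) 2, a p ≠ 0 ∧ χ.σ p = a p • L (σ ((r : ℂ) • p)) ∧ S ((r : ℂ) • p)) ∧
      ∀ md : ℂ × ℂ → ℂ × ℂ → ℝ, (∀ y w, 0 ≤ md y w) → ∀ R : ℝ, 1 ≤ R → (∀ p w, md p w ≤ R * md ((r : ℂ) • p) w) →
        (∀ p w, md ((r : ℂ) • p) w ≤ R * md p w) →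
        ((∃ B : ℝ, 1 ≤ B ∧ ∀ᶠ y in 𝓝 (0 : ℂ × ℂ), ∀ w, G (χ.σ y) (fderiv ℂ χ.σ y w) ≤ B * (ACoef (formT L hΩ) χ y * md y w)) →
          ∃ A : ℝ, 1 ≤ A ∧ ∀ᶠ p in 𝓝 (0 : ℂ × ℂ), ∀ w,
            G (L (σ p)) (L (fderiv ℂ σ p w)) ≤ A * (‖oC Ω σ p‖ ^ (1 / (m : ℝ)) * md p w)) ∧
        ((∃ B : ℝ, 1 ≤ B ∧ ∀ᶠ y in 𝓝 (0 : ℂ × ℂ), ∀ w, ACoef (formT L hΩ) χ y * md y w ≤ B * G (χ.σ y) (fderiv ℂ χ.σ y w)) →
          ∃ A : ℝ, 1 ≤ A ∧ ∀ᶠ p in 𝓝 (0 : ℂ × ℂ), ∀ w,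
            ‖oC Ω σ p‖ ^ (1 / (m : ℝ)) * md p w ≤ A * G (L (σ p)) (L (fderiv ℂ σ p w))) := by
  have hcone : IsCone (L.symm ⁻¹' X : Set (EN N)) := isCone_transport L hX
  have hg := germ_transport L hc
  have : FiniteDimensional ℂ V := L.symm.toLinearEquiv.finiteDimensional
  have : CompleteSpace V := FiniteDimensional.complete ℂ V
  have hσ0 : ∀ᶠ p in 𝓝 (0 : ℂ × ℂ), AnalyticAt ℂ σ p ∧ ∀ᶠ q in 𝓝 p, σ q ∈ X :=
    hc.σ_an.eventually_analyticAt.and hc.σ_mem.eventually_nhds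
  obtain ⟨χ, r, a, hr, hall⟩ := exists_chartP hcone hg (S := fun p => (AnalyticAt ℂ σ p ∧ ∀ᶠ q in 𝓝 p, σ q ∈ X) ∧ S p) (hσ0.and hS)
  have hrC : (r : ℂ) ≠ 0 := by exact_mod_cast hr.ne'
  refine ⟨χ, r, a, hr, fun p hp => ⟨(hall p hp).1, (hall p hp).2.2.1, (hall p hp).2.2.2.2.2⟩, fun md hmd R hR h1 h2 => ?_⟩
  have hall' : ∀ p ∈ ball (0 : ℂ × ℂ) 2, a p ≠ 0 ∧ AnalyticAt ℂ a p ∧
      χ.σ p = a p • L (σ ((r : ℂ) • p)) ∧ AnalyticAt ℂ (fun p => L (σ p)) ((r : ℂ) • p) ∧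
        (AnalyticAt ℂ σ ((r : ℂ) • p) ∧ ∀ᶠ q in 𝓝 ((r : ℂ) • p), σ q ∈ X) := fun p hp =>
    ⟨(hall p hp).1, (hall p hp).2.1, (hall p hp).2.2.1, (hall p hp).2.2.2.1, (hall p hp).2.2.2.2.1⟩
  -- the metric
  have hGt : ∀ p ∈ ball (0 : ℂ × ℂ) 2, ∀ w, G (χ.σ p) (fderiv ℂ χ.σ p w) =
      r * G (L (σ ((r : ℂ) • p))) (L (fderiv ℂ σ ((r : ℂ) • p) w)) := by
    intro p hp w
    obtain ⟨b1, b2, b3, b4, b5, b6⟩ := hall' p hp
    have hmem : L (σ ((r : ℂ) • p)) ∈ (L.symm ⁻¹' X : Set (EN N)) := by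
      show L.symm (L (σ ((r : ℂ) • p))) ∈ X
      rw [L.symm_apply_apply]
      exact b6.self_of_nhds
    rw [(ACoef_germ L hX hm hΩ hr hall' hp).1 w, b3, hG.inv _ hmem _ _ _ b1, hG.hom _ hmem, Complex.norm_real, Real.norm_of_nonneg hr.le]
  -- the norm of the parametrisation
  set n₀ : ℝ := ‖L (σ 0)‖ with hn₀
  have hn₀0 : 0 < n₀ := norm_pos_iff.2 fun h0 => hc.ne (L.map_eq_zero_iff.1 h0)
  have hmR : (0 : ℝ) < (m : ℝ) := by exact_mod_cast hm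
  have hjm : 0 ≤ (j : ℝ) / m := by positivity
  have hcont : ContinuousAt (fun p => ‖L (σ p)‖) 0 := (hg.σ_an.continuousAt).norm
  have f1 : ∀ᶠ p in 𝓝 (0 : ℂ × ℂ), n₀ / 2 < ‖L (σ p)‖ := hcont.eventually (lt_mem_nhds (by linarith))
  have f2 : ∀ᶠ p in 𝓝 (0 : ℂ × ℂ), ‖L (σ p)‖ < n₀ + 1 := hcont.eventually (gt_mem_nhds (by linarith))
  set A₁ : ℝ := (n₀ / 2) ^ ((j : ℝ) / m) with hA₁
  set A₂ : ℝ := (n₀ + 1) ^ ((j : ℝ) / m) with hA₂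
  have hA₁0 : 0 < A₁ := Real.rpow_pos_of_pos (by linarith) _
  have hA₂0 : 0 < A₂ := Real.rpow_pos_of_pos (by linarith) _
  have hinv : Tendsto (fun p : ℂ × ℂ => (r : ℂ)⁻¹ • p) (𝓝 0) (𝓝 0) := by
    have h3 : Continuous (fun p : ℂ × ℂ => (r : ℂ)⁻¹ • p) := by fun_prop
    have := h3.tendsto 0
    rwa [smul_zero] at this
  have hb : ∀ᶠ p in 𝓝 (0 : ℂ × ℂ), (r : ℂ)⁻¹ • p ∈ ball (0 : ℂ × ℂ) 2 := hinv.eventually (ball_mem_nhds 0 (by norm_num))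
  have hrr : ∀ p : ℂ × ℂ, (r : ℂ) • ((r : ℂ)⁻¹ • p) = p := fun p => by rw [smul_smul, mul_inv_cancel₀ hrC, one_smul]
  constructor
  · rintro ⟨B₁, hB₁, hev⟩
    refine ⟨max 1 (B₁ * r * A₂ * R), le_max_left _ _, ?_⟩
    filter_upwards [hinv.eventually hev, hb, f2] with p e1 e2 e3 w
    have e4 := e1 w
    rw [hGt _ e2, (ACoef_germ L hX hm hΩ hr hall' e2).2, hrr] at e4
    have e5 : ‖L (σ p)‖ ^ ((j : ℝ) / m) ≤ A₂ := Real.rpow_le_rpow (norm_nonneg _) e3.le hjm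
    have e6 : md ((r : ℂ)⁻¹ • p) w ≤ R * md p w := by
      have := h1 ((r : ℂ)⁻¹ • p) w
      rwa [hrr] at this
    have e7 : 0 ≤ md p w := hmd p w
    have e8 : 0 ≤ ‖oC Ω σ p‖ ^ (1 / (m : ℝ)) := Real.rpow_nonneg (norm_nonneg _) _
    have e9 : 0 ≤ ‖L (σ p)‖ ^ ((j : ℝ) / m) := Real.rpow_nonneg (norm_nonneg _) _
    have e10 : 0 ≤ md ((r : ℂ)⁻¹ • p) w := hmd _ w
    have e11 : r * G (L (σ p)) (L (fderiv ℂ σ p w)) ≤ r * (B₁ * r * A₂ * R * (‖oC Ω σ p‖ ^ (1 / (m : ℝ)) * md p w)) := by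
      refine e4.trans ?_
      calc B₁ * (r ^ 2 * (‖oC Ω σ p‖ ^ (1 / (m : ℝ)) * ‖L (σ p)‖ ^ ((j : ℝ) / m)) * md ((r : ℂ)⁻¹ • p) w)
          ≤ B₁ * (r ^ 2 * (‖oC Ω σ p‖ ^ (1 / (m : ℝ)) * A₂) * (R * md p w)) := by gcongr
        _ = _ := by ring
    have e12 : G (L (σ p)) (L (fderiv ℂ σ p w)) ≤ B₁ * r * A₂ * R * (‖oC Ω σ p‖ ^ (1 / (m : ℝ)) * md p w) :=
      le_of_mul_le_mul_left e11 hr
    exact e12.trans (mul_le_mul_of_nonneg_right (le_max_right _ _) (mul_nonneg e8 e7))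
  · rintro ⟨B₁, hB₁, hev⟩
    refine ⟨max 1 (B₁ * R / (r * A₁)), le_max_left _ _, ?_⟩
    filter_upwards [hinv.eventually hev, hb, f1, hc.σ_mem] with p e1 e2 e3 e0 w
    have e4 := e1 w
    rw [hGt _ e2, (ACoef_germ L hX hm hΩ hr hall' e2).2, hrr] at e4
    have e5 : A₁ ≤ ‖L (σ p)‖ ^ ((j : ℝ) / m) := Real.rpow_le_rpow (by linarith) e3.le hjm
    have e6 : md p w ≤ R * md ((r : ℂ)⁻¹ • p) w := by
      have := h2 ((r : ℂ)⁻¹ • p) w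
      rwa [hrr] at this
    have e7 : 0 ≤ md p w := hmd p w
    have e8 : 0 ≤ ‖oC Ω σ p‖ ^ (1 / (m : ℝ)) := Real.rpow_nonneg (norm_nonneg _) _
    have e10 : 0 ≤ md ((r : ℂ)⁻¹ • p) w := hmd _ w
    have hmem : L (σ p) ∈ (L.symm ⁻¹' X : Set (EN N)) := by
      show L.symm (L (σ p)) ∈ X
      rw [L.symm_apply_apply]
      exact e0
    have e9 : 0 ≤ G (L (σ p)) (L (fderiv ℂ σ p w)) := hG.nonneg _ hmem _
    have e11 : r * (r * A₁ * (‖oC Ω σ p‖ ^ (1 / (m : ℝ)) * md p w)) ≤ r * (B₁ * R * G (L (σ p)) (L (fderiv ℂ σ p w))) := by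
      calc r * (r * A₁ * (‖oC Ω σ p‖ ^ (1 / (m : ℝ)) * md p w))
          = r ^ 2 * (‖oC Ω σ p‖ ^ (1 / (m : ℝ)) * A₁) * md p w := by ring
        _ ≤ r ^ 2 * (‖oC Ω σ p‖ ^ (1 / (m : ℝ)) * ‖L (σ p)‖ ^ ((j : ℝ) / m)) * (R * md ((r : ℂ)⁻¹ • p) w) := by gcongr
        _ = R * (r ^ 2 * (‖oC Ω σ p‖ ^ (1 / (m : ℝ)) * ‖L (σ p)‖ ^ ((j : ℝ) / m)) * md ((r : ℂ)⁻¹ • p) w) := by ring
        _ ≤ R * (B₁ * (r * G (L (σ p)) (L (fderiv ℂ σ p w)))) := mul_le_mul_of_nonneg_left e4 (by linarith)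
        _ = _ := by ring
    have e12 := le_of_mul_le_mul_left e11 hr
    have e13 : 0 < r * A₁ := by positivity
    calc ‖oC Ω σ p‖ ^ (1 / (m : ℝ)) * md p w = (r * A₁)⁻¹ * (r * A₁ * (‖oC Ω σ p‖ ^ (1 / (m : ℝ)) * md p w)) := by
          field_simp
      _ ≤ (r * A₁)⁻¹ * (B₁ * R * G (L (σ p)) (L (fderiv ℂ σ p w))) := mul_le_mul_of_nonneg_left e12 (by positivity)
      _ = B₁ * R / (r * A₁) * G (L (σ p)) (L (fderiv ℂ σ p w)) := by ring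
      _ ≤ _ := mul_le_mul_of_nonneg_right (le_max_right _ _) e9

end transfer

/-- MODULE Nod: `H14.KB.nodal_metric` with the bounds, in terms of the charts of the surface in `ℙ(V)`. -/
theorem nodal_metric_tb {V : Type} [NormedAddCommGroup V] [NormedSpace ℂ V] {N : ℕ} (L : V ≃L[ℂ] EN N)
    {W : Type} [NormedAddCommGroup W] [InnerProductSpace ℂ W] {X B : Set V} {m j : ℕ}
    {Ω : V → V → V → ℂ} {Q : V → W} {D : ℕ} (hX : Surface X) (hQ : ∀ x, AnalyticAt ℂ Q x)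
    (hQs : ∀ (c : ℂ) (x : V), Q (c • x) = c ^ D • Q x) (hB : ∀ x, x ∈ B ↔ x ∈ X ∧ Q x = 0)
    (hn : ∀ x ∈ X, NodalAt X B x) (hm : 1 ≤ m) (hj : 1 ≤ j) (hΩ : IsForm X m j Ω)
    (hz : NoZeros X B Ω) {c₀ κ₁ : ℝ} (hc₀ : 0 < c₀) (hc₁ : c₀ < j / m) (hκ₁ : 0 < κ₁) :
    Pool.Agent.H14.PP.IsEq (L.symm ⁻¹' X : Set (EN N)) (L.symm ⁻¹' B) (fun y => Q (L.symm y)) D ∧
    ∃ (M : ℕ) (κ C : ℝ) (G : EN N → EN N → ℝ), 0 < κ ∧ κ ≤ κ₁ ∧ κ ≤ 1 / 4 ∧ MetricData (L.symm ⁻¹' X : Set (EN N))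
      ((L.symm ⁻¹' X : Set (EN N)) ∩ L.symm ⁻¹' B) G
      (Pool.Agent.H14.PP.rho (fun y => Q (L.symm y)) D) M c₀ C ∧
      (∀ σ τ, IsChart X σ τ → ∃ A : ℝ, 1 ≤ A ∧ ∀ᶠ p in 𝓝 (0 : ℂ × ℂ), ∀ w,
        G (L (σ p)) (L (fderiv ℂ σ p w)) ≤ A * (‖oC Ω σ p‖ ^ (1 / (m : ℝ)) * ‖w‖)) ∧
      (∀ σ τ, IsChart X σ τ → σ 0 ∉ B → ∃ A : ℝ, 1 ≤ A ∧ ∀ᶠ p in 𝓝 (0 : ℂ × ℂ), ∀ w,
        ‖oC Ω σ p‖ ^ (1 / (m : ℝ)) * ‖w‖ ≤ A * G (L (σ p)) (L (fderiv ℂ σ p w))) ∧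
      (∀ σ τ, IsChart X σ τ → (∀ᶠ p in 𝓝 (0 : ℂ × ℂ), (σ p ∈ B ↔ p.1 = 0)) →
        ∃ A : ℝ, 1 ≤ A ∧ ∀ᶠ p in 𝓝 (0 : ℂ × ℂ), ∀ w,
          ‖oC Ω σ p‖ ^ (1 / (m : ℝ)) * sm κ p w ≤ A * G (L (σ p)) (L (fderiv ℂ σ p w)) ∧
          G (L (σ p)) (L (fderiv ℂ σ p w)) ≤ A * (‖oC Ω σ p‖ ^ (1 / (m : ℝ)) * sm κ p w)) ∧
      ∀ σ τ, IsChart X σ τ → (∀ᶠ p in 𝓝 (0 : ℂ × ℂ), (σ p ∈ B ↔ p.1 * p.2 = 0)) →
        ∃ A : ℝ, 1 ≤ A ∧ ∀ᶠ p in 𝓝 (0 : ℂ × ℂ), ∀ w,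
          ‖oC Ω σ p‖ ^ (1 / (m : ℝ)) * sn κ p w ≤ A * G (L (σ p)) (L (fderiv ℂ σ p w)) ∧
          G (L (σ p)) (L (fderiv ℂ σ p w)) ≤ A * (‖oC Ω σ p‖ ^ (1 / (m : ℝ)) * sn κ p w) := by
  set X' : Set (EN N) := L.symm ⁻¹' X with hX'
  set T' : Set (EN N) := L.symm ⁻¹' B with hT'
  have hBs : ∀ x ∈ B, ∀ c : ℂ, c ≠ 0 → c • x ∈ B := by
    intro x hx c hc
    obtain ⟨h1, h2⟩ := (hB x).mp hx
    exact (hB _).mpr ⟨hX.smul x h1 c hc, by rw [hQs, h2, smul_zero]⟩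
  have hBX : B ⊆ X := fun x hx => ((hB x).mp hx).1
  have hcone : IsCone X' := isCone_transport L hX
  have hT's : ∀ x ∈ T', ∀ c : ℂ, c ≠ 0 → c • x ∈ T' := by
    intro x hx c hc
    show L.symm (c • x) ∈ B
    rw [map_smul]
    exact hBs _ hx c hc
  have hopen : IsOpenPart X' X' := ⟨le_refl _, hcone.smul_mem, fun x _ => Filter.Eventually.of_forall fun y h => h⟩
  have hiff : ∀ y : V, (L y ∈ T' ↔ y ∈ B) := by
    intro y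
    show L.symm (L y) ∈ B ↔ _
    rw [L.symm_apply_apply]
  have hnodal : IsNodal X' X' T' := by
    intro x hx
    have hxB : L.symm x ∈ B := hx
    obtain ⟨σ, τ, hc, h0, h1⟩ := hn (L.symm x) (hBX hxB)
    have hg := germ_transport L hc
    have hLσ0 : L (σ 0) = x := by rw [h0, L.apply_symm_apply]
    have hiffX : ∀ᶠ p in 𝓝 (0 : ℂ × ℂ), L (σ p) ∈ X' := by
      filter_upwards [hc.σ_mem] with p hp
      show L.symm (L (σ p)) ∈ X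
      rwa [L.symm_apply_apply]
    have hd : ∀ᶠ p in 𝓝 (0 : ℂ × ℂ), (L (σ p) ∉ X' ↔ (((false, false) : Bool × Bool).1 = true ∧ p.1 = 0) ∨
        (((false, false) : Bool × Bool).2 = true ∧ p.2 = 0)) := by
      filter_upwards [hiffX] with p hp
      simp [hp]
    rcases h1 with h1 | h1 | h1
    · exfalso
      have h2 := h1.self_of_nhds
      rw [h0] at h2
      exact h2 hxB
    · have hnd : ∀ᶠ p in 𝓝 (0 : ℂ × ℂ), (L (σ p) ∈ T' ↔ p.1 = 0 ∨ (false = true ∧ p.2 = 0)) := by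
        filter_upwards [h1] with p hp
        rw [hiff, hp]
        simp
      obtain ⟨χ, h2, h3, h4, h5⟩ := exists_chart hcone hcone.smul_mem hT's hg hnd hd
      refine ⟨χ, false, (false, false), ?_, ?_, h4, h5, by simp⟩
      · rwa [hLσ0] at h2
      · rwa [hLσ0] at h3
    · have hnd : ∀ᶠ p in 𝓝 (0 : ℂ × ℂ), (L (σ p) ∈ T' ↔ p.1 = 0 ∨ (true = true ∧ p.2 = 0)) := by
        filter_upwards [h1] with p hp
        rw [hiff, hp]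
        simp
      obtain ⟨χ, h2, h3, h4, h5⟩ := exists_chart hcone hcone.smul_mem hT's hg hnd hd
      refine ⟨χ, true, (false, false), ?_, ?_, h4, h5, by simp⟩
      · rwa [hLσ0] at h2
      · rwa [hLσ0] at h3
  have heq : IsEq X' T' (fun y => Q (L.symm y)) D := by
    refine ⟨fun x => (hQ _).comp ((L.symm : EN N →L[ℂ] V).analyticAt x), fun c x => ?_, fun x => ?_⟩
    · show Q (L.symm (c • x)) = _
      rw [map_smul, hQs]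
    · exact hB (L.symm x)
  have hnz : (formT L hΩ).NoZeroOff T' := by
    intro x hx hxT v w hv hw hli
    refine hz (L.symm x) hx hxT _ (tan_transport L hv) _ (tan_transport L hw) ?_
    have h1 := hli.map' ((L.symm : EN N →L[ℂ] V) : EN N →ₗ[ℂ] V) (LinearMap.ker_eq_bot.mpr L.symm.injective)
    have h2 : (((L.symm : EN N →L[ℂ] V) : EN N →ₗ[ℂ] V) ∘ ![x, v, w]) = ![L.symm x, L.symm v, L.symm w] := by
      funext i
      fin_cases i <;> rfl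
    rw [h2] at h1
    exact h1
  have hpole : (formT L hΩ).PoleBound X' := by
    intro χ d hd
    have hdf : d = (false, false) := by
      have h1 : d.1 = false := by
        by_contra h
        have h2 : d.1 = true := by simpa using h
        have h3 := (hd 0 (mem_ball_self (by norm_num))).mpr (Or.inl ⟨h2, rfl⟩)
        exact h3 (χ.σ_mem 0 (mem_ball_self (by norm_num))).1
      have h1' : d.2 = false := by
        by_contra h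
        have h2 : d.2 = true := by simpa using h
        have h3 := (hd 0 (mem_ball_self (by norm_num))).mpr (Or.inr ⟨h2, rfl⟩)
        exact h3 (χ.σ_mem 0 (mem_ball_self (by norm_num))).1
      exact Prod.ext h1 h1'
    refine ⟨fun p => aCoef (formT L hΩ) χ p, fun p hp => ?_, fun p hp _ => ?_⟩
    · refine (formT L hΩ).analytic χ.σ p (χ.σ_an p hp) ?_
      filter_upwards [isOpen_ball.mem_nhds hp] with q hq
      exact (χ.σ_mem q hq).1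
    · rw [hdf]
      simp [Pool.Agent.H14.PP.gD]
  refine ⟨heq, ?_⟩
  obtain ⟨M, κ, C, G, -, hκ0, hκ1, hκ4, hG, b1, b2, b3, b4⟩ := exists_metric_tb hcone hopen (fun x hx hxn => absurd hx hxn) heq hnodal hm hj
    (formT L hΩ) hnz hpole
    (hur_of_closed hcone.smul_mem (fun x hx hx0 => (hcone.closed.closure_subset_iff.mpr (Set.subset_insert 0 X') hx).resolve_left hx0))
    hc₀ hc₁ hκ₁
  have h0 : (0 : ℂ × ℂ) ∈ ball (0 : ℂ × ℂ) 2 := mem_ball_self (by norm_num)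
  have hball : ∀ᶠ y in 𝓝 (0 : ℂ × ℂ), y ∈ ball (0 : ℂ × ℂ) 2 := isOpen_ball.mem_nhds h0
  -- the scales
  have hsc : ∀ r : ℝ, 0 < r → ∃ R : ℝ, 1 ≤ R ∧ ∀ x : ℂ, ‖x‖ ≤ R * ‖(r : ℂ) * x‖ ∧ ‖(r : ℂ) * x‖ ≤ R * ‖x‖ := by
    intro r hr
    refine ⟨max 1 (max r r⁻¹), le_max_left _ _, fun x => ?_⟩
    have e1 : ‖(r : ℂ) * x‖ = r * ‖x‖ := by rw [norm_mul, Complex.norm_real, Real.norm_of_nonneg hr.le]
    rw [e1]
    have hx := norm_nonneg x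
    constructor
    · calc ‖x‖ = r⁻¹ * (r * ‖x‖) := by field_simp
        _ ≤ max 1 (max r r⁻¹) * (r * ‖x‖) :=
          mul_le_mul_of_nonneg_right ((le_max_right _ _).trans (le_max_right _ _)) (by positivity)
    · exact mul_le_mul_of_nonneg_right ((le_max_left _ _).trans (le_max_right _ _)) hx
  refine ⟨M, κ, C, G, hκ0, hκ1, hκ4, hG, ?_, ?_, ?_, ?_⟩
  · intro σ τ hc
    obtain ⟨χ, r, a, hr, hχ, htr⟩ := transfer L hX hm hΩ hc hG (S := fun _ => True) (Eventually.of_forall fun _ => trivial)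
    refine (htr (fun _ w => ‖w‖) (fun _ w => norm_nonneg w) 1 le_rfl (fun _ w => by simp) (fun _ w => by simp)).1 ?_
    obtain ⟨B₁, hB₁, hev⟩ := b1 χ 0 h0
    refine ⟨B₁, hB₁, ?_⟩
    filter_upwards [hev, hball] with y hy hyb w
    exact hy (χ.σ_mem y hyb).1 w
  · intro σ τ hc hσB
    obtain ⟨χ, r, a, hr, hχ, htr⟩ := transfer L hX hm hΩ hc hG (S := fun _ => True) (Eventually.of_forall fun _ => trivial)
    refine (htr (fun _ w => ‖w‖) (fun _ w => norm_nonneg w) 1 le_rfl (fun _ w => by simp) (fun _ w => by simp)).2 ?_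
    refine b2 χ 0 h0 fun h1 => hσB ?_
    obtain ⟨c1, c2, -⟩ := hχ 0 h0
    rw [c2, smul_zero] at h1
    have h3 := hT's _ h1 _ (inv_ne_zero c1)
    rw [smul_smul, inv_mul_cancel₀ c1, one_smul] at h3
    exact (hiff _).1 h3
  · intro σ τ hc hσB
    obtain ⟨χ, r, a, hr, hχ, htr⟩ := transfer L hX hm hΩ hc hG hσB
    obtain ⟨R, hR, hRs⟩ := hsc r hr
    have hty : HasType T' χ false := by
      intro p hp
      obtain ⟨c1, c2, c3⟩ := hχ p hp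
      have h1 : (χ.σ p ∈ T') ↔ L (σ ((r : ℂ) • p)) ∈ T' := by
        rw [c2]
        constructor
        · intro h3
          have h4 := hT's _ h3 _ (inv_ne_zero c1)
          rwa [smul_smul, inv_mul_cancel₀ c1, one_smul] at h4
        · intro h3
          exact hT's _ h3 _ c1
      rw [h1, hiff, c3]
      have hrC : (r : ℂ) ≠ 0 := by exact_mod_cast hr.ne'
      simp [hr.ne']
    obtain ⟨t1, t2⟩ := htr (fun y w => sm κ y w) (fun y w => sm_nonneg κ y w) R hR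
      (fun p w => sm_scale hκ0.le hκ4 hR (by simpa using (hRs p.1).1) w) (fun p w => sm_scale hκ0.le hκ4 hR (by simpa using (hRs p.1).2) w)
    obtain ⟨B₁, hB₁, hev⟩ := b3 χ false hty 0 (by simp) (fun h => absurd h (by decide))
    have hev' : ∀ᶠ y in 𝓝 (0 : ℂ × ℂ), ∀ w, ACoef (formT L hΩ) χ y * sm κ y w ≤ B₁ * G (χ.σ y) (fderiv ℂ χ.σ y w) ∧
          G (χ.σ y) (fderiv ℂ χ.σ y w) ≤ B₁ * (ACoef (formT L hΩ) χ y * sm κ y w) := by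
      have hev2 : ∀ᶠ y in 𝓝 (0 : ℂ × ℂ), χ.σ y ∈ X' → ∀ w, ACoef (formT L hΩ) χ y * sm κ y w ≤ B₁ * G (χ.σ y) (fderiv ℂ χ.σ y w) ∧
          G (χ.σ y) (fderiv ℂ χ.σ y w) ≤ B₁ * (ACoef (formT L hΩ) χ y * sm κ y w) := hev
      filter_upwards [hev2, hball] with y hy hyb w
      exact hy (χ.σ_mem y hyb).1 w
    obtain ⟨A₁, hA₁, g1⟩ := t1 ⟨B₁, hB₁, hev'.mono fun y hy w => (hy w).2⟩
    obtain ⟨A₂, hA₂, g2⟩ := t2 ⟨B₁, hB₁, hev'.mono fun y hy w => (hy w).1⟩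
    refine ⟨max A₁ A₂, le_max_of_le_left hA₁, ?_⟩
    filter_upwards [g1, g2, hc.σ_mem] with p f1 f2 f3 w
    have hmem : L (σ p) ∈ X' := by
      show L.symm (L (σ p)) ∈ X
      rw [L.symm_apply_apply]
      exact f3
    exact ⟨(f2 w).trans (mul_le_mul_of_nonneg_right (le_max_right _ _) (hG.nonneg _ hmem _)),
      (f1 w).trans (mul_le_mul_of_nonneg_right (le_max_left _ _)
        (mul_nonneg (Real.rpow_nonneg (norm_nonneg _) _) (sm_nonneg _ _ _)))⟩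
  · intro σ τ hc hσB
    obtain ⟨χ, r, a, hr, hχ, htr⟩ := transfer L hX hm hΩ hc hG hσB
    obtain ⟨R, hR, hRs⟩ := hsc r hr
    have hty : HasType T' χ true := by
      intro p hp
      obtain ⟨c1, c2, c3⟩ := hχ p hp
      have h1 : (χ.σ p ∈ T') ↔ L (σ ((r : ℂ) • p)) ∈ T' := by
        rw [c2]
        constructor
        · intro h3
          have h4 := hT's _ h3 _ (inv_ne_zero c1)
          rwa [smul_smul, inv_mul_cancel₀ c1, one_smul] at h4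
        · intro h3
          exact hT's _ h3 _ c1
      rw [h1, hiff, c3]
      have hrC : (r : ℂ) ≠ 0 := by exact_mod_cast hr.ne'
      simp [hr.ne']
    obtain ⟨t1, t2⟩ := htr (fun y w => sn κ y w) (fun y w => sn_nonneg κ y w) R hR
      (fun p w => sn_scale hκ0.le hκ4 hR (by simpa using (hRs p.1).1) (by simpa using (hRs p.2).1) w)
      (fun p w => sn_scale hκ0.le hκ4 hR (by simpa using (hRs p.1).2) (by simpa using (hRs p.2).2) w)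
    obtain ⟨B₁, hB₁, hev⟩ := b4 χ hty
    have hev' : ∀ᶠ y in 𝓝 (0 : ℂ × ℂ), ∀ w, ACoef (formT L hΩ) χ y * sn κ y w ≤ B₁ * G (χ.σ y) (fderiv ℂ χ.σ y w) ∧
          G (χ.σ y) (fderiv ℂ χ.σ y w) ≤ B₁ * (ACoef (formT L hΩ) χ y * sn κ y w) := by
      filter_upwards [hev, hball] with y hy hyb w
      exact hy (χ.σ_mem y hyb).1 w
    obtain ⟨A₁, hA₁, g1⟩ := t1 ⟨B₁, hB₁, hev'.mono fun y hy w => (hy w).2⟩
    obtain ⟨A₂, hA₂, g2⟩ := t2 ⟨B₁, hB₁, hev'.mono fun y hy w => (hy w).1⟩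
    refine ⟨max A₁ A₂, le_max_of_le_left hA₁, ?_⟩
    filter_upwards [g1, g2, hc.σ_mem] with p f1 f2 f3 w
    have hmem : L (σ p) ∈ X' := by
      show L.symm (L (σ p)) ∈ X
      rw [L.symm_apply_apply]
      exact f3
    exact ⟨(f2 w).trans (mul_le_mul_of_nonneg_right (le_max_right _ _) (hG.nonneg _ hmem _)),
      (f1 w).trans (mul_le_mul_of_nonneg_right (le_max_left _ _)
        (mul_nonneg (Real.rpow_nonneg (norm_nonneg _) _) (sn_nonneg _ _ _)))⟩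

end Pool.Agent.H36.TB
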