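import Pool.Agent.H36.TB.Cur
import Pool.Agent.H36.TB.Nod
import Pool.Agent.SY.EiN

/-!
# TB EnN: the energy with the two-sided bounds, the nodal case

From `nodal_metric_tb`, as in `SY/EiN`.
-/

set_option autoImplicit false

open Topology Filter Metric

noncomputable section

namespace Pool.Agent.H36.TB

open Pool.Agent.H36.BP (EN fs wd Sub MetricData mt Curve)
open Pool.Agent.H17BP (Pr Surface IsForm NoZeros NodalAt Eqs IsChart)
open Pool.Agent.H14.PP (IsCone)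
open Pool.Agent.H14.KB (rhoS rhoS_nonneg)
open Pool.Agent.SY (Ent Energy ModelS energy_of_metric energy_transport)

variable {V : Type} [NormedAddCommGroup V] [NormedSpace ℂ V]

/-- the conclusion of the induction over the blow-ups: the energy with the weight, with the two-sided bounds at all smooth points of `T` -/
def HasEnergyB (X T : Set V) (m j : ℕ) (Ω : V → V → V → ℂ) {κ : Type} [Fintype κ] (Q : κ → V → ℂ) (D : ℕ) (θ κ₁ : ℝ) : Prop :=
  ∀ (N : ℕ) (L : V ≃L[ℂ] EN N), ∃ (M : ℕ) (c₀ C k : ℝ) (g : (ℂ → V) → ℂ → ℝ) (pn : V → ℝ) (D₁ : ℕ), 1 ≤ M ∧ 0 < k ∧ k ≤ κ₁ ∧ k ≤ 1 / 4 ∧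
    EnergyB X T m j Ω (fun x => ‖L x‖) (rhoS Q D) M c₀ C g pn D₁ θ ∧ ∀ x ∈ X, TBAt X T m Ω g pn k x

private def EnN_Q {κ : Type} [Fintype κ] (Q : κ → V → ℂ) (x : V) : EuclideanSpace ℂ κ := WithLp.toLp 2 (fun i => Q i x)

/-- the length of the derivative of a curve, in a chart -/
theorem mt_chart [FiniteDimensional ℂ V] {N : ℕ} (L : V ≃L[ℂ] EN N) {K B : Set (EN N)} {G : EN N → EN N → ℝ} {ρ : EN N → ℝ} {M : ℕ} {c₀ C : ℝ}
    (hM : MetricData K B G ρ M c₀ C) {X : Set V} (hK : ∀ x ∈ X, L x ∈ K) {σ : ℂ × ℂ → V} {τ : V → ℂ × ℂ} (h : IsChart X σ τ) :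
    ∀ᶠ y in 𝓝 (σ 0), ∀ (F : ℂ → V) (z : ℂ), AnalyticAt ℂ F z → (∀ᶠ w in 𝓝 z, F w ∈ X) → F z = y →
      mt G (fun w => L (F w)) z = G (L (σ (τ y))) (L (fderiv ℂ σ (τ y) (deriv (fun w => τ (F w)) z))) := by
  have hτ0 : τ (σ 0) = 0 := h.left.self_of_nhds
  have hτt : Tendsto τ (𝓝 (σ 0)) (𝓝 0) := by
    have := h.τ_an.continuousAt.tendsto
    rwa [hτ0] at this
  filter_upwards [exists_coef h, hτt.eventually h.σ_mem] with y h1 h2 F z hF hFX hFz
  obtain ⟨c, a, hc, h3, h4⟩ := h1 F z hF hFX hFz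
  have hd : deriv (fun w => L (F w)) z = L (deriv F z) := by
    have h5 : HasDerivAt (fun w => L (F w)) (L (deriv F z)) z :=
      (L : V →L[ℂ] EN N).hasFDerivAt.comp_hasDerivAt z hF.differentiableAt.hasDerivAt
    exact h5.deriv
  show G (L (F z)) (deriv (fun w => L (F w)) z) = _
  rw [hd, h3, h4, map_smul, map_add, map_smul, map_smul]
  exact hM.inv _ (hK _ h2) _ c a hc

/-- MODULE EnN (helper77): the nodal case, from `nodal_metric_tb` (compare `SY/EiN`, `SY/EiA`); `pn x = ‖L x‖`, `D₁ = 1`, `c₀ = θ j / m`. -/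
theorem energyB_nodal [FiniteDimensional ℂ V] {X T : Set V} {m j : ℕ} {Ω : V → V → V → ℂ} {κ : Type} [Fintype κ] {Q : κ → V → ℂ} {D : ℕ}
    (h : ModelS X T m j Ω Q D) (hn : ∀ x ∈ X, NodalAt X T x) {θ κ₁ : ℝ} (hθ : 0 < θ) (hθ1 : θ < 1) (hκ₁ : 0 < κ₁) :
    HasEnergyB X T m j Ω Q D θ κ₁ := by
  intro N L
  have hne : ∀ x ∈ X, x ≠ 0 := fun x hx e => h.surf.zero (e ▸ hx)
  have hTs := h.eqs.cone h.surf.smul
  have hm : (0 : ℝ) < m := by exact_mod_cast h.one_m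
  have hj : (0 : ℝ) < j := by exact_mod_cast h.one_j
  have hc₀ : 0 < θ * j / m := by positivity
  have hc₁ : θ * j / m < j / m := by
    rw [div_lt_div_iff_of_pos_right hm]
    nlinarith
  obtain ⟨heq, M, k, C, G, hk, hk1, hk4, hM, hup, -, htb, -⟩ := nodal_metric_tb L (Q := EnN_Q Q) (D := D) h.surf (fun x => by
    have h1 : AnalyticAt ℂ (fun x : V => fun i => Q i x) x := by
      rw [analyticAt_pi_iff]
      exact fun i => h.eqs.an i x
    exact AnalyticAt.comp (g := (WithLp.toLp 2 : (κ → ℂ) → EuclideanSpace ℂ κ))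
      (f := fun x : V => fun i => Q i x) ((EuclideanSpace.equiv κ ℂ).symm.analyticAt _) h1)
    (fun c x => by
      unfold EnN_Q
      rw [← WithLp.toLp_smul]
      congr 1
      funext i
      simp [h.eqs.smul]) (B := T) (fun x => by
      rw [h.eqs.mem_iff]
      unfold EnN_Q
      constructor
      · rintro ⟨h1, h2⟩
        refine ⟨h1, ?_⟩
        have h3 : (fun i => Q i x) = (0 : κ → ℂ) := funext h2
        rw [h3]
        rfl
      · rintro ⟨h1, h2⟩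
        refine ⟨h1, fun i => ?_⟩
        have h3 := congrFun (congrArg WithLp.ofLp h2) i
        exact h3) hn h.one_m h.one_j h.form h.noZeros hc₀ hc₁ hκ₁
  have hcone : IsCone (L.symm ⁻¹' X : Set (EN N)) := Pool.Agent.H36.BP.isCone_transport L h.surf
  obtain ⟨K₁, hK₁, hK₁b⟩ := Pool.Agent.H14.PP.exists_rho_bound hcone heq
  obtain ⟨C₁, E⟩ := energy_of_metric hcone hM (fun x hx c hc => by
    show L.symm (c • x) ∈ T
    rw [map_smul]
    exact hTs _ hx c hc)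
  set A : ℝ := ‖(L : V →L[ℂ] EN N)‖ with hA
  have hA0 : 0 ≤ A := norm_nonneg _
  have hρ : ∀ x ∈ X, rhoS Q D x ≤ A ^ D * Pool.Agent.H14.PP.rho (fun y => EnN_Q Q (L.symm y)) D (L x) := by
    intro x hx
    have hx0 : 0 < ‖x‖ := norm_pos_iff.mpr (hne x hx)
    have hLx0 : 0 < ‖L x‖ := norm_pos_iff.mpr fun h0 => hne x hx (L.map_eq_zero_iff.mp h0)
    unfold rhoS Pool.Agent.H14.PP.rho
    simp only
    rw [L.symm_apply_apply, ← mul_div_assoc, div_le_div_iff₀ (by positivity) (by positivity)]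
    have h1 : ‖fun i => Q i x‖ ≤ ‖EnN_Q Q x‖ := by
      refine (pi_norm_le_iff_of_nonneg (norm_nonneg _)).mpr fun i => ?_
      exact PiLp.norm_apply_le (EnN_Q Q x) i
    have h2 : ‖L x‖ ≤ A * ‖x‖ := (L : V →L[ℂ] EN N).le_opNorm x
    calc ‖fun i => Q i x‖ * ‖L x‖ ^ D ≤ ‖EnN_Q Q x‖ * (A * ‖x‖) ^ D := by gcongr
      _ = A ^ D * ‖EnN_Q Q x‖ * ‖x‖ ^ D := by rw [mul_pow]; ring
  have hρ2 : ∀ x ∈ X, rhoS Q D x ≤ A ^ D * K₁ := by
    intro x hx
    refine (hρ x hx).trans (mul_le_mul_of_nonneg_left (hK₁b _ ?_) (by positivity))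
    show L.symm (L x) ∈ X
    rwa [L.symm_apply_apply]
  obtain ⟨C', E'⟩ := energy_transport L (rho := rhoS Q D) E (A := A ^ D) (K₁ := A ^ D * K₁) (by positivity) (by positivity)
    (fun x _ => rhoS_nonneg Q D x) (fun x _ => Pool.Agent.H14.PP.rho_nonneg _ _ _) hρ hρ2
  have hKX : ∀ x ∈ X, L x ∈ (L.symm ⁻¹' X : Set (EN N)) := fun x hx => by
    show L.symm (L x) ∈ X
    rwa [L.symm_apply_apply]
  have hcast : (m : ℝ) * ((1 : ℕ) : ℝ) = m := by rw [Nat.cast_one, mul_one]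
  refine ⟨M + 1, θ * j / m, C', k, fun F => mt G fun z => L (F z), fun x => ‖L x‖, 1, by omega, hk, hk1, hk4, ?_, ?_⟩
  · refine { E' with one_le := le_rfl, pn_cont := ?_, pn_nonneg := ?_, pn_smul := ?_, subP := ?_, ub := ?_ }
    · exact (L : V →L[ℂ] EN N).continuous.norm
    · exact fun x => norm_nonneg _
    · intro c x
      rw [map_smul, norm_smul, pow_one]
    · intro F hF z hz
      rw [hcast]
      exact E'.sub F hF z hz
    · intro F hF z₀ σ τ hσ hσ0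
      rw [hcast]
      obtain ⟨A₁, hA₁, hbd⟩ := hup σ τ hσ
      have hFa : AnalyticAt ℂ F z₀ := hF.diff.analyticAt z₀
      have hτ0 : τ (σ 0) = 0 := hσ.left.self_of_nhds
      have hFt : Tendsto F (𝓝 z₀) (𝓝 (σ 0)) := by
        rw [hσ0]
        exact hFa.continuousAt.tendsto
      have hτF : AnalyticAt ℂ (fun w => τ (F w)) z₀ := by
        have h1 : AnalyticAt ℂ τ (F z₀) := by
          rw [← hσ0]
          exact hσ.τ_an
        exact AnalyticAt.comp h1 hFa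
      have hτt : Tendsto (fun z => τ (F z)) (𝓝 z₀) (𝓝 0) := by
        have h1 := hτF.continuousAt.tendsto
        rwa [show τ (F z₀) = 0 by rw [← hσ0, hτ0]] at h1
      have hP : ∀ᶠ z in 𝓝 z₀, ‖deriv (fun w => τ (F w)) z‖ < ‖deriv (fun w => τ (F w)) z₀‖ + 1 := by
        have h1 := hτF.deriv.continuousAt.norm
        exact h1.eventually (gt_mem_nhds (by linarith))
      have hLz : 0 < ‖L (F z₀)‖ := norm_pos_iff.mpr fun h0 => hne _ (hF.mem z₀) (L.map_eq_zero_iff.mp h0)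
      have hLe : ∀ᶠ z in 𝓝 z₀, ‖L (F z₀)‖ / 2 < ‖L (F z)‖ := by
        have h1 : ContinuousAt (fun z => ‖L (F z)‖) z₀ := ((L : V →L[ℂ] EN N).continuous.continuousAt.comp hFa.continuousAt).norm
        exact h1.eventually (lt_mem_nhds (by linarith))
      set P : ℝ := ‖deriv (fun w => τ (F w)) z₀‖ + 1 with hPdef
      have hP0 : 0 < P := by positivity
      set δ : ℝ := (‖L (F z₀)‖ / 2) ^ ((j : ℝ) / m) with hδdef
      have hδ : 0 < δ := Real.rpow_pos_of_pos (by positivity) _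
      refine ⟨A₁ * P / δ, by positivity, ?_⟩
      filter_upwards [hFt.eventually (mt_chart L hM hKX hσ), hτt.eventually hbd, hP, hLe] with z h1 h2 h3 h4
      have h5 := h1 F z (hF.diff.analyticAt z) (Eventually.of_forall hF.mem) rfl
      have h6 := h2 (deriv (fun w => τ (F w)) z)
      have h7 : 0 ≤ ‖oC Ω σ (τ (F z))‖ ^ (1 / (m : ℝ)) := Real.rpow_nonneg (norm_nonneg _) _
      have h8 : δ ≤ ‖L (F z)‖ ^ ((j : ℝ) / m) := Real.rpow_le_rpow (by positivity) h4.le (by positivity)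
      show mt G (fun w => L (F w)) z ≤ _
      calc mt G (fun w => L (F w)) z ≤ A₁ * (‖oC Ω σ (τ (F z))‖ ^ (1 / (m : ℝ)) * ‖deriv (fun w => τ (F w)) z‖) := by
            rw [h5]
            exact h6
        _ ≤ A₁ * (‖oC Ω σ (τ (F z))‖ ^ (1 / (m : ℝ)) * P) := by gcongr
        _ = A₁ * P / δ * ‖oC Ω σ (τ (F z))‖ ^ (1 / (m : ℝ)) * δ := by
            field_simp
        _ ≤ A₁ * P / δ * ‖oC Ω σ (τ (F z))‖ ^ (1 / (m : ℝ)) * ‖L (F z)‖ ^ ((j : ℝ) / m) := by gcongr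
  · intro x hx σ τ hσ hσ0 hT
    obtain ⟨A₁, hA₁, hbd⟩ := htb σ τ hσ hT
    have hτ0 : τ (σ 0) = 0 := hσ.left.self_of_nhds
    have hτt : Tendsto τ (𝓝 (σ 0)) (𝓝 0) := by
      have h1 := hσ.τ_an.continuousAt.tendsto
      rwa [hτ0] at h1
    have hLx : 0 < ‖L x‖ := norm_pos_iff.mpr fun h0 => hne _ hx (L.map_eq_zero_iff.mp h0)
    have hLc : ContinuousAt (fun y => ‖L y‖) x := (L : V →L[ℂ] EN N).continuous.norm.continuousAt
    have h1 : ∀ᶠ y in 𝓝 x, ‖L x‖ / 2 < ‖L y‖ := hLc.eventually (lt_mem_nhds (by linarith))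
    have h2 : ∀ᶠ y in 𝓝 x, ‖L y‖ < ‖L x‖ + 1 := hLc.eventually (gt_mem_nhds (by linarith))
    set B : ℝ := A₁ + (‖L x‖ / 2)⁻¹ + (‖L x‖ + 1) with hB
    have hi : 0 < (‖L x‖ / 2)⁻¹ := by positivity
    have hB1 : 1 ≤ B := by linarith
    have hB0 : 0 < B := by linarith
    have hAB : A₁ ≤ B := by linarith
    refine ⟨B, hB1, ?_⟩
    rw [← hσ0] at h1 h2 ⊢
    filter_upwards [h1, h2, mt_chart L hM hKX hσ, hτt.eventually hbd] with y h3 h4 h5 h6
    rw [hσ0] at h3 h4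
    refine ⟨?_, ?_, ?_⟩
    · rw [inv_le_comm₀ hB0 (by linarith)]
      have h7 : ‖L y‖⁻¹ ≤ (‖L x‖ / 2)⁻¹ := inv_anti₀ (by linarith) h3.le
      linarith
    · linarith
    · intro F hF z hFz
      have h7 := h5 F z (hF.diff.analyticAt z) (Eventually.of_forall hF.mem) hFz
      obtain ⟨h8, h9⟩ := h6 (deriv (fun w => τ (F w)) z)
      rw [← h7] at h8 h9
      have h10 : 0 ≤ ‖oC Ω σ (τ y)‖ ^ (1 / (m : ℝ)) * sm k (τ y) (deriv (fun w => τ (F w)) z) :=
        mul_nonneg (Real.rpow_nonneg (norm_nonneg _) _) (le_max_of_le_left (norm_nonneg _))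
      have h11 : 0 ≤ mt G (fun w => L (F w)) z := E'.nonneg F hF z
      show _ ≤ B * mt G (fun w => L (F w)) z ∧ mt G (fun w => L (F w)) z ≤ _
      exact ⟨h8.trans (mul_le_mul_of_nonneg_right hAB h11), h9.trans (mul_le_mul_of_nonneg_right hAB h10)⟩

end Pool.Agent.H36.TB
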