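import Pool.Agent.H36.TB.Defs

/-!
# TB EnX: the chart of the blow-up at a point of the exceptional curve

With `m p = (p.1, p.1 * p.2)`: `phi l (σ (m p)) = p.1 • σ₁ p`, `(σ₁ p) b = R p • σ (m p)`, `l b (σ (m p)) = p.1 * R p`, `R 0 ≠ 0`.  The factor `R` cancels in
`om l j Ω (σ₁ p) (∂₁ σ₁) (∂₂ σ₁) = l b (R σ) ^ j * Ω (R σ) (R Dσ (1, p.2)) (R Dσ (0, p.1)) ^ 2 = p.1 ^ (2 m + j) * (coefficient of Ω at m p) ^ 2`.
-/

set_option autoImplicit false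
set_option linter.unusedSectionVars false

open Topology Filter Metric

noncomputable section

namespace Pool.Agent.H36.TB

open Pool.Agent.H17BP (Surface IsForm IsChart surface_iff chart_iff isForm_iff)
open Pool.Agent.H62.BU (blow total Ker phi om)

/-- cancellation of the first coordinate -/
theorem cancel_fst {E : Type*} [NormedAddCommGroup E] [NormedSpace ℂ E] [CompleteSpace E] {f g : ℂ × ℂ → E} (hf : AnalyticAt ℂ f 0)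
    (hg : AnalyticAt ℂ g 0) (h : ∀ᶠ p in 𝓝 (0 : ℂ × ℂ), p.1 • f p = p.1 • g p) : ∀ᶠ p in 𝓝 (0 : ℂ × ℂ), f p = g p := by
  filter_upwards [hf.eventually_analyticAt, hg.eventually_analyticAt, h.eventually_nhds] with p h1 h2 h3
  by_cases h4 : p.1 = 0
  · have a3 : Tendsto (fun u : ℂ => ((u, p.2) : ℂ × ℂ)) (𝓝[≠] 0) (𝓝 p) := by
      have : Tendsto (fun u : ℂ => ((u, p.2) : ℂ × ℂ)) (𝓝 0) (𝓝 (0, p.2)) :=
        (continuous_id.prodMk continuous_const).tendsto 0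
      have e : ((0 : ℂ), p.2) = p := by rw [← h4]
      rw [e] at this
      exact this.mono_left nhdsWithin_le_nhds
    refine tendsto_nhds_unique ((h1.continuousAt.tendsto.comp a3).congr' ?_) (h2.continuousAt.tendsto.comp a3)
    filter_upwards [a3.eventually h3, self_mem_nhdsWithin] with u hu hu0
    exact smul_right_injective E (r := u) hu0 hu
  · exact smul_right_injective E (r := p.1) h4 h3.self_of_nhds

/-- scaling of tangent vectors -/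
theorem tan_smul {W : Type*} [NormedAddCommGroup W] [NormedSpace ℂ W] {Y : Set W}
    (hY : ∀ x ∈ Y, ∀ c : ℂ, c ≠ 0 → c • x ∈ Y) {x v : W} (hv : Pool.Agent.H62.BU.Tan Y x v) {c : ℂ} (hc : c ≠ 0) :
    Pool.Agent.H62.BU.Tan Y (c • x) (c • v) := by
  obtain ⟨γ, hγ, hmem, h0, hd⟩ := hv
  refine ⟨fun z => c • γ z, analyticAt_const.smul hγ, ?_, by show c • γ 0 = c • x; rw [h0], ?_⟩
  · filter_upwards [hmem] with z hz
    exact hY _ hz c hc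
  · have h1 : HasDerivAt γ v 0 := by
      rw [← hd]; exact hγ.differentiableAt.hasDerivAt
    exact (h1.const_smul c).deriv

variable {V : Type} [NormedAddCommGroup V] [NormedSpace ℂ V] {ι : Type} [Fintype ι] {l : ι → V →L[ℂ] ℂ} {X T : Set V} {q : V}

theorem exists_chart_exc_eq [FiniteDimensional ℂ V] (hX : Surface X) (hl : Ker l q) {m j : ℕ} {Ω : V → V → V → ℂ} (hΩ : IsForm X m j Ω)
    {σ : ℂ × ℂ → V} {τ : V → ℂ × ℂ} (h : IsChart X σ τ) (h0 : σ 0 = q) :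
    ∃ (σ₁ : ℂ × ℂ → ι → V) (τ₁ : (ι → V) → ℂ × ℂ), IsChart (blow l X) σ₁ τ₁ ∧
      (∀ᶠ p in 𝓝 (0 : ℂ × ℂ), phi l (σ (p.1, p.1 * p.2)) = p.1 • σ₁ p) ∧ (σ₁ 0 = fun b => l b (fderiv ℂ σ 0 (1, 0)) • q) ∧
      ∀ᶠ p in 𝓝 (0 : ℂ × ℂ), oC (om l j Ω) σ₁ p = p.1 ^ (2 * m + j) * oC Ω σ (p.1, p.1 * p.2) ^ 2 := by
  have : CompleteSpace V := FiniteDimensional.complete ℂ V
  have hX' := surface_iff.2 hX
  have hΩ' := isForm_iff.2 hΩ
  obtain ⟨σ₁, τ₁, h1, h2, h3⟩ := Pool.Agent.H62.BU.chart_exc hX' hl (chart_iff.2 h) h0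
  refine ⟨σ₁, τ₁, chart_iff.1 h1, h2, h3, ?_⟩
  have hq0 : q ≠ 0 := h0 ▸ h.ne
  obtain ⟨b, hb⟩ : ∃ b, l b (fderiv ℂ σ 0 (1, 0)) ≠ 0 := by
    by_contra hcon
    push Not at hcon
    refine h1.ne ?_
    rw [h3]
    funext b
    simp [hcon b]
  obtain ⟨Λ, hΛ⟩ : ∃ Λ : V →L[ℂ] ℂ, Λ q ≠ 0 := by
    obtain ⟨Λ, hΛ⟩ := exists_dual_vector ℂ q (norm_ne_zero_iff.mpr hq0)
    refine ⟨Λ, ?_⟩
    rw [hΛ.2]
    simpa using hq0
  obtain ⟨mm, hmm⟩ : ∃ mm : ℂ × ℂ → ℂ × ℂ, ∀ p, mm p = (p.1, p.1 * p.2) := ⟨fun p => (p.1, p.1 * p.2), fun p => rfl⟩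
  have hmd : ∀ p, HasFDerivAt mm ((ContinuousLinearMap.fst ℂ ℂ ℂ).prod
      (p.1 • ContinuousLinearMap.snd ℂ ℂ ℂ + p.2 • ContinuousLinearMap.fst ℂ ℂ ℂ)) p := fun p => by
    have e0 : mm = fun p => (p.1, p.1 * p.2) := funext hmm
    rw [e0]
    exact hasFDerivAt_fst.prodMk (hasFDerivAt_fst.mul hasFDerivAt_snd)
  have hm_an : ∀ p, AnalyticAt ℂ mm p := fun p => by
    have e0 : mm = fun p => (p.1, p.1 * p.2) := funext hmm
    rw [e0]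
    exact analyticAt_fst.prod (analyticAt_fst.mul analyticAt_snd)
  have hm0 : mm 0 = 0 := by rw [hmm]; simp
  have hmt : Tendsto mm (𝓝 0) (𝓝 0) := by
    have := (hm_an 0).continuousAt.tendsto
    rwa [hm0] at this
  have h2' : ∀ᶠ p in 𝓝 (0 : ℂ × ℂ), phi l (σ (mm p)) = p.1 • σ₁ p := by
    filter_upwards [h2] with p hp
    rw [hmm, hp]
  have hσm : AnalyticAt ℂ (fun p => σ (mm p)) 0 := AnalyticAt.comp (by rw [hm0]; exact h.σ_an) (hm_an 0)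
  have hσb : AnalyticAt ℂ (fun p => σ₁ p b) 0 :=
    AnalyticAt.comp (g := fun y : ι → V => y b) ((ContinuousLinearMap.proj (R := ℂ) (φ := fun _ : ι => V) b).analyticAt _) h1.σ_an
  -- the factor `R`
  obtain ⟨R, hR⟩ : ∃ R : ℂ × ℂ → ℂ, ∀ p, R p = Λ (σ₁ p b) / Λ (σ (mm p)) := ⟨_, fun p => rfl⟩
  have hΛσ : AnalyticAt ℂ (fun p => Λ (σ (mm p))) 0 := (Λ.analyticAt _).comp hσm
  have hΛσ0 : Λ (σ (mm 0)) ≠ 0 := by rw [hm0, h0]; exact hΛ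
  have hR_an : AnalyticAt ℂ R 0 := by
    have e0 : R = fun p => Λ (σ₁ p b) / Λ (σ (mm p)) := funext hR
    rw [e0]
    exact ((Λ.analyticAt _).comp hσb).div hΛσ hΛσ0
  have hR0 : R 0 ≠ 0 := by
    rw [hR, hm0, h0, h3, map_smul, smul_eq_mul, mul_div_assoc, div_self hΛ, mul_one]
    exact hb
  have hB : ∀ᶠ p in 𝓝 (0 : ℂ × ℂ), l b (σ (mm p)) = p.1 * R p := by
    filter_upwards [h2', hΛσ.continuousAt.eventually_ne hΛσ0] with p g1 g2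
    have g3 := congrArg Λ (congrFun g1 b)
    simp only [phi, Pi.smul_apply, map_smul, smul_eq_mul] at g3
    rw [hR, mul_div_assoc', eq_div_iff g2]
    exact g3
  have hA : ∀ᶠ p in 𝓝 (0 : ℂ × ℂ), σ₁ p b = R p • σ (mm p) := by
    refine cancel_fst hσb (hR_an.smul hσm) ?_
    filter_upwards [h2', hB] with p g1 g2
    have g3 := congrFun g1 b
    simp only [phi, Pi.smul_apply] at g3
    rw [← g3, g2, smul_smul]
  filter_upwards [hA.eventually_nhds, hB, h1.σ_an.eventually_analyticAt, h1.σ_mem.eventually_nhds, hR_an.eventually_analyticAt,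
    hR_an.continuousAt.eventually_ne hR0, hmt.eventually h.σ_an.eventually_analyticAt, hmt.eventually h.σ_mem.eventually_nhds,
    hmt.eventually (h.σ_an.continuousAt.eventually_ne h.ne)] with p g1 g2 g3 g4 g5 g6 g7 g8 g9
  have gx : σ (mm p) ∈ X := g8.self_of_nhds
  have gσ : ∀ w : ℂ × ℂ, Pool.Agent.H62.BU.Tan X (σ (mm p)) (fderiv ℂ σ (mm p) w) := fun w =>
    Pool.Agent.H62.BU.tan_fderiv g7 g8 w
  have hder : ∀ w : ℂ × ℂ, (fderiv ℂ σ₁ p w) b =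
      R p • fderiv ℂ σ (mm p) (w.1, p.1 * w.2 + p.2 * w.1) + fderiv ℂ R p w • σ (mm p) := by
    intro w
    have a1 : HasFDerivAt (fun y => σ₁ y b) ((ContinuousLinearMap.proj (R := ℂ) (φ := fun _ : ι => V) b).comp (fderiv ℂ σ₁ p)) p :=
      ((ContinuousLinearMap.proj (R := ℂ) (φ := fun _ : ι => V) b).hasFDerivAt (x := σ₁ p)).comp p g3.differentiableAt.hasFDerivAt
    have a2 : HasFDerivAt (fun y => σ (mm y)) ((fderiv ℂ σ (mm p)).comp ((ContinuousLinearMap.fst ℂ ℂ ℂ).prod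
      (p.1 • ContinuousLinearMap.snd ℂ ℂ ℂ + p.2 • ContinuousLinearMap.fst ℂ ℂ ℂ))) p :=
      g7.differentiableAt.hasFDerivAt.comp p (hmd p)
    have a3 := g5.differentiableAt.hasFDerivAt.smul a2
    have a4 : (fun y => σ₁ y b) =ᶠ[𝓝 p] fun y => R y • σ (mm y) := g1
    have a5 := (a1.congr_of_eventuallyEq a4.symm).unique a3
    have a6 := congrArg (fun A : (ℂ × ℂ) →L[ℂ] V => A w) a5
    simpa using a6
  have e1 := hder (1, 0)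
  have e2 := hder (0, 1)
  simp only [mul_zero, zero_add, mul_one, add_zero] at e1 e2
  have hy : σ₁ p b ≠ 0 := by
    rw [g1.self_of_nhds]
    exact smul_ne_zero g6 g9
  have hRx : R p • σ (mm p) ∈ X := hX.smul _ gx _ g6
  have hom : oC (om l j Ω) σ₁ p = l b (σ₁ p b) ^ j * Ω (σ₁ p b) ((fderiv ℂ σ₁ p (1, 0)) b) ((fderiv ℂ σ₁ p (0, 1)) b) ^ 2 :=
    Pool.Agent.H62.BU.om_eq hX' hΩ' g4.self_of_nhds (Pool.Agent.H62.BU.tan_fderiv g3 g4 (1, 0))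
      (Pool.Agent.H62.BU.tan_fderiv g3 g4 (0, 1)) hy
  have k1 := hΩ'.add_smul (R p • σ (mm p)) hRx (R p • fderiv ℂ σ (mm p) (1, p.2)) (R p • fderiv ℂ σ (mm p) (0, p.1))
    (tan_smul hX.smul (gσ _) g6) (tan_smul hX.smul (gσ _) g6) (fderiv ℂ R p (1, 0) / R p) (fderiv ℂ R p (0, 1) / R p)
  rw [smul_smul, smul_smul, div_mul_cancel₀ _ g6, div_mul_cancel₀ _ g6] at k1
  have k2 := hΩ'.scale (σ (mm p)) gx (fderiv ℂ σ (mm p) (1, p.2)) (fderiv ℂ σ (mm p) (0, p.1)) (gσ _) (gσ _) (R p) g6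
  have k3 := hΩ'.det (σ (mm p)) gx (fderiv ℂ σ (mm p) (1, 0)) (fderiv ℂ σ (mm p) (0, 1)) (gσ _) (gσ _) 1 p.2 0 p.1
  have k4 : (1 : ℂ) • fderiv ℂ σ (mm p) (1, 0) + p.2 • fderiv ℂ σ (mm p) (0, 1) = fderiv ℂ σ (mm p) (1, p.2) := by
    rw [← map_smul, ← map_smul, ← map_add]
    congr 1
    simp
  have k5 : (0 : ℂ) • fderiv ℂ σ (mm p) (1, 0) + p.1 • fderiv ℂ σ (mm p) (0, 1) = fderiv ℂ σ (mm p) (0, p.1) := by
    rw [← map_smul, ← map_smul, ← map_add]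
    congr 1
    simp
  rw [k4, k5, one_mul, mul_zero, sub_zero] at k3
  have k6 : l b (R p • σ (mm p)) = R p ^ 2 * p.1 := by
    rw [map_smul, smul_eq_mul, g2]
    ring
  rw [hom, g1.self_of_nhds, e1, e2, k1, k6]
  have k7 : (oC Ω σ (p.1, p.1 * p.2)) = Ω (σ (mm p)) (fderiv ℂ σ (mm p) (1, 0)) (fderiv ℂ σ (mm p) (0, 1)) := by
    rw [oC, hmm]
  rw [k7]
  have k8 : p.1 ^ m * Ω (σ (mm p)) (fderiv ℂ σ (mm p) (1, 0)) (fderiv ℂ σ (mm p) (0, 1)) =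
      R p ^ j * Ω (R p • σ (mm p)) (R p • fderiv ℂ σ (mm p) (1, p.2)) (R p • fderiv ℂ σ (mm p) (0, p.1)) := by
    rw [k2, k3]
  have k9 : p.1 ^ (2 * m + j) * Ω (σ (mm p)) (fderiv ℂ σ (mm p) (1, 0)) (fderiv ℂ σ (mm p) (0, 1)) ^ 2 =
      p.1 ^ j * (p.1 ^ m * Ω (σ (mm p)) (fderiv ℂ σ (mm p) (1, 0)) (fderiv ℂ σ (mm p) (0, 1))) ^ 2 := by
    ring
  rw [k9, k8]
  ring

/-- MODULE EnX -/
theorem exists_chart_exc [FiniteDimensional ℂ V] (hX : Surface X) (hl : Ker l q) {m j : ℕ} {Ω : V → V → V → ℂ} (hΩ : IsForm X m j Ω)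
    {σ : ℂ × ℂ → V} {τ : V → ℂ × ℂ} (h : IsChart X σ τ) (h0 : σ 0 = q) :
    ∃ (σ₁ : ℂ × ℂ → ι → V) (τ₁ : (ι → V) → ℂ × ℂ), IsChart (blow l X) σ₁ τ₁ ∧
      (∀ᶠ p in 𝓝 (0 : ℂ × ℂ), phi l (σ (p.1, p.1 * p.2)) = p.1 • σ₁ p) ∧ (σ₁ 0 = fun b => l b (fderiv ℂ σ 0 (1, 0)) • q) ∧
      ∃ B : ℝ, 1 ≤ B ∧ ∀ᶠ p in 𝓝 (0 : ℂ × ℂ),
        ‖p.1‖ ^ (2 * m + j) * ‖oC Ω σ (p.1, p.1 * p.2)‖ ^ 2 ≤ B * ‖oC (om l j Ω) σ₁ p‖ ∧
        ‖oC (om l j Ω) σ₁ p‖ ≤ B * (‖p.1‖ ^ (2 * m + j) * ‖oC Ω σ (p.1, p.1 * p.2)‖ ^ 2) := by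
  obtain ⟨σ₁, τ₁, h1, h2, h3, h4⟩ := exists_chart_exc_eq hX hl hΩ h h0
  refine ⟨σ₁, τ₁, h1, h2, h3, 1, le_refl _, ?_⟩
  filter_upwards [h4] with p hp
  rw [hp, norm_mul, norm_pow, norm_pow, one_mul]
  exact ⟨le_refl _, le_refl _⟩

end Pool.Agent.H36.TB
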