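import Pool.Agent.H36.TB.MetB

/-!
# TB Met: the metric theorem with two-sided bounds
-/

set_option autoImplicit false

open Topology Filter Metric

namespace Pool.Agent.H36.TB

open Pool.Agent.H36.BP
open Pool.Agent.H14.PP

variable {N : ℕ} {W : Type*} [NormedAddCommGroup W] [InnerProductSpace ℂ W]
  {X K T : Set (EN N)} {m j : ℕ} {Q : EN N → W} {D : ℕ}

theorem sg_le_norm (nd : Bool) {κ : ℝ} (hκ : κ ≤ 1 / 4) {p w : ℂ × ℂ} (hp : ‖p‖ ≤ 1) : sg nd κ p w ≤ ‖w‖ := by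
  have h1 : ‖p.1‖ ≤ 1 := (norm_fst_le p).trans hp
  have h2 : ‖p.2‖ ≤ 1 := (norm_snd_le p).trans hp
  have w1 : ‖w.1‖ ≤ ‖w‖ := norm_fst_le w
  have w2 : ‖w.2‖ ≤ ‖w‖ := norm_snd_le w
  have e1 : ‖p.1‖ ^ (1 - κ) ≤ 1 := Real.rpow_le_one (norm_nonneg _) h1 (by linarith)
  have e2 : ‖p.2‖ ^ (1 - κ) ≤ 1 := Real.rpow_le_one (norm_nonneg _) h2 (by linarith)
  unfold sg
  refine max_le ?_ ?_
  · refine (mul_le_of_le_one_left (norm_nonneg _) ?_).trans w1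
    split_ifs
    · exact e2
    · exact le_rfl
  · exact (mul_le_of_le_one_left (norm_nonneg _) e1).trans w2

/-- the trivial comparison -/
theorem cmp_triv (χ χ' : Chart X) (nd : Bool) {κ : ℝ} (hκ : κ ≤ 1 / 4) {p : ℂ × ℂ} (hp : p ∈ ball (0 : ℂ × ℂ) 2) (hU : χ.σ p ∈ χ'.U) :
    ∃ B : ℝ, 1 ≤ B ∧ ∀ᶠ y in 𝓝 p, ‖χ'.q (χ.σ y)‖ ≤ 1 → ∀ w,
      sg nd κ (χ'.q (χ.σ y)) (fderiv ℂ (fun y => χ'.q (χ.σ y)) y w) ≤ B * ‖w‖ := by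
  have h1 : ContinuousAt (fderiv ℂ (fun y => χ'.q (χ.σ y))) p := (ch_an χ χ' hp hU).fderiv.continuousAt
  have h2 : ∀ᶠ y in 𝓝 p, ‖fderiv ℂ (fun y => χ'.q (χ.σ y)) y‖ < ‖fderiv ℂ (fun y => χ'.q (χ.σ y)) p‖ + 1 :=
    h1.norm.eventually (gt_mem_nhds (by linarith))
  refine ⟨‖fderiv ℂ (fun y => χ'.q (χ.σ y)) p‖ + 1, by linarith [norm_nonneg (fderiv ℂ (fun y => χ'.q (χ.σ y)) p)], ?_⟩
  filter_upwards [h2] with y hy hy1 w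
  refine (sg_le_norm nd hκ hy1).trans ?_
  exact ((fderiv ℂ (fun y => χ'.q (χ.σ y)) y).le_opNorm w).trans (mul_le_mul_of_nonneg_right hy.le (norm_nonneg _))

section off

variable {Ω : Form K m j} {n : ℕ} {χ : Fin n → Chart X} {nd : Fin n → Bool} {P : Par} {M₀ : ℕ} {δ c₁ c : ℝ}

/-- the upper bound by the coefficient of the form -/
theorem GG_ub (hX : IsCone X) (hK : IsOpenPart X K) (hKT : ∀ x ∈ X, x ∉ K → x ∈ T) (hm : 1 ≤ m) (hQ : IsEq X T Q D)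
    (hΩ : Ω.NoZeroOff T) (hM : MetP X K T m j Ω Q D n χ nd P M₀ δ c₁ c)
    (χ₀ : Chart X) {p : ℂ × ℂ} (hp : p ∈ ball (0 : ℂ × ℂ) 2) :
    ∃ B : ℝ, 1 ≤ B ∧ ∀ᶠ y in 𝓝 p, χ₀.σ y ∈ K → ∀ w,
      GG Ω χ nd P Q D (M₀ + 1) δ c₁ (χ₀.σ y) (fderiv ℂ χ₀.σ y w) ≤ B * (ACoef Ω χ₀ y * ‖w‖) := by
  have hnear := fun i => near_le hX hK hm hM χ₀ hp (md := fun _ w => ‖w‖) (fun _ w => norm_nonneg w) i
    (fun hU => cmp_triv χ₀ (χ i) (nd i) hM.conv.κ_le hp hU)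
  refine GG_le χ₀ hM.c₁_pos (E := fun y w => ACoef Ω χ₀ y * ‖w‖) (fun y w => mul_nonneg (ACoef_nonneg _ _ _) (norm_nonneg _)) hnear ?_
  by_cases hpT : χ₀.σ p ∈ T
  · have hρ0 : rho Q D (χ₀.σ p) = 0 := (rho_eq_zero_iff (χ₀.sigma_ne_zero hX hp)).2 ((hQ.mem_iff _).1 hpT).2
    have hρδ : rho Q D (χ₀.σ p) < δ := by rw [hρ0]; exact hM.δ_pos
    obtain ⟨i, hi1, hi2⟩ := hM.cov _ (χ₀.σ_mem p hp).1 hρδ.le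
    have hi3 : ‖(χ i).q (χ₀.σ p)‖ < 1 := by linarith
    obtain ⟨B, hB, h⟩ := hnear i
    have hcpos := hM.c_pos
    have hδ := hM.δ_pos
    have hδc : 0 ≤ δ / c := by positivity
    refine ⟨max 1 (δ / c * B), le_max_left _ _, ?_⟩
    filter_upwards [h, far_le hX hK hQ hM χ₀ hp i hi1 hi3 hρδ] with y h1 h2 hyK w
    have h3 : 0 ≤ ACoef Ω χ₀ y * ‖w‖ := mul_nonneg (ACoef_nonneg _ _ _) (norm_nonneg w)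
    calc _ ≤ δ / c * nearG Ω χ nd P Q D δ i (χ₀.σ y) (fderiv ℂ χ₀.σ y w) := h2 hyK w
      _ ≤ δ / c * (B * (ACoef Ω χ₀ y * ‖w‖)) := mul_le_mul_of_nonneg_left (h1 hyK w) hδc
      _ = δ / c * B * (ACoef Ω χ₀ y * ‖w‖) := by ring
      _ ≤ _ := mul_le_mul_of_nonneg_right (le_max_right _ _) h3
  · have hpK : χ₀.σ p ∈ K := by
      by_contra h
      exact hpT (hKT _ (χ₀.σ_mem p hp).1 h)
    have hA : 0 < ACoef Ω χ₀ p := (ACoef_pos_iff hX hm Ω χ₀ hp).2 (aCoef_ne_zero hX hK Ω χ₀ hΩ hp hpK hpT)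
    set a := ACoef Ω χ₀ p with ha
    have e1 : ∀ᶠ y in 𝓝 p, a / 2 < ACoef Ω χ₀ y := (continuousAt_ACoef hK Ω χ₀ hp hpK).eventually (lt_mem_nhds (by linarith))
    set R := rho Q D (χ₀.σ p) with hR
    have e2 : ∀ᶠ y in 𝓝 p, rho Q D (χ₀.σ y) < R + 1 := by
      have h1 : ContinuousAt (fun y => rho Q D (χ₀.σ y)) p :=
        ContinuousAt.comp (g := rho Q D) (continuousAt_rho hQ.analytic (χ₀.sigma_ne_zero hX hp)) (χ₀.σ_an p hp).continuousAt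
      exact h1.eventually (gt_mem_nhds (by linarith))
    set S := ‖fderiv ℂ χ₀.σ p‖ with hS
    have e3 : ∀ᶠ y in 𝓝 p, ‖fderiv ℂ χ₀.σ y‖ < S + 1 := (χ₀.σ_an p hp).fderiv.continuousAt.norm.eventually (gt_mem_nhds (by linarith))
    set b := ‖χ₀.σ p‖ with hb
    have hb0 : 0 < b := norm_pos_iff.2 (χ₀.sigma_ne_zero hX hp)
    have e4 : ∀ᶠ y in 𝓝 p, b / 2 < ‖χ₀.σ y‖ := (χ₀.σ_an p hp).continuousAt.norm.eventually (lt_mem_nhds (by linarith))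
    have hR0 : 0 ≤ R := rho_nonneg _ _ _
    have hS0 : 0 ≤ S := norm_nonneg _
    set C : ℝ := (R + 1) ^ (M₀ + 1) * ((S + 1) / (b / 2)) * (2 / a) with hC
    refine ⟨max 1 C, le_max_left _ _, ?_⟩
    filter_upwards [e1, e2, e3, e4] with y h1 h2 h3 h4 _ w
    have hy0 : χ₀.σ y ≠ 0 := by
      intro h0
      rw [h0, norm_zero] at h4
      linarith
    have hw0 := norm_nonneg w
    have h5 : fs (χ₀.σ y) (fderiv ℂ χ₀.σ y w) ≤ (S + 1) / (b / 2) * ‖w‖ := by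
      refine (fs_le hy0 _).trans ?_
      have h6 : ‖fderiv ℂ χ₀.σ y w‖ ≤ (S + 1) * ‖w‖ :=
        ((fderiv ℂ χ₀.σ y).le_opNorm w).trans (mul_le_mul_of_nonneg_right h3.le hw0)
      calc ‖fderiv ℂ χ₀.σ y w‖ / ‖χ₀.σ y‖ ≤ ((S + 1) * ‖w‖) / (b / 2) :=
            div_le_div₀ (by positivity) h6 (by positivity) h4.le
        _ = (S + 1) / (b / 2) * ‖w‖ := by ring
    have h6 : rho Q D (χ₀.σ y) ^ (M₀ + 1) ≤ (R + 1) ^ (M₀ + 1) := pow_le_pow_left₀ (rho_nonneg _ _ _) h2.le _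
    have h7 : ‖w‖ ≤ 2 / a * (ACoef Ω χ₀ y * ‖w‖) := by
      have h8 : a / 2 * ‖w‖ ≤ ACoef Ω χ₀ y * ‖w‖ := mul_le_mul_of_nonneg_right h1.le hw0
      calc ‖w‖ = 2 / a * (a / 2 * ‖w‖) := by field_simp
        _ ≤ _ := mul_le_mul_of_nonneg_left h8 (by positivity)
    calc rho Q D (χ₀.σ y) ^ (M₀ + 1) * fs (χ₀.σ y) (fderiv ℂ χ₀.σ y w)
        ≤ (R + 1) ^ (M₀ + 1) * ((S + 1) / (b / 2) * ‖w‖) := mul_le_mul h6 h5 (fs_nonneg _ _) (by positivity)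
      _ ≤ (R + 1) ^ (M₀ + 1) * ((S + 1) / (b / 2) * (2 / a * (ACoef Ω χ₀ y * ‖w‖))) := by gcongr
      _ = C * (ACoef Ω χ₀ y * ‖w‖) := by rw [hC]; ring
      _ ≤ _ := mul_le_mul_of_nonneg_right (le_max_right _ _) (mul_nonneg (ACoef_nonneg _ _ _) hw0)

/-- the lower bound off `T` -/
theorem GG_off (hX : IsCone X) (hK : IsOpenPart X K) (hKT : ∀ x ∈ X, x ∉ K → x ∈ T) (hQ : IsEq X T Q D)
    (χ₀ : Chart X) {p : ℂ × ℂ} (hp : p ∈ ball (0 : ℂ × ℂ) 2) (hpT : χ₀.σ p ∉ T) :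
    ∃ B : ℝ, 1 ≤ B ∧ ∀ᶠ y in 𝓝 p, ∀ w,
      ACoef Ω χ₀ y * ‖w‖ ≤ B * GG Ω χ nd P Q D (M₀ + 1) δ c₁ (χ₀.σ y) (fderiv ℂ χ₀.σ y w) := by
  have hpK : χ₀.σ p ∈ K := by
    by_contra h
    exact hpT (hKT _ (χ₀.σ_mem p hp).1 h)
  set a := ACoef Ω χ₀ p with ha
  have ha0 : 0 ≤ a := ACoef_nonneg _ _ _
  have e1 : ∀ᶠ y in 𝓝 p, ACoef Ω χ₀ y < a + 1 := (continuousAt_ACoef hK Ω χ₀ hp hpK).eventually (gt_mem_nhds (by linarith))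
  set R := rho Q D (χ₀.σ p) with hR
  have hR0 : 0 < R := by
    refine lt_of_le_of_ne (rho_nonneg _ _ _) fun h => hpT ?_
    exact (hQ.mem_iff _).2 ⟨(χ₀.σ_mem p hp).1, (rho_eq_zero_iff (χ₀.sigma_ne_zero hX hp)).1 h.symm⟩
  have e2 : ∀ᶠ y in 𝓝 p, R / 2 < rho Q D (χ₀.σ y) := by
    have h1 : ContinuousAt (fun y => rho Q D (χ₀.σ y)) p :=
      ContinuousAt.comp (g := rho Q D) (continuousAt_rho hQ.analytic (χ₀.sigma_ne_zero hX hp)) (χ₀.σ_an p hp).continuousAt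
    exact h1.eventually (lt_mem_nhds (by linarith))
  have hq : ContinuousAt (fun y => ‖fderiv ℂ χ₀.q (χ₀.σ y)‖ * ‖χ₀.σ y‖) p := by
    have h1 : ContinuousAt (fun y => fderiv ℂ χ₀.q (χ₀.σ y)) p :=
      ContinuousAt.comp (g := fderiv ℂ χ₀.q) (χ₀.q_an _ (χ₀.σ_mem p hp).2.1).fderiv.continuousAt (χ₀.σ_an p hp).continuousAt
    exact h1.norm.mul (χ₀.σ_an p hp).continuousAt.norm
  set S := ‖fderiv ℂ χ₀.q (χ₀.σ p)‖ * ‖χ₀.σ p‖ with hS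
  have hS0 : 0 ≤ S := by positivity
  have e3 : ∀ᶠ y in 𝓝 p, ‖fderiv ℂ χ₀.q (χ₀.σ y)‖ * ‖χ₀.σ y‖ < S + 1 := hq.eventually (gt_mem_nhds (by linarith))
  set C : ℝ := (a + 1) * (S + 1) / (R / 2) ^ (M₀ + 1) with hC
  have hC0 : 0 ≤ C := by positivity
  refine ⟨max 1 C, le_max_left _ _, ?_⟩
  filter_upwards [e1, e2, e3, isOpen_ball.mem_nhds hp] with y h1 h2 h3 h4 w
  have hy0 : χ₀.σ y ≠ 0 := χ₀.sigma_ne_zero hX h4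
  have hyn : 0 < ‖χ₀.σ y‖ := norm_pos_iff.2 hy0
  set v := fderiv ℂ χ₀.σ y w with hv
  have hG := pieceG_le_GG (Ω := Ω) (χ := χ) (nd := nd) (P := P) (Q := Q) (D := D) (M' := M₀ + 1) (δ := δ) (c₁ := c₁) none
    (χ₀.σ y) v
  have hG' : rho Q D (χ₀.σ y) ^ (M₀ + 1) * fs (χ₀.σ y) v ≤ GG Ω χ nd P Q D (M₀ + 1) δ c₁ (χ₀.σ y) v := hG
  have hG0 : 0 ≤ GG Ω χ nd P Q D (M₀ + 1) δ c₁ (χ₀.σ y) v := GG_nonneg _ _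
  have hfs := fs_nonneg (χ₀.σ y) v
  have h5 : ‖w‖ ≤ (S + 1) * fs (χ₀.σ y) v := by
    have h6 : fderiv ℂ χ₀.q (χ₀.σ y) v = w := χ₀.fderiv_sigma h4 w
    have h7 : fderiv ℂ χ₀.q (χ₀.σ y) (v - (inner ℂ (χ₀.σ y) v / (‖χ₀.σ y‖ : ℂ) ^ 2) • χ₀.σ y) = w := by
      rw [map_sub, map_smul, χ₀.fderiv_q_self (χ₀.σ_mem y h4).2.1, smul_zero, sub_zero, h6]
    calc ‖w‖ = ‖fderiv ℂ χ₀.q (χ₀.σ y) (v - (inner ℂ (χ₀.σ y) v / (‖χ₀.σ y‖ : ℂ) ^ 2) • χ₀.σ y)‖ := by rw [h7]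
      _ ≤ ‖fderiv ℂ χ₀.q (χ₀.σ y)‖ * ‖v - (inner ℂ (χ₀.σ y) v / (‖χ₀.σ y‖ : ℂ) ^ 2) • χ₀.σ y‖ :=
          (fderiv ℂ χ₀.q (χ₀.σ y)).le_opNorm _
      _ = ‖fderiv ℂ χ₀.q (χ₀.σ y)‖ * ‖χ₀.σ y‖ * fs (χ₀.σ y) v := by
          rw [fs_eq hy0]
          field_simp
      _ ≤ (S + 1) * fs (χ₀.σ y) v := mul_le_mul_of_nonneg_right h3.le hfs
  have h8 : (R / 2) ^ (M₀ + 1) ≤ rho Q D (χ₀.σ y) ^ (M₀ + 1) := pow_le_pow_left₀ (by positivity) h2.le _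
  have hpos : 0 < (R / 2) ^ (M₀ + 1) := by positivity
  have h9 : fs (χ₀.σ y) v ≤ GG Ω χ nd P Q D (M₀ + 1) δ c₁ (χ₀.σ y) v / (R / 2) ^ (M₀ + 1) := by
    rw [le_div_iff₀ hpos, mul_comm]
    exact (mul_le_mul_of_nonneg_right h8 hfs).trans hG'
  calc ACoef Ω χ₀ y * ‖w‖ ≤ (a + 1) * ((S + 1) * fs (χ₀.σ y) v) :=
        mul_le_mul h1.le h5 (norm_nonneg _) (by linarith)
    _ ≤ (a + 1) * ((S + 1) * (GG Ω χ nd P Q D (M₀ + 1) δ c₁ (χ₀.σ y) v / (R / 2) ^ (M₀ + 1))) := by gcongr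
    _ = C * GG Ω χ nd P Q D (M₀ + 1) δ c₁ (χ₀.σ y) v := by rw [hC]; ring
    _ ≤ _ := mul_le_mul_of_nonneg_right (le_max_right _ _) hG0

end off

/-- MODULE Met: `H14.PP.exists_metric` with the exponent `c₀` given, `κ` small, the upper bound by the coefficient of the form in every
chart, the lower bound off `T`, and the two-sided bounds at the smooth points and at the nodes of `T`. -/
theorem exists_metric_tb (hX : IsCone X) (hK : IsOpenPart X K) (hKT : ∀ x ∈ X, x ∉ K → x ∈ T)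
    (hQ : IsEq X T Q D) (hT : IsNodal X K T) (hm : 1 ≤ m) (hj : 1 ≤ j) (Ω : Form K m j)
    (hΩ : Ω.NoZeroOff T) (hΩ' : Ω.PoleBound X)
    (hur : ∀ (l : Filter ℕ), l.NeBot → ∀ (F : ℕ → ℂ → EN N) (H : ℂ → EN N) (k : ℕ) (z₀ : ℂ)
      (s : ℝ), 0 < s → (∀ᶠ n in l, Curve K (Metric.ball z₀ s) (F n)) →
      DifferentiableOn ℂ H (Metric.ball z₀ s) →
      TendstoLocallyUniformlyOn F (fun z => (z - z₀) ^ k • H z) l (Metric.ball z₀ s) → H z₀ ≠ 0 →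
      H z₀ ∉ K → ∀ᶠ z in 𝓝 z₀, H z ∉ K) {c₀ κ₁ : ℝ} (hc₀ : 0 < c₀) (hc₁ : c₀ < j / m) (hκ₁ : 0 < κ₁) :
    ∃ (M' : ℕ) (κ C : ℝ) (G : EN N → EN N → ℝ), 1 ≤ M' ∧ 0 < κ ∧ κ ≤ κ₁ ∧ κ ≤ 1 / 4 ∧ MetricData K (K ∩ T) G (rho Q D) M' c₀ C ∧
      (∀ (χ : Chart X), ∀ p ∈ ball (0 : ℂ × ℂ) 2, ∃ B : ℝ, 1 ≤ B ∧ ∀ᶠ y in 𝓝 p, χ.σ y ∈ K → ∀ w,
        G (χ.σ y) (fderiv ℂ χ.σ y w) ≤ B * (ACoef Ω χ y * ‖w‖)) ∧
      (∀ (χ : Chart X), ∀ p ∈ ball (0 : ℂ × ℂ) 2, χ.σ p ∉ T → ∃ B : ℝ, 1 ≤ B ∧ ∀ᶠ y in 𝓝 p, ∀ w,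
        ACoef Ω χ y * ‖w‖ ≤ B * G (χ.σ y) (fderiv ℂ χ.σ y w)) ∧
      (∀ (χ : Chart X) (nd : Bool), HasType T χ nd → ∀ t₀ : ℂ, ‖t₀‖ < 2 → (nd = true → t₀ ≠ 0) →
        ∃ B : ℝ, 1 ≤ B ∧ ∀ᶠ y in 𝓝 ((0 : ℂ), t₀), χ.σ y ∈ K → ∀ w,
          ACoef Ω χ y * sm κ y w ≤ B * G (χ.σ y) (fderiv ℂ χ.σ y w) ∧
          G (χ.σ y) (fderiv ℂ χ.σ y w) ≤ B * (ACoef Ω χ y * sm κ y w)) ∧
      ∀ (χ : Chart X), HasType T χ true →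
        ∃ B : ℝ, 1 ≤ B ∧ ∀ᶠ y in 𝓝 (0 : ℂ × ℂ), χ.σ y ∈ K → ∀ w,
          ACoef Ω χ y * sn κ y w ≤ B * G (χ.σ y) (fderiv ℂ χ.σ y w) ∧
          G (χ.σ y) (fderiv ℂ χ.σ y w) ≤ B * (ACoef Ω χ y * sn κ y w) := by
  obtain ⟨n, χ, nd, P, M₀, δ, c₁, c, C, hκ, hM, hG⟩ := exists_metric_data hX hK hKT hQ hT hm hj Ω hΩ hΩ' hur hc₀ hc₁ hκ₁
  have hTs : ∀ x ∈ T, ∀ c : ℂ, c ≠ 0 → c • x ∈ T := fun x hx c hc => hQ.smul_mem hX hx hc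
  have hκ0 := hM.conv.κ_pos
  have hκ4 := hM.conv.κ_le
  refine ⟨M₀ + 1, P.κ, C, GG Ω χ nd P Q D (M₀ + 1) δ c₁, by omega, hκ0, hκ, hκ4, hG,
    fun χ₀ p hp => GG_ub hX hK hKT hm hQ hΩ hM χ₀ hp, fun χ₀ p hp hpT => GG_off hX hK hKT hQ χ₀ hp hpT, ?_, ?_⟩
  · intro χ₀ nd₀ h₀ t₀ ht₀ hnd
    have hp : ((0 : ℂ), t₀) ∈ ball (0 : ℂ × ℂ) 2 := by
      rw [mem_ball_zero_iff, Prod.norm_def]
      simpa using ht₀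
    refine two_sided hX hK hm hQ hM χ₀ hp ((h₀ _ hp).2 (Or.inl rfl)) (fun y w => sm_nonneg _ _ _) fun i hU => ?_
    obtain ⟨B, hB, hev⟩ := cmp_smooth hX hTs χ₀ (χ i) h₀ (hM.ty i) ht₀ hnd hU
    exact ⟨B, hB, hev.mono fun y hy h1 w => hy h1 P.κ hκ0.le hκ4 w⟩
  · intro χ₀ h₀
    have hp : (0 : ℂ × ℂ) ∈ ball (0 : ℂ × ℂ) 2 := mem_ball_self (by norm_num)
    refine two_sided hX hK hm hQ hM χ₀ hp ((h₀ _ hp).2 (Or.inl rfl)) (fun y w => sn_nonneg _ _ _) fun i hU => ?_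
    obtain ⟨B, hB, hev⟩ := cmp_node hX hTs χ₀ (χ i) h₀ (hM.ty i) hU
    exact ⟨B, hB, hev.mono fun y hy h1 w => hy P.κ hκ0.le hκ4 w⟩

end Pool.Agent.H36.TB
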