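import Pool.Agent.H36.TB.MetA

/-!
# TB MetB: two-sided bounds of the metric near a point of a chart
-/

set_option autoImplicit false

open Topology Filter Metric

namespace Pool.Agent.H36.TB

open Pool.Agent.H36.BP
open Pool.Agent.H14.PP

variable {N : ℕ} {W : Type*} [NormedAddCommGroup W] [InnerProductSpace ℂ W]
  {X K T : Set (EN N)} {m j : ℕ} {Q : EN N → W} {D : ℕ}

/-- the derivative of the coordinates of the chart `χ` on a vector which comes from the chart `χ₀` -/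
theorem fderiv_two (χ₀ χ : Chart X) {y : ℂ × ℂ} (hy : y ∈ ball (0 : ℂ × ℂ) 2) (hU : χ₀.σ y ∈ χ.U) (w : ℂ × ℂ) :
    fderiv ℂ χ.q (χ₀.σ y) (fderiv ℂ χ₀.σ y w) = fderiv ℂ (fun y => χ.q (χ₀.σ y)) y w := by
  have h1 : HasFDerivAt χ.q (fderiv ℂ χ.q (χ₀.σ y)) (χ₀.σ y) := (χ.q_an _ hU).differentiableAt.hasFDerivAt
  have h2 : HasFDerivAt χ₀.σ (fderiv ℂ χ₀.σ y) y := (χ₀.σ_an y hy).differentiableAt.hasFDerivAt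
  have h3 : HasFDerivAt (fun y => χ.q (χ₀.σ y)) ((fderiv ℂ χ.q (χ₀.σ y)).comp (fderiv ℂ χ₀.σ y)) y :=
    HasFDerivAt.comp (g := χ.q) (f := χ₀.σ) y h1 h2
  rw [h3.fderiv]
  rfl

/-- the curve in the direction `w` -/
theorem curve_dir (hK : IsOpenPart X K) (χ₀ : Chart X) {y : ℂ × ℂ} (hy : y ∈ ball (0 : ℂ × ℂ) 2) (hyK : χ₀.σ y ∈ K) (w : ℂ × ℂ) :
    ∃ F : ℂ → EN N, CurveAt K F 0 ∧ F 0 = χ₀.σ y ∧ deriv F 0 = fderiv ℂ χ₀.σ y w := χ₀.tan hK hy hyK w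

variable {Ω : Form K m j} {n : ℕ} {χ : Fin n → Chart X} {nd : Fin n → Bool} {P : Par} {M₀ : ℕ} {δ c₁ c : ℝ}

/-- the value of the near piece -/
theorem nearG_two (χ₀ : Chart X) {i : Fin n} {y : ℂ × ℂ} (hy : y ∈ ball (0 : ℂ × ℂ) 2)
    (hU : χ₀.σ y ∈ (χ i).U) (hq : ‖(χ i).q (χ₀.σ y)‖ ≤ 1) (hρ : rho Q D (χ₀.σ y) ≤ δ) (w : ℂ × ℂ) :
    nearG Ω χ nd P Q D δ i (χ₀.σ y) (fderiv ℂ χ₀.σ y w) = ACoef Ω (χ i) ((χ i).q (χ₀.σ y)) *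
      pM (nd i) P ((χ i).q (χ₀.σ y)) (fderiv ℂ (fun y => (χ i).q (χ₀.σ y)) y w) := by
  rw [nearG_of_mem (χ₀.σ_mem y hy).1 hU hq hρ, fderiv_two χ₀ (χ i) hy hU w]

/-- upper bound of a near piece -/
theorem near_le (hX : IsCone X) (hK : IsOpenPart X K) (hm : 1 ≤ m) (hM : MetP X K T m j Ω Q D n χ nd P M₀ δ c₁ c) (χ₀ : Chart X) {p : ℂ × ℂ}
    (hp : p ∈ ball (0 : ℂ × ℂ) 2) {md : ℂ × ℂ → ℂ × ℂ → ℝ} (hmd : ∀ y w, 0 ≤ md y w) (i : Fin n)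
    (hc : χ₀.σ p ∈ (χ i).U → ∃ B : ℝ, 1 ≤ B ∧ ∀ᶠ y in 𝓝 p, ‖(χ i).q (χ₀.σ y)‖ ≤ 1 → ∀ w,
      sg (nd i) P.κ ((χ i).q (χ₀.σ y)) (fderiv ℂ (fun y => (χ i).q (χ₀.σ y)) y w) ≤ B * md y w) :
    ∃ B : ℝ, 1 ≤ B ∧ ∀ᶠ y in 𝓝 p, χ₀.σ y ∈ K → ∀ w,
      nearG Ω χ nd P Q D δ i (χ₀.σ y) (fderiv ℂ χ₀.σ y w) ≤ B * (ACoef Ω χ₀ y * md y w) := by
  have hnn : ∀ y w, 0 ≤ ACoef Ω χ₀ y * md y w := fun y w => mul_nonneg (ACoef_nonneg _ _ _) (hmd y w)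
  by_cases hS : χ₀.σ p ∈ (χ i).U ∧ ‖(χ i).q (χ₀.σ p)‖ ≤ 1
  · obtain ⟨B₁, hB₁, e1⟩ := hc hS.1
    obtain ⟨B₂, hB₂, e2⟩ := ACoef_cmp hX hK hm Ω χ₀ (χ i) hp hS.1
    refine ⟨B₂ * (2 * B₁), by nlinarith, ?_⟩
    filter_upwards [e1, e2, ch_near χ₀ (χ i) hp hS.1] with y h1 h2 h3 hyK w
    by_cases hdom : ‖(χ i).q (χ₀.σ y)‖ ≤ 1 ∧ rho Q D (χ₀.σ y) ≤ δ
    · rw [nearG_two χ₀ h3.1 h3.2 hdom.1 hdom.2]
      obtain ⟨-, a2⟩ := h2 hyK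
      have a3 := (pM_sg hM.conv (nd i) hdom.1 (fderiv ℂ (fun y => (χ i).q (χ₀.σ y)) y w)).2
      have a4 := h1 hdom.1 w
      have a5 : 0 ≤ pM (nd i) P ((χ i).q (χ₀.σ y)) (fderiv ℂ (fun y => (χ i).q (χ₀.σ y)) y w) :=
        pM_nonneg (zero_le_one.trans hM.conv.M_ge) _ _ _
      calc ACoef Ω (χ i) ((χ i).q (χ₀.σ y)) * pM (nd i) P ((χ i).q (χ₀.σ y)) (fderiv ℂ (fun y => (χ i).q (χ₀.σ y)) y w)
          ≤ (B₂ * ACoef Ω χ₀ y) * (2 * (B₁ * md y w)) :=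
            mul_le_mul a2 (a3.trans (mul_le_mul_of_nonneg_left a4 (by norm_num))) a5
              (mul_nonneg (by linarith) (ACoef_nonneg _ _ _))
        _ = B₂ * (2 * B₁) * (ACoef Ω χ₀ y * md y w) := by ring
    · have h5 : nearG Ω χ nd P Q D δ i (χ₀.σ y) (fderiv ℂ χ₀.σ y w) = 0 := by
        unfold nearG
        rw [if_neg]
        rintro ⟨-, -, a3, a4⟩
        exact hdom ⟨a3, a4⟩
      rw [h5]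
      have := hnn y w
      positivity
  · refine ⟨1, le_rfl, ?_⟩
    have hcl := (χ i).isClosed hX (zero_le_one) (by norm_num : (1 : ℝ) < 2)
    have hnot : χ₀.σ p ∉ insert (0 : EN N) {x | x ∈ X ∧ x ∈ (χ i).U ∧ ‖(χ i).q x‖ ≤ 1} := by
      rintro (h0 | ⟨-, h1, h2⟩)
      · exact χ₀.sigma_ne_zero hX hp h0
      · exact hS ⟨h1, h2⟩
    have hev : ∀ᶠ y in 𝓝 p, χ₀.σ y ∉ insert (0 : EN N) {x | x ∈ X ∧ x ∈ (χ i).U ∧ ‖(χ i).q x‖ ≤ 1} :=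
      (χ₀.σ_an p hp).continuousAt.eventually (hcl.isOpen_compl.mem_nhds hnot)
    filter_upwards [hev] with y hy hyK w
    have h5 : nearG Ω χ nd P Q D δ i (χ₀.σ y) (fderiv ℂ χ₀.σ y w) = 0 := by
      unfold nearG
      rw [if_neg]
      rintro ⟨a1, a2, a3, -⟩
      exact hy (Or.inr ⟨a1, a2, a3⟩)
    rw [h5, one_mul]
    exact hnn y w

/-- lower bound of the near piece of a chart which contains the point -/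
theorem le_near (hX : IsCone X) (hK : IsOpenPart X K) (hm : 1 ≤ m) (hQ : IsEq X T Q D) (hM : MetP X K T m j Ω Q D n χ nd P M₀ δ c₁ c)
    (χ₀ : Chart X) {p : ℂ × ℂ}
    (hp : p ∈ ball (0 : ℂ × ℂ) 2) {md : ℂ × ℂ → ℂ × ℂ → ℝ} (i : Fin n)
    (hU : χ₀.σ p ∈ (χ i).U) (hq : ‖(χ i).q (χ₀.σ p)‖ < 1) (hρ : rho Q D (χ₀.σ p) < δ)
    (hc : ∃ B : ℝ, 1 ≤ B ∧ ∀ᶠ y in 𝓝 p, ‖(χ i).q (χ₀.σ y)‖ ≤ 1 → ∀ w,
      md y w ≤ B * sg (nd i) P.κ ((χ i).q (χ₀.σ y)) (fderiv ℂ (fun y => (χ i).q (χ₀.σ y)) y w)) :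
    ∃ B : ℝ, 1 ≤ B ∧ ∀ᶠ y in 𝓝 p, χ₀.σ y ∈ K → ∀ w,
      ACoef Ω χ₀ y * md y w ≤ B * nearG Ω χ nd P Q D δ i (χ₀.σ y) (fderiv ℂ χ₀.σ y w) := by
  obtain ⟨B₁, hB₁, e1⟩ := hc
  obtain ⟨B₂, hB₂, e2⟩ := ACoef_cmp hX hK hm Ω χ₀ (χ i) hp hU
  have e3 : ∀ᶠ y in 𝓝 p, ‖(χ i).q (χ₀.σ y)‖ < 1 := (ch_an χ₀ (χ i) hp hU).continuousAt.norm.eventually (gt_mem_nhds hq)
  have e4 : ∀ᶠ y in 𝓝 p, rho Q D (χ₀.σ y) < δ := by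
    have h1 : ContinuousAt (fun y => rho Q D (χ₀.σ y)) p :=
      ContinuousAt.comp (g := rho Q D) (continuousAt_rho hQ.analytic (χ₀.sigma_ne_zero hX hp)) (χ₀.σ_an p hp).continuousAt
    exact h1.eventually (gt_mem_nhds hρ)
  set b : ℝ := Real.exp (-P.K - 1) with hb
  have hb0 : 0 < b := Real.exp_pos _
  refine ⟨max 1 (B₂ * (B₁ / b)), le_max_left _ _, ?_⟩
  filter_upwards [e1, e2, e3, e4, ch_near χ₀ (χ i) hp hU] with y h1 h2 h3 h4 h5 hyK w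
  rw [nearG_two χ₀ h5.1 h5.2 h3.le h4.le]
  obtain ⟨a1, -⟩ := h2 hyK
  have a3 := (pM_sg hM.conv (nd i) h3.le (fderiv ℂ (fun y => (χ i).q (χ₀.σ y)) y w)).1
  have a4 := h1 h3.le w
  have a5 : 0 ≤ pM (nd i) P ((χ i).q (χ₀.σ y)) (fderiv ℂ (fun y => (χ i).q (χ₀.σ y)) y w) :=
    pM_nonneg (zero_le_one.trans hM.conv.M_ge) _ _ _
  have a6 : 0 ≤ ACoef Ω (χ i) ((χ i).q (χ₀.σ y)) := ACoef_nonneg _ _ _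
  have a7 : 0 ≤ ACoef Ω χ₀ y := ACoef_nonneg _ _ _
  have a8 : md y w ≤ B₁ / b * pM (nd i) P ((χ i).q (χ₀.σ y)) (fderiv ℂ (fun y => (χ i).q (χ₀.σ y)) y w) := by
    refine a4.trans ?_
    rw [div_mul_eq_mul_div, le_div_iff₀ hb0, mul_assoc]
    refine mul_le_mul_of_nonneg_left ?_ (by linarith)
    rw [mul_comm]
    exact a3
  calc ACoef Ω χ₀ y * md y w ≤ ACoef Ω χ₀ y *
        (B₁ / b * pM (nd i) P ((χ i).q (χ₀.σ y)) (fderiv ℂ (fun y => (χ i).q (χ₀.σ y)) y w)) := mul_le_mul_of_nonneg_left a8 a7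
    _ ≤ (B₂ * ACoef Ω (χ i) ((χ i).q (χ₀.σ y))) *
        (B₁ / b * pM (nd i) P ((χ i).q (χ₀.σ y)) (fderiv ℂ (fun y => (χ i).q (χ₀.σ y)) y w)) := by
          refine mul_le_mul_of_nonneg_right a1 ?_
          have : 0 ≤ B₁ / b := by positivity
          positivity
    _ = B₂ * (B₁ / b) * (ACoef Ω (χ i) ((χ i).q (χ₀.σ y)) *
        pM (nd i) P ((χ i).q (χ₀.σ y)) (fderiv ℂ (fun y => (χ i).q (χ₀.σ y)) y w)) := by ring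
    _ ≤ _ := mul_le_mul_of_nonneg_right (le_max_right _ _) (mul_nonneg a6 a5)

/-- the far piece is bounded by the near piece -/
theorem far_le (hX : IsCone X) (hK : IsOpenPart X K) (hQ : IsEq X T Q D) (hM : MetP X K T m j Ω Q D n χ nd P M₀ δ c₁ c)
    (χ₀ : Chart X) {p : ℂ × ℂ} (hp : p ∈ ball (0 : ℂ × ℂ) 2) (i : Fin n)
    (hU : χ₀.σ p ∈ (χ i).U) (hq : ‖(χ i).q (χ₀.σ p)‖ < 1) (hρ : rho Q D (χ₀.σ p) < δ) :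
    ∀ᶠ y in 𝓝 p, χ₀.σ y ∈ K → ∀ w, rho Q D (χ₀.σ y) ^ (M₀ + 1) * fs (χ₀.σ y) (fderiv ℂ χ₀.σ y w) ≤
      δ / c * nearG Ω χ nd P Q D δ i (χ₀.σ y) (fderiv ℂ χ₀.σ y w) := by
  have e3 : ∀ᶠ y in 𝓝 p, ‖(χ i).q (χ₀.σ y)‖ < 1 := (ch_an χ₀ (χ i) hp hU).continuousAt.norm.eventually (gt_mem_nhds hq)
  have e4 : ∀ᶠ y in 𝓝 p, rho Q D (χ₀.σ y) < δ := by
    have h1 : ContinuousAt (fun y => rho Q D (χ₀.σ y)) p :=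
      ContinuousAt.comp (g := rho Q D) (continuousAt_rho hQ.analytic (χ₀.sigma_ne_zero hX hp)) (χ₀.σ_an p hp).continuousAt
    exact h1.eventually (gt_mem_nhds hρ)
  filter_upwards [e3, e4, ch_near χ₀ (χ i) hp hU] with y h3 h4 h5 hyK w
  obtain ⟨F, hF, hF0, hFd⟩ := curve_dir hK χ₀ h5.1 hyK w
  have h6 := hM.low i F 0 hF (by rw [hF0]; exact h5.2) (by rw [hF0]; exact h3.le) (by rw [hF0]; exact h4.le)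
  rw [hF0, hFd] at h6
  have hρ0 := rho_nonneg Q D (χ₀.σ y)
  have hfs := fs_nonneg (χ₀.σ y) (fderiv ℂ χ₀.σ y w)
  have hc := hM.c_pos
  have hδ := hM.δ_pos
  have h7 : 0 ≤ rho Q D (χ₀.σ y) ^ M₀ * fs (χ₀.σ y) (fderiv ℂ χ₀.σ y w) := by positivity
  calc rho Q D (χ₀.σ y) ^ (M₀ + 1) * fs (χ₀.σ y) (fderiv ℂ χ₀.σ y w)
      = rho Q D (χ₀.σ y) * (rho Q D (χ₀.σ y) ^ M₀ * fs (χ₀.σ y) (fderiv ℂ χ₀.σ y w)) := by rw [pow_succ]; ring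
    _ ≤ δ * (rho Q D (χ₀.σ y) ^ M₀ * fs (χ₀.σ y) (fderiv ℂ χ₀.σ y w)) := mul_le_mul_of_nonneg_right h4.le h7
    _ = δ / c * (c * rho Q D (χ₀.σ y) ^ M₀ * fs (χ₀.σ y) (fderiv ℂ χ₀.σ y w)) := by field_simp
    _ ≤ _ := mul_le_mul_of_nonneg_left h6 (by positivity)

/-- the bound of all pieces gives the bound of the metric -/
theorem GG_le {p : ℂ × ℂ} (χ₀ : Chart X) (hc₁ : 0 < c₁) {E : ℂ × ℂ → ℂ × ℂ → ℝ} (hE : ∀ y w, 0 ≤ E y w)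
    (hnear : ∀ i, ∃ B : ℝ, 1 ≤ B ∧ ∀ᶠ y in 𝓝 p, χ₀.σ y ∈ K → ∀ w,
      nearG Ω χ nd P Q D δ i (χ₀.σ y) (fderiv ℂ χ₀.σ y w) ≤ B * E y w)
    (hfar : ∃ B : ℝ, 1 ≤ B ∧ ∀ᶠ y in 𝓝 p, χ₀.σ y ∈ K → ∀ w,
      rho Q D (χ₀.σ y) ^ (M₀ + 1) * fs (χ₀.σ y) (fderiv ℂ χ₀.σ y w) ≤ B * E y w) :
    ∃ B : ℝ, 1 ≤ B ∧ ∀ᶠ y in 𝓝 p, χ₀.σ y ∈ K → ∀ w,
      GG Ω χ nd P Q D (M₀ + 1) δ c₁ (χ₀.σ y) (fderiv ℂ χ₀.σ y w) ≤ B * E y w := by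
  choose Bs hBs hev using hnear
  obtain ⟨B', hB', hev'⟩ := hfar
  obtain ⟨B'', hB'', hBB⟩ := exists_ub Bs
  refine ⟨max B' (c₁ * B''), le_max_of_le_left hB', ?_⟩
  filter_upwards [eventually_all.2 hev, hev'] with y h1 h2 hyK w
  obtain ⟨k, hk⟩ := exists_GG_eq (Ω := Ω) (χ := χ) (nd := nd) (P := P) (Q := Q) (D := D) (M' := M₀ + 1) (δ := δ) (c₁ := c₁)
    (χ₀.σ y) (fderiv ℂ χ₀.σ y w)
  rw [hk]
  have hE0 := hE y w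
  match k with
  | none => exact (h2 hyK w).trans (mul_le_mul_of_nonneg_right (le_max_left _ _) hE0)
  | some i =>
    show c₁ * nearG Ω χ nd P Q D δ i (χ₀.σ y) (fderiv ℂ χ₀.σ y w) ≤ _
    calc c₁ * nearG Ω χ nd P Q D δ i (χ₀.σ y) (fderiv ℂ χ₀.σ y w) ≤ c₁ * (Bs i * E y w) :=
          mul_le_mul_of_nonneg_left (h1 i hyK w) hc₁.le
      _ ≤ c₁ * (B'' * E y w) := mul_le_mul_of_nonneg_left (mul_le_mul_of_nonneg_right (hBB i) hE0) hc₁.le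
      _ = c₁ * B'' * E y w := by ring
      _ ≤ _ := mul_le_mul_of_nonneg_right (le_max_right _ _) hE0

/-- **The two-sided bound near a point of `T`** with a model `md` which is comparable to the models of the charts. -/
theorem two_sided (hX : IsCone X) (hK : IsOpenPart X K) (hm : 1 ≤ m) (hQ : IsEq X T Q D) (hM : MetP X K T m j Ω Q D n χ nd P M₀ δ c₁ c)
    (χ₀ : Chart X) {p : ℂ × ℂ} (hp : p ∈ ball (0 : ℂ × ℂ) 2) (hpT : χ₀.σ p ∈ T) {md : ℂ × ℂ → ℂ × ℂ → ℝ} (hmd : ∀ y w, 0 ≤ md y w)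
    (hc : ∀ i, χ₀.σ p ∈ (χ i).U → ∃ B : ℝ, 1 ≤ B ∧ ∀ᶠ y in 𝓝 p, ‖(χ i).q (χ₀.σ y)‖ ≤ 1 → ∀ w,
      md y w ≤ B * sg (nd i) P.κ ((χ i).q (χ₀.σ y)) (fderiv ℂ (fun y => (χ i).q (χ₀.σ y)) y w) ∧
      sg (nd i) P.κ ((χ i).q (χ₀.σ y)) (fderiv ℂ (fun y => (χ i).q (χ₀.σ y)) y w) ≤ B * md y w) :
    ∃ B : ℝ, 1 ≤ B ∧ ∀ᶠ y in 𝓝 p, χ₀.σ y ∈ K → ∀ w,
      ACoef Ω χ₀ y * md y w ≤ B * GG Ω χ nd P Q D (M₀ + 1) δ c₁ (χ₀.σ y) (fderiv ℂ χ₀.σ y w) ∧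
      GG Ω χ nd P Q D (M₀ + 1) δ c₁ (χ₀.σ y) (fderiv ℂ χ₀.σ y w) ≤ B * (ACoef Ω χ₀ y * md y w) := by
  have hρ0 : rho Q D (χ₀.σ p) = 0 := (rho_eq_zero_iff (χ₀.sigma_ne_zero hX hp)).2 ((hQ.mem_iff _).1 hpT).2
  have hρδ : rho Q D (χ₀.σ p) < δ := by rw [hρ0]; exact hM.δ_pos
  obtain ⟨i, hi1, hi2⟩ := hM.cov _ (χ₀.σ_mem p hp).1 hρδ.le
  have hi3 : ‖(χ i).q (χ₀.σ p)‖ < 1 := by linarith
  have hcl : ∀ i, χ₀.σ p ∈ (χ i).U → ∃ B : ℝ, 1 ≤ B ∧ ∀ᶠ y in 𝓝 p, ‖(χ i).q (χ₀.σ y)‖ ≤ 1 → ∀ w,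
      sg (nd i) P.κ ((χ i).q (χ₀.σ y)) (fderiv ℂ (fun y => (χ i).q (χ₀.σ y)) y w) ≤ B * md y w := by
    intro i hi
    obtain ⟨B, hB, h⟩ := hc i hi
    exact ⟨B, hB, h.mono fun y hy h1 w => (hy h1 w).2⟩
  have hnear := fun i => near_le hX hK hm hM χ₀ hp hmd i (hcl i)
  have hfar : ∃ B : ℝ, 1 ≤ B ∧ ∀ᶠ y in 𝓝 p, χ₀.σ y ∈ K → ∀ w,
      rho Q D (χ₀.σ y) ^ (M₀ + 1) * fs (χ₀.σ y) (fderiv ℂ χ₀.σ y w) ≤ B * (ACoef Ω χ₀ y * md y w) := by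
    obtain ⟨B, hB, h⟩ := hnear i
    have hcpos := hM.c_pos
    have hδ := hM.δ_pos
    have hδc : 0 ≤ δ / c := by positivity
    refine ⟨max 1 (δ / c * B), le_max_left _ _, ?_⟩
    filter_upwards [h, far_le hX hK hQ hM χ₀ hp i hi1 hi3 hρδ] with y h1 h2 hyK w
    have h3 : 0 ≤ ACoef Ω χ₀ y * md y w := mul_nonneg (ACoef_nonneg _ _ _) (hmd y w)
    calc _ ≤ δ / c * nearG Ω χ nd P Q D δ i (χ₀.σ y) (fderiv ℂ χ₀.σ y w) := h2 hyK w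
      _ ≤ δ / c * (B * (ACoef Ω χ₀ y * md y w)) := mul_le_mul_of_nonneg_left (h1 hyK w) hδc
      _ = δ / c * B * (ACoef Ω χ₀ y * md y w) := by ring
      _ ≤ _ := mul_le_mul_of_nonneg_right (le_max_right _ _) h3
  obtain ⟨B₁, hB₁, h₁⟩ := GG_le χ₀ hM.c₁_pos (E := fun y w => ACoef Ω χ₀ y * md y w)
    (fun y w => mul_nonneg (ACoef_nonneg _ _ _) (hmd y w)) hnear hfar
  obtain ⟨B₂, hB₂, h₂⟩ := le_near hX hK hm hQ hM χ₀ hp (md := md) i hi1 hi3 hρδ (by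
    obtain ⟨B, hB, h⟩ := hc i hi1
    exact ⟨B, hB, h.mono fun y hy h1 w => (hy h1 w).1⟩)
  have hc₁ := hM.c₁_pos
  refine ⟨max B₁ (B₂ / c₁), le_max_of_le_left hB₁, ?_⟩
  filter_upwards [h₁, h₂] with y a1 a2 hyK w
  have hG0 : 0 ≤ GG Ω χ nd P Q D (M₀ + 1) δ c₁ (χ₀.σ y) (fderiv ℂ χ₀.σ y w) := GG_nonneg _ _
  have h3 : 0 ≤ ACoef Ω χ₀ y * md y w := mul_nonneg (ACoef_nonneg _ _ _) (hmd y w)
  constructor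
  · have h4 := pieceG_le_GG (Ω := Ω) (χ := χ) (nd := nd) (P := P) (Q := Q) (D := D) (M' := M₀ + 1) (δ := δ) (c₁ := c₁) (some i)
      (χ₀.σ y) (fderiv ℂ χ₀.σ y w)
    have h5 : c₁ * nearG Ω χ nd P Q D δ i (χ₀.σ y) (fderiv ℂ χ₀.σ y w) ≤
        GG Ω χ nd P Q D (M₀ + 1) δ c₁ (χ₀.σ y) (fderiv ℂ χ₀.σ y w) := h4
    calc ACoef Ω χ₀ y * md y w ≤ B₂ * nearG Ω χ nd P Q D δ i (χ₀.σ y) (fderiv ℂ χ₀.σ y w) := a2 hyK w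
      _ = B₂ / c₁ * (c₁ * nearG Ω χ nd P Q D δ i (χ₀.σ y) (fderiv ℂ χ₀.σ y w)) := by field_simp
      _ ≤ B₂ / c₁ * GG Ω χ nd P Q D (M₀ + 1) δ c₁ (χ₀.σ y) (fderiv ℂ χ₀.σ y w) := mul_le_mul_of_nonneg_left h5 (by positivity)
      _ ≤ _ := mul_le_mul_of_nonneg_right (le_max_right _ _) hG0
  · exact (a1 hyK w).trans (mul_le_mul_of_nonneg_right (le_max_left _ _) h3)

end Pool.Agent.H36.TB
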